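import Mathlib

set_option autoImplicit false

/-!
Partition functions of graphs with pendant vertices.
-/

namespace Pool.Agent.H445R3

open Finset

/-- Summing out the pendant vertices of a graph. -/
theorem star_sum {W C L : Type} [Fintype W] [DecidableEq W] [Fintype C] [DecidableEq C]
    [Fintype L] [DecidableEq L] (n : ℕ) (e : C ⊕ L ≃ W) (par : L → C)
    (EC : Finset (Sym2 C)) (EH : Finset (Sym2 W))
    (hE : ∀ x y : C ⊕ L, s(e x, e y) ∈ EH ↔
      ((∃ z ∈ EC, Sym2.map Sum.inl z = s(x, y)) ∨ ∃ l : L, s(Sum.inr l, Sum.inl (par l)) = s(x, y)))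
    (A : Sym2 (Fin n) → ℝ) :
    (∑ φ : W → Fin n, ∏ z ∈ EH, A (Sym2.map φ z)) =
      ∑ ψ : C → Fin n, (∏ z ∈ EC, A (Sym2.map ψ z)) * ∏ l : L, ∑ j : Fin n, A s(j, ψ (par l)) := by
  have hEH : EH = (EC.image (fun z => Sym2.map e (Sym2.map Sum.inl z))) ∪
      (Finset.univ.image (fun l : L => Sym2.map e s(Sum.inr l, Sum.inl (par l)))) := by
    ext w
    obtain ⟨w', rfl⟩ : ∃ w', Sym2.map e w' = w :=
      ⟨Sym2.map e.symm w, by rw [Sym2.map_map]; simp⟩
    induction w' using Sym2.ind with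
    | _ x y =>
      have h1 := hE x y
      have hinj : Function.Injective (Sym2.map e) := Sym2.map.injective e.injective
      simp only [Finset.mem_union, Finset.mem_image, Finset.mem_univ, true_and]
      rw [show Sym2.map e s(x, y) = s(e x, e y) from rfl, h1]
      constructor
      · rintro (⟨z, hz, h⟩ | ⟨l, h⟩)
        · exact Or.inl ⟨z, hz, by rw [h]; rfl⟩
        · exact Or.inr ⟨l, by rw [h]; rfl⟩
      · rintro (⟨z, hz, h⟩ | ⟨l, h⟩)
        · exact Or.inl ⟨z, hz, hinj h⟩
        · exact Or.inr ⟨l, hinj h⟩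
  have hinj : Function.Injective (Sym2.map e) := Sym2.map.injective e.injective
  have hdisj : Disjoint (EC.image (fun z => Sym2.map e (Sym2.map Sum.inl z)))
      (Finset.univ.image (fun l : L => Sym2.map e s(Sum.inr l, Sum.inl (par l)))) := by
    rw [Finset.disjoint_left]
    intro w hw hw'
    simp only [Finset.mem_image, Finset.mem_univ, true_and] at hw hw'
    obtain ⟨z, _, rfl⟩ := hw
    obtain ⟨l, hl⟩ := hw'
    have h2 := hinj hl
    induction z using Sym2.ind with
    | _ a b =>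
      simp [Sym2.map_mk] at h2
  have hprod : ∀ φ : W → Fin n, ∏ z ∈ EH, A (Sym2.map φ z) =
      (∏ z ∈ EC, A (Sym2.map (fun c => φ (e (Sum.inl c))) z)) *
        ∏ l : L, A s(φ (e (Sum.inr l)), φ (e (Sum.inl (par l)))) := by
    intro φ
    rw [hEH, Finset.prod_union hdisj, Finset.prod_image, Finset.prod_image]
    · congr 1
      refine Finset.prod_congr rfl fun z _ => ?_
      rw [Sym2.map_map, Sym2.map_map]
      rfl
    · intro l _ l' _ h
      have h2 := hinj h
      simp at h2
      exact h2.1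
    · intro z _ z' _ h
      exact Sym2.map.injective Sum.inl_injective (hinj h)
  simp_rw [hprod]
  have hsum : ∀ F : (W → Fin n) → ℝ, ∑ φ : W → Fin n, F φ =
      ∑ ψ : C → Fin n, ∑ χ : L → Fin n, F (fun w => Sum.elim ψ χ (e.symm w)) := by
    intro F
    rw [← Fintype.sum_prod_type']
    refine (Fintype.sum_equiv
      ((Equiv.sumArrowEquivProdArrow C L (Fin n)).symm.trans (Equiv.arrowCongr e (Equiv.refl _))) _ _
      fun p => ?_).symm
    congr 1
  rw [hsum]
  refine Finset.sum_congr rfl fun ψ _ => ?_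
  simp only [Equiv.symm_apply_apply, Sum.elim_inl, Sum.elim_inr]
  rw [← Finset.mul_sum]
  congr 1
  rw [Finset.prod_univ_sum, Fintype.piFinset_univ]

theorem sum_fin_succ {n : ℕ} {α : Type} [Fintype α] (f : (Fin (n + 1) → α) → ℕ) :
    ∑ ψ : Fin (n + 1) → α, f ψ = ∑ a : α, ∑ ψ : Fin n → α, f (Fin.cons a ψ) := by
  rw [← Fintype.sum_prod_type']
  exact (Fintype.sum_equiv (Fin.consEquiv (fun _ => α)) _ _ fun p => rfl).symm

end Pool.Agent.H445R3
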