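import Mathlib
import Pool.Agent.H445R3.StarSum

set_option autoImplicit false

/-!
A bipartite graph `G` on 14 vertices (a four-cycle, two adjacent vertices of which carry five
pendant vertices each), a connected 2-lift `H` of `G`, and a 3 by 3 matrix with
`Z(H) > Z(G)^2`.
-/

namespace Pool.Agent.H445R3

open Finset

abbrev V14 : Type := Fin 4 ⊕ Fin 10

def par : Fin 10 → Fin 4 := fun l => if l.val < 5 then 0 else 1

def gAdj : V14 → V14 → Bool
  | .inl i, .inl j => decide (j = i + 1) || decide (i = j + 1)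
  | .inl i, .inr l => decide (par l = i)
  | .inr l, .inl i => decide (par l = i)
  | .inr _, .inr _ => false

theorem gAdj_symm : ∀ x y : V14, gAdj x y = gAdj y x := by
  rintro (i | l) (j | l') <;> simp [gAdj, Bool.or_comm]

theorem gAdj_irrefl : ∀ x : V14, gAdj x x = false := by
  rintro (i | l)
  · revert i; decide
  · rfl

def sg : V14 → V14 → Bool
  | .inl i, .inl j => (decide (i = 0) && decide (j = 3)) || (decide (i = 3) && decide (j = 0))
  | _, _ => false

theorem sg_symm : ∀ x y : V14, sg x y = sg y x := by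
  rintro (i | l) (j | l')
  · revert i j; decide
  · rfl
  · rfl
  · rfl

def G14 : SimpleGraph V14 where
  Adj x y := gAdj x y = true
  symm := ⟨fun x y h => by rw [gAdj_symm]; exact h⟩
  loopless := ⟨fun x h => by rw [gAdj_irrefl] at h; exact Bool.noConfusion h⟩

instance : DecidableRel G14.Adj := fun x y => inferInstanceAs (Decidable (gAdj x y = true))

def H28 : SimpleGraph (V14 × Bool) where
  Adj p q := G14.Adj p.1 q.1 ∧ q.2 = xor p.2 (sg p.1 q.1)
  symm := ⟨fun p q h => ⟨h.1.symm, by rw [h.2, sg_symm q.1 p.1, Bool.xor_assoc, Bool.xor_self, Bool.xor_false]⟩⟩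
  loopless := ⟨fun p h => G14.loopless.irrefl _ h.1⟩

instance : DecidableRel H28.Adj := fun p q =>
  inferInstanceAs (Decidable (G14.Adj p.1 q.1 ∧ q.2 = xor p.2 (sg p.1 q.1)))

theorem G14_colorable : G14.Colorable 2 := by
  refine ⟨SimpleGraph.Coloring.mk
    (fun x => Sum.elim (fun i : Fin 4 => if i.val % 2 = 0 then (0 : Fin 2) else 1)
      (fun l : Fin 10 => if l.val < 5 then (1 : Fin 2) else 0) x) ?_⟩
  intro x y h
  revert h
  revert x y
  rintro (i | l) (j | l')
  · revert i j; decide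
  · revert i l'; decide
  · revert l j; decide
  · intro h; exact Bool.noConfusion h

/-- core edges of `G14` -/
def EC4 : Finset (Sym2 (Fin 4)) := {s(0, 1), s(1, 2), s(2, 3), s(3, 0)}

/-- core edges of `H28`; vertex `(i, b)` is `i + 4 b` -/
def EC8 : Finset (Sym2 (Fin 8)) :=
  {s(0, 1), s(1, 2), s(2, 3), s(3, 4), s(4, 5), s(5, 6), s(6, 7), s(7, 0)}

def c8 : Fin 8 ≃ Fin 4 × Bool where
  toFun i := (⟨i.val % 4, Nat.mod_lt _ (by norm_num)⟩, decide (4 ≤ i.val))
  invFun p := ⟨p.1.val + (if p.2 then 4 else 0), by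
    have := p.1.isLt
    split_ifs <;> omega⟩
  left_inv := by
    intro i
    revert i
    decide
  right_inv := by
    intro p
    revert p
    decide

def e28 : Fin 8 ⊕ (Fin 10 × Bool) ≃ V14 × Bool :=
  (Equiv.sumCongr c8 (Equiv.refl _)).trans (Equiv.sumProdDistrib (Fin 4) (Fin 10) Bool).symm

def par8 : Fin 10 × Bool → Fin 8 := fun p => c8.symm (par p.1, p.2)

/-- entries of the 3 by 3 matrix `[[2,0,1],[0,3,3],[1,3,2]]` -/
def mat : Fin 3 → Fin 3 → ℕ :=
  ![![2, 0, 1], ![0, 3, 3], ![1, 3, 2]]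

theorem mat_symm : ∀ i j : Fin 3, mat i j = mat j i := by decide

def NA : Sym2 (Fin 3) → ℕ := Sym2.lift ⟨mat, mat_symm⟩

end Pool.Agent.H445R3
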