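import Mathlib
import Pool.Agent.H445R3.LiftGraphs

set_option autoImplicit false

/-!
The two partition functions.
-/

namespace Pool.Agent.H445R3

open Finset

theorem hE_G (x y : Fin 4 ⊕ Fin 10) : gAdj x y = true ↔
      ((∃ z ∈ EC4, Sym2.map (Sum.inl : Fin 4 → Fin 4 ⊕ Fin 10) z = s(x, y)) ∨
        ∃ l : Fin 10, s((Sum.inr l : Fin 4 ⊕ Fin 10), Sum.inl (par l)) = s(x, y)) := by
  revert x y
  rintro (i | l) (j | l')
  · revert i j; decide
  · revert i l'; decide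
  · revert l j; decide
  · revert l l'; decide

theorem par8_eq : ∀ p : Fin 10 × Bool, par8 p = (if p.1.val < 5 then (if p.2 then 4 else 0) else
    (if p.2 then 5 else 1)) := by decide

theorem hE_H (x y : Fin 8 ⊕ (Fin 10 × Bool)) : H28.Adj (e28 x) (e28 y) ↔
      ((∃ z ∈ EC8, Sym2.map (Sum.inl : Fin 8 → Fin 8 ⊕ (Fin 10 × Bool)) z = s(x, y)) ∨
        ∃ l : Fin 10 × Bool, s((Sum.inr l : Fin 8 ⊕ (Fin 10 × Bool)), Sum.inl (par8 l)) = s(x, y)) := by
  revert x y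
  rintro (i | l) (j | l')
  · revert i j; decide
  · revert i l'; decide +kernel
  · revert l j; decide +kernel
  · revert l l'; decide +kernel

theorem ZG_eq : (∑ φ : V14 → Fin 3, ∏ z ∈ G14.edgeFinset, (NA (Sym2.map φ z) : ℝ)) =
    ((∑ ψ : Fin 4 → Fin 3, (∏ z ∈ EC4, NA (Sym2.map ψ z)) *
      ∏ l : Fin 10, ∑ j : Fin 3, NA s(j, ψ (par l)) : ℕ) : ℝ) := by
  have h := star_sum 3 (Equiv.refl (Fin 4 ⊕ Fin 10)) par EC4 G14.edgeFinset ?_ (fun z => (NA z : ℝ))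
  · rw [h]
    push_cast
    rfl
  · intro x y
    rw [SimpleGraph.mem_edgeFinset, SimpleGraph.mem_edgeSet]
    exact hE_G x y

theorem ZH_eq : (∑ φ : V14 × Bool → Fin 3, ∏ z ∈ H28.edgeFinset, (NA (Sym2.map φ z) : ℝ)) =
    ((∑ ψ : Fin 8 → Fin 3, (∏ z ∈ EC8, NA (Sym2.map ψ z)) *
      ∏ l : Fin 10 × Bool, ∑ j : Fin 3, NA s(j, ψ (par8 l)) : ℕ) : ℝ) := by
  have h := star_sum 3 e28 par8 EC8 H28.edgeFinset ?_ (fun z => (NA z : ℝ))
  · rw [h]
    push_cast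
    rfl
  · intro x y
    rw [SimpleGraph.mem_edgeFinset, SimpleGraph.mem_edgeSet]
    exact hE_H x y

/-- fifth powers of the row sums -/
def dg : Fin 3 → ℕ := ![243, 7776, 7776]

theorem dg_eq : ∀ a : Fin 3, (∑ j : Fin 3, mat j a) ^ 5 = dg a := by decide

theorem ZG_nat : (∑ ψ : Fin 4 → Fin 3, (∏ z ∈ EC4, NA (Sym2.map ψ z)) *
      ∏ l : Fin 10, ∑ j : Fin 3, NA s(j, ψ (par l))) =
    ∑ a : Fin 3, ∑ b : Fin 3, ∑ c : Fin 3, ∑ d : Fin 3,
      (mat a b * mat b c * mat c d * mat d a) * (dg a * dg b) := by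
  have hstar : ∀ ψ : Fin 4 → Fin 3, ∏ l : Fin 10, ∑ j : Fin 3, NA s(j, ψ (par l)) =
      dg (ψ 0) * dg (ψ 1) := by
    intro ψ
    rw [← dg_eq, ← dg_eq]
    simp only [Fin.prod_univ_succ, Fin.prod_univ_zero, par]
    simp [NA]
    ring
  have hcore : ∀ ψ : Fin 4 → Fin 3, ∏ z ∈ EC4, NA (Sym2.map ψ z) =
      mat (ψ 0) (ψ 1) * mat (ψ 1) (ψ 2) * mat (ψ 2) (ψ 3) * mat (ψ 3) (ψ 0) := by
    intro ψ
    rw [EC4, Finset.prod_insert (by decide), Finset.prod_insert (by decide),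
      Finset.prod_insert (by decide), Finset.prod_singleton]
    simp [NA, mul_assoc]
  simp_rw [hstar, hcore]
  rw [sum_fin_succ]
  refine Finset.sum_congr rfl fun a _ => ?_
  rw [sum_fin_succ]
  refine Finset.sum_congr rfl fun b _ => ?_
  rw [sum_fin_succ]
  refine Finset.sum_congr rfl fun c _ => ?_
  rw [sum_fin_succ]
  refine Finset.sum_congr rfl fun d _ => ?_
  rw [Fintype.sum_unique]
  rfl

theorem ZH_nat : (∑ ψ : Fin 8 → Fin 3, (∏ z ∈ EC8, NA (Sym2.map ψ z)) *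
      ∏ l : Fin 10 × Bool, ∑ j : Fin 3, NA s(j, ψ (par8 l))) =
    ∑ a : Fin 3, ∑ b : Fin 3, ∑ c : Fin 3, ∑ d : Fin 3, ∑ a' : Fin 3, ∑ b' : Fin 3,
      ∑ c' : Fin 3, ∑ d' : Fin 3,
      (mat a b * mat b c * mat c d * mat d a' * mat a' b' * mat b' c' * mat c' d' * mat d' a) *
        (dg a * dg b * dg a' * dg b') := by
  have hstar : ∀ ψ : Fin 8 → Fin 3, ∏ l : Fin 10 × Bool, ∑ j : Fin 3, NA s(j, ψ (par8 l)) =
      dg (ψ 0) * dg (ψ 1) * dg (ψ 4) * dg (ψ 5) := by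
    intro ψ
    rw [← dg_eq, ← dg_eq, ← dg_eq, ← dg_eq]
    rw [Fintype.prod_prod_type]
    simp only [Fin.prod_univ_succ, Fin.prod_univ_zero, par8_eq, Fintype.prod_bool]
    simp [NA]
    ring
  have hcore : ∀ ψ : Fin 8 → Fin 3, ∏ z ∈ EC8, NA (Sym2.map ψ z) =
      mat (ψ 0) (ψ 1) * mat (ψ 1) (ψ 2) * mat (ψ 2) (ψ 3) * mat (ψ 3) (ψ 4) * mat (ψ 4) (ψ 5) *
        mat (ψ 5) (ψ 6) * mat (ψ 6) (ψ 7) * mat (ψ 7) (ψ 0) := by
    intro ψ
    rw [EC8, Finset.prod_insert (by decide), Finset.prod_insert (by decide),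
      Finset.prod_insert (by decide), Finset.prod_insert (by decide),
      Finset.prod_insert (by decide), Finset.prod_insert (by decide),
      Finset.prod_insert (by decide), Finset.prod_singleton]
    simp [NA, mul_assoc]
  simp_rw [hstar, hcore]
  rw [sum_fin_succ]
  refine Finset.sum_congr rfl fun a _ => ?_
  rw [sum_fin_succ]
  refine Finset.sum_congr rfl fun b _ => ?_
  rw [sum_fin_succ]
  refine Finset.sum_congr rfl fun c _ => ?_
  rw [sum_fin_succ]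
  refine Finset.sum_congr rfl fun d _ => ?_
  rw [sum_fin_succ]
  refine Finset.sum_congr rfl fun a' _ => ?_
  rw [sum_fin_succ]
  refine Finset.sum_congr rfl fun b' _ => ?_
  rw [sum_fin_succ]
  refine Finset.sum_congr rfl fun c' _ => ?_
  rw [sum_fin_succ]
  refine Finset.sum_congr rfl fun d' _ => ?_
  rw [Fintype.sum_unique]
  rfl

theorem ZG_val : (∑ a : Fin 3, ∑ b : Fin 3, ∑ c : Fin 3, ∑ d : Fin 3,
      (mat a b * mat b c * mat c d * mat d a) * (dg a * dg b)) = 58918383612 := by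
  decide +kernel

theorem ZH_val : (∑ a : Fin 3, ∑ b : Fin 3, ∑ c : Fin 3, ∑ d : Fin 3, ∑ a' : Fin 3, ∑ b' : Fin 3,
      ∑ c' : Fin 3, ∑ d' : Fin 3,
      (mat a b * mat b c * mat c d * mat d a' * mat a' b' * mat b' c' * mat c' d' * mat d' a) *
        (dg a * dg b * dg a' * dg b')) = 3471554079483529797648 := by
  decide +kernel

end Pool.Agent.H445R3
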