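import Mathlib

set_option autoImplicit false

open Polynomial

namespace Pool.Agent.H445R3.PK

/-- Rooted trees built by grafting: graft p c attaches the root of c as a new child of the root of p. -/
inductive RT : Type
  | leaf : RT
  | graft : RT → RT → RT

/-- number of edges -/
def RT.e : RT → ℕ
  | .leaf => 0
  | .graft p c => RT.e p + RT.e c + 1

structure Dat where
  a : ℝ[X]
  b : ℝ[X]
  x : ℝ[X]
  z : ℝ[X]
  h : ℝ[X]

noncomputable def Dat.u (d : Dat) : ℝ[X] := d.b + X * d.a
noncomputable def Dat.zt (d : Dat) : ℝ[X] := d.b + 2 * X * d.x + d.h + X * d.z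

noncomputable def gr (p c : Dat) : Dat where
  a := p.a * c.u
  b := p.b * c.u + X * p.a * c.b
  x := p.x * c.u + p.a * (c.b + X * c.x)
  z := p.z * c.u + p.a * c.zt
  h := c.u * p.h + X * p.a * c.h + p.b * c.zt + X * p.z * c.b - 2 * X * p.x * c.b
        - 2 * X ^ 2 * p.x * c.x

noncomputable def dat : RT → Dat
  | .leaf => ⟨1, 1, 0, 0, 0⟩
  | .graft p c => gr (dat p) (dat c)

noncomputable def ww : RT → ℝ[X]
  | .leaf => 0
  | .graft p c => ww p * (dat c).u + (dat p).a * (dat c).b

noncomputable def SS (t : RT) : ℝ[X] := (dat t).h + X * (dat t).z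

noncomputable def QQ : RT → ℝ[X]
  | .leaf => 0
  | .graft p c => (dat c).u * QQ p + (dat p).a * SS c

theorem b_eq (t : RT) : (dat t).b = (dat t).a + X * ww t := by
  induction t with
  | leaf => simp [dat, ww]
  | graft p c ihp ihc =>
    simp only [dat, gr, ww, Dat.u] at *
    rw [ihp]; ring

theorem inv_eq (t : RT) : (dat t).a * (dat t).h = (dat t).z * (dat t).b - X * (dat t).x ^ 2 := by
  induction t with
  | leaf => simp [dat]
  | graft p c ihp ihc =>
    simp only [dat, gr, Dat.u, Dat.zt] at *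
    linear_combination ((dat c).b + X * (dat c).a) ^ 2 * ihp + ((dat p).a ^ 2 * X ^ 2) * ihc

theorem Q_eq (t : RT) : (dat t).b + X * (dat t).z - 2 * X * (dat t).x = (dat t).a + X * QQ t := by
  induction t with
  | leaf => simp [dat, QQ]
  | graft p c ihp ihc =>
    simp only [dat, gr, Dat.u, Dat.zt, QQ, SS] at *
    linear_combination ((dat c).b + X * (dat c).a) * ihp

noncomputable def Psi (p c : RT) : ℝ[X] :=
  ww p * (dat c).zt + (dat p).z * (dat c).b - 2 * (dat p).x * ((dat c).b + X * (dat c).x)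
noncomputable def Om (p q : RT) : ℝ[X] :=
  (dat p).z * ww q + (dat q).z * ww p - 2 * (dat p).x * (dat q).x
noncomputable def Th (p q : RT) : ℝ[X] :=
  (dat p).h * (dat q).b + (dat q).h * (dat p).b
    + X * ((dat p).z * (dat q).b + (dat q).z * (dat p).b - 2 * X * (dat p).x * (dat q).x)

theorem Th_eq (p q : RT) : Th p q = (dat q).a * SS p + (dat p).a * SS q
    + X * ((dat p).h * ww q + (dat q).h * ww p) + X ^ 2 * Om p q := by
  unfold Th SS Om
  rw [b_eq p, b_eq q]; ring

theorem Om_graft (p c q : RT) : Om (.graft p c) q = (dat c).u * Om p q + (dat p).a * Psi q c := by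
  simp only [Om, Psi, dat, gr, ww, Dat.u, Dat.zt]; ring

theorem Psi_graft (p d c : RT) : Psi (.graft p d) c = (dat d).u * Psi p c + (dat p).a * Th d c := by
  simp only [Th, Psi, dat, gr, ww, Dat.u, Dat.zt]; ring

theorem h_graft (p c : RT) : (dat (.graft p c)).h = (dat c).u * (dat p).h
    + (dat p).a * (SS c + X * (dat c).h + (dat c).b + 2 * X * (dat c).x) + X * Psi p c := by
  simp only [Psi, dat, gr, SS, Dat.u, Dat.zt]
  rw [b_eq p]; ring

theorem S_graft (p c : RT) : SS (.graft p c) = (dat c).u * SS p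
    + (dat p).a * ((1 + X) * (SS c + (dat c).b) + X * (dat c).h + 2 * X * (1 + X) * (dat c).x)
    + X * Psi p c := by
  have := h_graft p c
  unfold SS at *
  rw [this]
  simp only [dat, gr, Dat.u, Dat.zt]
  ring

/-- the tree polynomial -/
noncomputable def PP (t : RT) : ℝ[X] := (dat t).h + 4 * X * (dat t).x - 4 * X * (dat t).a

theorem PP_symm (p c : RT) : PP (.graft p c) = PP (.graft c p) := by
  simp only [PP, dat, gr, Dat.u, Dat.zt]; ring

theorem dat_swap (p c d : RT) : dat (.graft (.graft p c) d) = dat (.graft (.graft p d) c) := by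
  simp only [dat, gr, Dat.u, Dat.zt, Dat.mk.injEq]
  refine ⟨by ring, by ring, by ring, by ring, by ring⟩

theorem PP_leaf (t : RT) : PP (.graft t .leaf) = (1 + X) * PP t + (1 + 4 * X) * (dat t).a + X * QQ t := by
  have h := Q_eq t
  simp only [PP, dat, gr, Dat.u, Dat.zt] at *
  linear_combination h

/-- every tree is, up to the polynomial, obtained by attaching a leaf at the root -/
theorem exists_leaf (n : ℕ) : ∀ (c p : RT), c.e ≤ n → ∃ t : RT, t.e + 1 = (RT.graft p c).e ∧
    PP (.graft p c) = PP (.graft t .leaf) := by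
  induction n with
  | zero =>
    intro c p hc
    cases c with
    | leaf => exact ⟨p, by simp [RT.e], rfl⟩
    | graft q d => simp [RT.e] at hc
  | succ n ih =>
    intro c p hc
    cases c with
    | leaf => exact ⟨p, by simp [RT.e], rfl⟩
    | graft q d =>
      obtain ⟨t, ht, hP⟩ := ih d (.graft q p) (by simp [RT.e] at hc; omega)
      refine ⟨t, by simp [RT.e] at *; omega, ?_⟩
      rw [← hP, PP_symm]
      unfold PP
      rw [dat_swap]

/-! ### the cone -/

noncomputable def Cn (t : ℤ) : AddSubmonoid ℝ[X] :=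
  AddSubmonoid.closure {f | ∃ i j : ℕ, t ≤ 2 * i + j ∧ f = X ^ i * (1 + X) ^ j}

theorem Cn_mono {s t : ℤ} (h : s ≤ t) {f : ℝ[X]} (hf : f ∈ Cn t) : f ∈ Cn s := by
  refine AddSubmonoid.closure_mono ?_ hf
  rintro g ⟨i, j, hij, rfl⟩
  exact ⟨i, j, by omega, rfl⟩

theorem Cn_mul' {s t : ℤ} {f g : ℝ[X]} (hf : f ∈ Cn s) (hg : g ∈ Cn t) : f * g ∈ Cn (s + t) := by
  unfold Cn at hf
  induction hf using AddSubmonoid.closure_induction with
  | mem x hx =>
    obtain ⟨i, j, hij, rfl⟩ := hx
    unfold Cn at hg
    induction hg using AddSubmonoid.closure_induction with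
    | mem y hy =>
      obtain ⟨k, l, hkl, rfl⟩ := hy
      refine AddSubmonoid.subset_closure ⟨i + k, j + l, by push_cast; omega, by ring⟩
    | zero => simp
    | add y z _ _ h1 h2 => rw [mul_add]; exact add_mem h1 h2
  | zero => simp
  | add x y _ _ h1 h2 => rw [add_mul]; exact add_mem h1 h2

theorem Cn_mul {s t r : ℤ} {f g : ℝ[X]} (hf : f ∈ Cn s) (hg : g ∈ Cn t) (h : r ≤ s + t) :
    f * g ∈ Cn r := Cn_mono h (Cn_mul' hf hg)

theorem X_mem : (X : ℝ[X]) ∈ Cn 2 := AddSubmonoid.subset_closure ⟨1, 0, by norm_num, by simp⟩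
theorem oX_mem : (1 + X : ℝ[X]) ∈ Cn 1 := AddSubmonoid.subset_closure ⟨0, 1, by norm_num, by simp⟩
theorem one_mem0 : (1 : ℝ[X]) ∈ Cn 0 := AddSubmonoid.subset_closure ⟨0, 0, by norm_num, by simp⟩
theorem oXpow_mem (n : ℕ) : ((1 + X) ^ n : ℝ[X]) ∈ Cn n :=
  AddSubmonoid.subset_closure ⟨0, n, by norm_num, by simp⟩
theorem X_mul {s r : ℤ} {f : ℝ[X]} (hf : f ∈ Cn s) (h : r ≤ s + 2) : X * f ∈ Cn r :=
  Cn_mul X_mem hf (by omega)
theorem two_mul' {s : ℤ} {f : ℝ[X]} (hf : f ∈ Cn s) : 2 * f ∈ Cn s := by
  rw [two_mul]; exact add_mem hf hf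

theorem basic (t : RT) : (dat t).a ∈ Cn t.e ∧ ww t ∈ Cn (t.e - 1) ∧ (dat t).x ∈ Cn (t.e - 1) ∧
    (dat t).a - (1 + X) ^ t.e ∈ Cn t.e := by
  induction t with
  | leaf =>
    refine ⟨?_, ?_, ?_, ?_⟩
    · simpa [dat, RT.e] using one_mem0
    · simp [ww]
    · simp [dat]
    · simp [dat, RT.e]
  | graft p c ihp ihc =>
    obtain ⟨pa, pw, px, pd⟩ := ihp
    obtain ⟨ca, cw, cx, cd⟩ := ihc
    have cb : (dat c).b ∈ Cn c.e := by
      rw [b_eq]; exact add_mem ca (X_mul cw (by omega))
    have cu : (dat c).u ∈ Cn (c.e + 1) := by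
      have : (dat c).u = (1 + X) * (dat c).a + X * ww c := by
        simp only [Dat.u]; rw [b_eq]; ring
      rw [this]
      exact add_mem (Cn_mul oX_mem ca (by omega)) (X_mul cw (by omega))
    have cud : (dat c).u - (1 + X) ^ (c.e + 1) ∈ Cn (c.e + 1) := by
      have : (dat c).u - (1 + X) ^ (c.e + 1) = (1 + X) * ((dat c).a - (1 + X) ^ c.e) + X * ww c := by
        simp only [Dat.u]; rw [b_eq]; ring
      rw [this]
      exact add_mem (Cn_mul oX_mem cd (by omega)) (X_mul cw (by omega))
    refine ⟨?_, ?_, ?_, ?_⟩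
    · simp only [dat, gr, RT.e]
      exact Cn_mul pa cu (by push_cast; omega)
    · simp only [ww, RT.e]
      exact add_mem (Cn_mul pw cu (by push_cast; omega)) (Cn_mul pa cb (by push_cast; omega))
    · simp only [dat, gr, RT.e]
      exact add_mem (Cn_mul px cu (by push_cast; omega))
        (Cn_mul pa (add_mem cb (X_mul cx (by omega))) (by push_cast; omega))
    · have : (dat (.graft p c)).a - (1 + X) ^ (RT.graft p c).e
          = ((dat p).a - (1 + X) ^ p.e) * (dat c).u
            + (1 + X) ^ p.e * ((dat c).u - (1 + X) ^ (c.e + 1)) := by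
        simp only [dat, gr, RT.e]; ring
      rw [this]
      simp only [RT.e]
      exact add_mem (Cn_mul pd cu (by push_cast; omega))
        (Cn_mul (oXpow_mem _) cud (by push_cast; omega))

theorem b_mem (t : RT) : (dat t).b ∈ Cn t.e := by
  obtain ⟨pa, pw, px, pd⟩ := basic t
  rw [b_eq]; exact add_mem pa (X_mul pw (by omega))

theorem u_mem (t : RT) : (dat t).u ∈ Cn (t.e + 1) := by
  obtain ⟨pa, pw, px, pd⟩ := basic t
  have : (dat t).u = (1 + X) * (dat t).a + X * ww t := by
    simp only [Dat.u]; rw [b_eq]; ring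
  rw [this]
  exact add_mem (Cn_mul oX_mem pa (by omega)) (X_mul pw (by omega))

def AA (t : RT) : Prop := (dat t).h ∈ Cn (t.e - 1) ∧ SS t ∈ Cn t.e
def BB (p q : RT) : Prop := Psi p q ∈ Cn (p.e + q.e - 1) ∧ Om p q ∈ Cn (p.e + q.e - 2) ∧
  Th p q ∈ Cn (p.e + q.e)

theorem main_cone (N : ℕ) : (∀ t : RT, t.e ≤ N → AA t) ∧ (∀ p q : RT, p.e + q.e + 1 ≤ N → BB p q) := by
  induction N with
  | zero =>
    refine ⟨?_, fun p q h => by omega⟩
    intro t ht
    cases t with
    | leaf => simp [AA, SS, dat]
    | graft p c => simp [RT.e] at ht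
  | succ N ih =>
    obtain ⟨ihA, ihB⟩ := ih
    have hB : ∀ p q : RT, p.e + q.e + 1 ≤ N + 1 → BB p q := by
      intro p q hpq
      have hPsi : Psi p q ∈ Cn (p.e + q.e - 1) := by
        cases p with
        | leaf => simp [Psi, ww, dat]
        | graft p d =>
          rw [Psi_graft]
          simp only [RT.e] at hpq ⊢
          refine add_mem (Cn_mul (u_mem d) (ihB p q (by omega)).1 (by push_cast; omega))
            (Cn_mul (basic p).1 (ihB d q (by omega)).2.2 (by push_cast; omega))
      have hOm : Om p q ∈ Cn (p.e + q.e - 2) := by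
        cases p with
        | leaf => simp [Om, ww, dat]
        | graft p c =>
          rw [Om_graft]
          simp only [RT.e] at hpq ⊢
          refine add_mem (Cn_mul (u_mem c) (ihB p q (by omega)).2.1 (by push_cast; omega))
            (Cn_mul (basic p).1 (ihB q c (by omega)).1 (by push_cast; omega))
      refine ⟨hPsi, hOm, ?_⟩
      rw [Th_eq]
      have hp := ihA p (by omega)
      have hq := ihA q (by omega)
      refine add_mem (add_mem (add_mem ?_ ?_) ?_) ?_
      · exact Cn_mul (basic q).1 hp.2 (by omega)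
      · exact Cn_mul (basic p).1 hq.2 (by omega)
      · refine X_mul (s := p.e + q.e - 2) (add_mem ?_ ?_) (by omega)
        · exact Cn_mul hp.1 (basic q).2.1 (by omega)
        · exact Cn_mul hq.1 (basic p).2.1 (by omega)
      · rw [pow_two, mul_assoc]
        exact X_mul (X_mul hOm le_rfl) (by omega)
    refine ⟨?_, hB⟩
    intro t ht
    cases t with
    | leaf => simp [AA, SS, dat]
    | graft p c =>
      simp only [RT.e] at ht
      have hp := ihA p (by omega)
      have hc := ihA c (by omega)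
      have hpc := hB p c (by omega)
      constructor
      · rw [h_graft]
        simp only [RT.e]
        refine add_mem (add_mem ?_ ?_) ?_
        · exact Cn_mul (u_mem c) hp.1 (by push_cast; omega)
        · refine Cn_mul (t := c.e) (basic p).1 ?_ (by push_cast; omega)
          refine add_mem (add_mem (add_mem hc.2 ?_) (b_mem c)) ?_
          · exact X_mul hc.1 (by omega)
          · rw [mul_assoc]; exact two_mul' (X_mul (basic c).2.2.1 (by omega))
        · exact X_mul hpc.1 (by push_cast; omega)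
      · rw [S_graft]
        simp only [RT.e]
        refine add_mem (add_mem ?_ ?_) ?_
        · exact Cn_mul (u_mem c) hp.2 (by push_cast; omega)
        · refine Cn_mul (t := c.e + 1) (basic p).1 ?_ (by push_cast; omega)
          refine add_mem (add_mem ?_ ?_) ?_
          · exact Cn_mul oX_mem (add_mem hc.2 (b_mem c)) (by omega)
          · exact X_mul hc.1 (by omega)
          · have : 2 * X * (1 + X) * (dat c).x = 2 * (X * ((1 + X) * (dat c).x)) := by ring
            rw [this]
            exact two_mul' (X_mul (Cn_mul oX_mem (basic c).2.2.1 le_rfl) (by omega))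
        · exact X_mul hpc.1 (by push_cast; omega)

theorem QQ_mem (t : RT) : QQ t ∈ Cn (t.e - 1) := by
  induction t with
  | leaf => simp [QQ]
  | graft p c ihp ihc =>
    simp only [QQ, RT.e]
    refine add_mem (Cn_mul (u_mem c) ihp (by push_cast; omega))
      (Cn_mul (basic p).1 ((main_cone c.e).1 c le_rfl).2 (by push_cast; omega))

/-- star polynomial, with n+2 vertices -/
noncomputable def Pstar (n : ℕ) : ℝ[X] :=
  (1 + X) ^ n * (((n : ℝ[X]) + 1) + 4 * (n : ℝ[X]) * X - 4 * X ^ 2)

theorem PP_sub_star (n : ℕ) : ∀ t : RT, t.e = n + 1 → PP t - Pstar n ∈ Cn (n + 1) := by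
  induction n with
  | zero =>
    intro t ht
    have : PP t = Pstar 0 := by
      cases t with
      | leaf => simp [RT.e] at ht
      | graft p c =>
        cases p with
        | graft p q => simp [RT.e] at ht
        | leaf =>
          cases c with
          | graft p q => simp [RT.e] at ht
          | leaf => simp [PP, Pstar, dat, gr, Dat.u, Dat.zt]; ring
    rw [this]; simp
  | succ n ih =>
    intro t ht
    cases t with
    | leaf => simp [RT.e] at ht
    | graft p c =>
      obtain ⟨t, h1, h2⟩ := exists_leaf c.e c p le_rfl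
      rw [h2, PP_leaf]
      have hte : t.e = n + 1 := by omega
      have h3 := ih t hte
      have : (1 + X) * PP t + (1 + 4 * X) * (dat t).a + X * QQ t - Pstar (n + 1)
          = (1 + X) * (PP t - Pstar n) + ((1 + X) + (X + 2 * X)) * ((dat t).a - (1 + X) ^ (n + 1))
            + X * QQ t := by
        simp only [Pstar]; push_cast; ring
      rw [this]
      have h4 := (basic t).2.2.2
      rw [hte] at h4
      refine add_mem (add_mem ?_ ?_) ?_
      · exact Cn_mul oX_mem h3 (by push_cast; omega)
      · refine Cn_mul (s := 1) (add_mem oX_mem ?_) h4 (by push_cast; omega)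
        exact Cn_mono (by norm_num) (add_mem X_mem (two_mul' X_mem))
      · exact X_mul (QQ_mem t) (by rw [hte]; push_cast; omega)

end Pool.Agent.H445R3.PK
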