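import Pool.Agent.H445R3.PK1

set_option autoImplicit false
set_option linter.unusedSimpArgs false

open Polynomial

namespace Pool.Agent.H445R3.PK

/-- linear-algebra data of a rooted tree (distances D, Laplacian L, tau = 2 - deg). -/
structure TD {V : Type} [Fintype V] [DecidableEq V] (D : V → V → ℝ) (r : V) (L : V → V → ℝ)
    (τ : V → ℝ) (t : RT) : Prop where
  dsymm : ∀ u v, D u v = D v u
  dzero : ∀ v, D v v = 0
  lsymm : ∀ u v, L u v = L v u
  psd : ∀ x : V → ℝ, 0 ≤ ∑ u, ∑ v, x u * L u v * x v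
  l1 : ∀ u, ∑ v, L u v = 0
  tau2 : ∑ v, τ v = 2
  ld : ∀ u v, ∑ w, L u w * D w v = (if u = v then -2 else 0) + τ u
  dtau : ∀ u, ∑ v, D u v * τ v = t.e
  card : Fintype.card V = t.e + 1
  sol : ∀ y : ℝ, 0 < y → ∃ f h : V → ℝ,
     (∀ u, f u + y * ∑ v, L u v * f v = if u = r then 1 else 0) ∧
     (∀ u, h u + y * ∑ v, L u v * h v = τ u) ∧
     (1 + y • (Matrix.of L)).det = (dat t).b.eval y ∧
     (dat t).b.eval y * f r = (dat t).a.eval y ∧
     (dat t).b.eval y * h r = 2 * (dat t).a.eval y - (dat t).x.eval y ∧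
     (∑ v, τ v * f v = h r) ∧
     y * (dat t).b.eval y * ∑ v, τ v * h v = t.e * (dat t).b.eval y - (PP t).eval y ∧
     0 < (dat t).a.eval y ∧ 0 < (dat t).b.eval y

theorem TD_leaf : TD (V := Unit) (fun _ _ => 0) () (fun _ _ => 0) (fun _ => 2) .leaf where
  dsymm := by simp
  dzero := by simp
  lsymm := by simp
  psd := by simp
  l1 := by simp
  tau2 := by simp
  ld := by simp
  dtau := by simp [RT.e]
  card := by simp [RT.e]
  sol := by
    intro y hy
    refine ⟨fun _ => 1, fun _ => 2, ?_, ?_, ?_, ?_, ?_, ?_, ?_, ?_, ?_⟩ <;>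
      simp [dat, PP, RT.e]
    ring

section graft
variable {V W : Type} [Fintype V] [DecidableEq V] [Fintype W] [DecidableEq W]

def gD (D1 : V → V → ℝ) (D2 : W → W → ℝ) (r1 : V) (r2 : W) : V ⊕ W → V ⊕ W → ℝ
  | .inl u, .inl v => D1 u v
  | .inl u, .inr v => D1 u r1 + 1 + D2 r2 v
  | .inr u, .inl v => D2 u r2 + 1 + D1 r1 v
  | .inr u, .inr v => D2 u v

def ii (r v : V) : ℝ := if v = r then 1 else 0

omit [Fintype V] in
theorem ii_eq (r : V) : ii r r = 1 := by simp [ii]

theorem sum_ii (r : V) (g : V → ℝ) : ∑ v, ii r v * g v = g r := by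
  simp [ii]
theorem sum_ii' (r : V) (g : V → ℝ) : ∑ v, g v * ii r v = g r := by
  simp [ii]
theorem sum_ii1 (r : V) : ∑ v, ii r v = 1 := by
  simp [ii]

def gL (L1 : V → V → ℝ) (L2 : W → W → ℝ) (r1 : V) (r2 : W) : V ⊕ W → V ⊕ W → ℝ
  | .inl u, .inl v => L1 u v + ii r1 u * ii r1 v
  | .inl u, .inr v => - (ii r1 u * ii r2 v)
  | .inr u, .inl v => - (ii r2 u * ii r1 v)
  | .inr u, .inr v => L2 u v + ii r2 u * ii r2 v

def gτ (τ1 : V → ℝ) (τ2 : W → ℝ) (r1 : V) (r2 : W) : V ⊕ W → ℝ
  | .inl u => τ1 u - ii r1 u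
  | .inr u => τ2 u - ii r2 u

theorem gL_apply {L1 : V → V → ℝ} {L2 : W → W → ℝ} {r1 : V} {r2 : W}
    (f1 : V → ℝ) (f2 : W → ℝ) (g : V ⊕ W → ℝ) (hg1 : ∀ v, g (.inl v) = f1 v)
    (hg2 : ∀ v, g (.inr v) = f2 v) :
    (∀ u, ∑ v, gL L1 L2 r1 r2 (.inl u) v * g v = ∑ v, L1 u v * f1 v + ii r1 u * (f1 r1 - f2 r2)) ∧
    (∀ u, ∑ v, gL L1 L2 r1 r2 (.inr u) v * g v = ∑ v, L2 u v * f2 v - ii r2 u * (f1 r1 - f2 r2)) := by
  constructor
  · intro u
    simp only [Fintype.sum_sum_type, gL, hg1, hg2, add_mul, Finset.sum_add_distrib, neg_mul,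
      Finset.sum_neg_distrib, mul_assoc, ← Finset.mul_sum, sum_ii]
    ring
  · intro u
    simp only [Fintype.sum_sum_type, gL, hg1, hg2, add_mul, Finset.sum_add_distrib, neg_mul,
      Finset.sum_neg_distrib, mul_assoc, ← Finset.mul_sum, sum_ii]
    ring

theorem det_graft {L1 : V → V → ℝ} {L2 : W → W → ℝ} {r1 : V} {r2 : W} (y : ℝ)
    (f1 : V → ℝ) (f2 : W → ℝ)
    (h1 : ∀ u, f1 u + y * ∑ v, L1 u v * f1 v = if u = r1 then 1 else 0)
    (h2 : ∀ u, f2 u + y * ∑ v, L2 u v * f2 v = if u = r2 then 1 else 0) :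
    (1 + y • (Matrix.of (gL L1 L2 r1 r2))).det
      = (1 + y • (Matrix.of L1)).det * (1 + y • (Matrix.of L2)).det * (1 + y * (f1 r1 + f2 r2)) := by
  set M1 : Matrix V V ℝ := 1 + y • (Matrix.of L1) with hM1
  set M2 : Matrix W W ℝ := 1 + y • (Matrix.of L2) with hM2
  set z : V ⊕ W → ℝ := Sum.elim (ii r1) (fun w => - ii r2 w) with hz
  set w : V ⊕ W → ℝ := Sum.elim f1 (fun v => - f2 v) with hw
  have e1 : (1 + y • (Matrix.of (gL L1 L2 r1 r2)))
      = Matrix.fromBlocks M1 0 0 M2 * (1 + Matrix.replicateCol Unit w * Matrix.replicateRow Unit (y • z)) := by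
    have key : ∀ u, ((Matrix.fromBlocks M1 0 0 M2).mulVec w) u = z u := by
      intro u
      rw [Matrix.fromBlocks_mulVec]
      cases u with
      | inl u =>
        have := h1 u
        simp only [hw, Sum.elim_inl, Sum.elim_inr, Sum.elim_comp_inl, Sum.elim_comp_inr,
          Matrix.zero_mulVec, add_zero, hz, hM1, Matrix.add_mulVec, Matrix.one_mulVec,
          Matrix.smul_mulVec, Pi.add_apply, Pi.smul_apply, smul_eq_mul, Matrix.mulVec, dotProduct,
          Matrix.of_apply, Pi.zero_apply]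
        rw [this]; rfl
      | inr u =>
        have := h2 u
        simp only [hw, Sum.elim_inl, Sum.elim_inr, Sum.elim_comp_inl, Sum.elim_comp_inr,
          Matrix.zero_mulVec, add_zero, hz, hM2, Matrix.add_mulVec, Matrix.one_mulVec,
          Matrix.smul_mulVec, Pi.add_apply, Pi.smul_apply, smul_eq_mul, Matrix.mulVec, dotProduct,
          Matrix.of_apply, Pi.zero_apply, mul_neg, Finset.sum_neg_distrib, zero_add]
        rw [← neg_add, this]; rfl
    rw [mul_add, mul_one, ← Matrix.mul_assoc]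
    have e2 : Matrix.fromBlocks M1 0 0 M2 * Matrix.replicateCol Unit w * Matrix.replicateRow Unit (y • z)
        = Matrix.of (fun u v => z u * (y * z v)) := by
      ext u v
      rw [Matrix.mul_apply]
      simp only [Finset.univ_unique, Finset.sum_singleton, Matrix.replicateRow_apply, Pi.smul_apply,
        smul_eq_mul, Matrix.of_apply]
      congr 1
      exact key u
    rw [e2]
    ext u v
    rcases u with u | u <;> rcases v with v | v <;>
      simp [hz, hM1, hM2, gL, Matrix.one_apply] <;> ring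
  rw [e1, Matrix.det_mul, Matrix.det_fromBlocks_zero₂₁, Matrix.det_one_add_replicateCol_mul_replicateRow]
  congr 1
  simp only [dotProduct, Fintype.sum_sum_type, hz, hw, Pi.smul_apply, smul_eq_mul, Sum.elim_inl,
    Sum.elim_inr, mul_assoc, ← Finset.mul_sum, sum_ii]
  simp only [neg_mul, mul_neg, neg_neg, sum_ii]
  try ring

theorem inv_eval (t : RT) (y : ℝ) : (dat t).z.eval y * (dat t).b.eval y
    = (dat t).a.eval y * (dat t).h.eval y + y * (dat t).x.eval y ^ 2 := by
  have := congrArg (Polynomial.eval y) (inv_eq t)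
  simp at this
  linarith

theorem TD_graft {D1 : V → V → ℝ} {r1 : V} {L1 : V → V → ℝ} {τ1 : V → ℝ} {p : RT}
    {D2 : W → W → ℝ} {r2 : W} {L2 : W → W → ℝ} {τ2 : W → ℝ} {c : RT}
    (A : TD D1 r1 L1 τ1 p) (B : TD D2 r2 L2 τ2 c) :
    TD (gD D1 D2 r1 r2) (Sum.inl r1) (gL L1 L2 r1 r2) (gτ τ1 τ2 r1 r2) (.graft p c) where
  dsymm := by
    rintro (u | u) (v | v)
    · exact A.dsymm u v
    · simp only [gD]; rw [A.dsymm u r1, B.dsymm r2 v]; ring
    · simp only [gD]; rw [A.dsymm r1 v, B.dsymm u r2]; ring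
    · exact B.dsymm u v
  dzero := by
    rintro (u | u)
    · exact A.dzero u
    · exact B.dzero u
  lsymm := by
    rintro (u | u) (v | v) <;> simp only [gL]
    · rw [A.lsymm u v]; ring
    · ring
    · ring
    · rw [B.lsymm u v]; ring
  psd := by
    intro x
    have h := gL_apply (L1 := L1) (L2 := L2) (r1 := r1) (r2 := r2) (fun v => x (.inl v))
      (fun v => x (.inr v)) x (fun _ => rfl) (fun _ => rfl)
    have h1 := A.psd (fun v => x (.inl v))
    have h2 := B.psd (fun v => x (.inr v))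
    simp only [mul_assoc, ← Finset.mul_sum] at h1 h2 ⊢
    rw [Fintype.sum_sum_type]
    simp only [h.1, h.2, mul_add, mul_sub, Finset.sum_add_distrib, Finset.sum_sub_distrib]
    have e1 : ∀ cc : ℝ, ∑ u, x (Sum.inl u) * (ii r1 u * cc) = x (.inl r1) * cc := by
      intro cc
      have := sum_ii r1 (fun v => x (.inl v) * cc)
      rw [← this]; exact Finset.sum_congr rfl (fun _ _ => by ring)
    have e2 : ∀ cc : ℝ, ∑ u, x (Sum.inr u) * (ii r2 u * cc) = x (.inr r2) * cc := by
      intro cc
      have := sum_ii r2 (fun v => x (.inr v) * cc)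
      rw [← this]; exact Finset.sum_congr rfl (fun _ _ => by ring)
    rw [e1, e1, e2, e2]
    nlinarith [sq_nonneg (x (.inl r1) - x (.inr r2))]
  l1 := by
    have h := gL_apply (L1 := L1) (L2 := L2) (r1 := r1) (r2 := r2) (fun _ => 1)
      (fun _ => 1) (fun _ => 1) (fun _ => rfl) (fun _ => rfl)
    simp only [mul_one, sub_self, mul_zero, add_zero, sub_zero] at h
    rintro (u | u)
    · rw [h.1, A.l1]
    · rw [h.2, B.l1]
  tau2 := by
    rw [Fintype.sum_sum_type]
    simp only [gτ, Finset.sum_sub_distrib, A.tau2, B.tau2, sum_ii1]; norm_num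
  ld := by
    rintro u (v | v)
    · have h := gL_apply (L1 := L1) (L2 := L2) (r1 := r1) (r2 := r2) (fun w => D1 w v)
        (fun w => D2 w r2 + 1 + D1 r1 v) (fun w => gD D1 D2 r1 r2 w (.inl v)) (fun _ => rfl) (fun _ => rfl)
      rcases u with u | u
      · rw [h.1, A.ld, B.dzero]
        simp only [gτ, Sum.inl.injEq]
        ring
      · rw [h.2]
        simp only [mul_add, Finset.sum_add_distrib, ← Finset.sum_mul, B.ld, B.l1, B.dzero, gτ,
          reduceCtorEq, if_false, ii]
        split_ifs <;> ring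
    · have h := gL_apply (L1 := L1) (L2 := L2) (r1 := r1) (r2 := r2) (fun w => D1 w r1 + 1 + D2 r2 v)
        (fun w => D2 w v) (fun w => gD D1 D2 r1 r2 w (.inr v)) (fun _ => rfl) (fun _ => rfl)
      rcases u with u | u
      · rw [h.1]
        simp only [mul_add, Finset.sum_add_distrib, ← Finset.sum_mul, A.ld, A.l1, A.dzero, gτ,
          reduceCtorEq, if_false, ii]
        split_ifs <;> ring
      · rw [h.2, B.ld, A.dzero]
        simp only [gτ, Sum.inr.injEq]
        ring
  dtau := by
    rintro (u | u)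
    · rw [Fintype.sum_sum_type]
      simp only [gτ, gD, mul_sub, add_mul, one_mul, Finset.sum_add_distrib, Finset.sum_sub_distrib,
        sum_ii', ← Finset.mul_sum, A.dtau, B.dtau, B.tau2, B.dzero, RT.e, sum_ii1]
      push_cast; ring
    · rw [Fintype.sum_sum_type]
      simp only [gτ, gD, mul_sub, add_mul, one_mul, Finset.sum_add_distrib, Finset.sum_sub_distrib,
        sum_ii', ← Finset.mul_sum, A.dtau, B.dtau, A.tau2, A.dzero, RT.e, sum_ii1]
      push_cast; ring
  card := by
    rw [Fintype.card_sum, A.card, B.card]; simp only [RT.e]; ring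
  sol := by
    intro y hy
    obtain ⟨f1, h1, hf1, hh1, hd1, hx1, ht1, htf1, hth1, ha1, hb1⟩ := A.sol y hy
    obtain ⟨f2, h2, hf2, hh2, hd2, hx2, ht2, htf2, hth2, ha2, hb2⟩ := B.sol y hy
    have i1 := inv_eval p y
    have i2 := inv_eval c y
    have x1 : f1 r1 = (dat p).a.eval y / (dat p).b.eval y := by
      field_simp; linarith
    have x2 : f2 r2 = (dat c).a.eval y / (dat c).b.eval y := by
      field_simp; linarith
    have t1 : h1 r1 = (2 * (dat p).a.eval y - (dat p).x.eval y) / (dat p).b.eval y := by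
      field_simp; linarith
    have t2 : h2 r2 = (2 * (dat c).a.eval y - (dat c).x.eval y) / (dat c).b.eval y := by
      field_simp; linarith
    have w1 : ∑ v, τ1 v * h1 v = (p.e * (dat p).b.eval y - (PP p).eval y) / (y * (dat p).b.eval y) := by
      field_simp; linarith
    have w2 : ∑ v, τ2 v * h2 v = (c.e * (dat c).b.eval y - (PP c).eval y) / (y * (dat c).b.eval y) := by
      field_simp; linarith
    have z1 : (dat p).z.eval y = ((dat p).a.eval y * (dat p).h.eval y + y * (dat p).x.eval y ^ 2)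
        / (dat p).b.eval y := by
      field_simp; linarith
    have z2 : (dat c).z.eval y = ((dat c).a.eval y * (dat c).h.eval y + y * (dat c).x.eval y ^ 2)
        / (dat c).b.eval y := by
      field_simp; linarith
    set s : ℝ := 1 + y * (f1 r1 + f2 r2) with hs
    have x1p : 0 < f1 r1 := by rw [x1]; positivity
    have x2p : 0 < f2 r2 := by rw [x2]; positivity
    have hsp : 0 < s := by positivity
    set al : ℝ := (1 + y * f2 r2) / s with hal
    set be : ℝ := y * f1 r1 / s with hbe
    set ga : ℝ := y * ((h1 r1 - f1 r1) - (h2 r2 - f2 r2)) / s with hga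
    have gb : (dat (.graft p c)).b.eval y = (dat p).b.eval y * (dat c).b.eval y * s := by
      rw [hs, x1, x2]
      simp only [dat, gr, Dat.u, eval_add, eval_mul, eval_X]
      field_simp
      ring
    refine ⟨Sum.elim (fun v => al * f1 v) (fun v => be * f2 v),
      Sum.elim (fun v => h1 v - f1 v - ga * f1 v) (fun v => h2 v - f2 v + ga * f2 v), ?_, ?_, ?_, ?_,
      ?_, ?_, ?_, ?_, ?_⟩
    · have h := gL_apply (L1 := L1) (L2 := L2) (r1 := r1) (r2 := r2) (fun v => al * f1 v)
        (fun v => be * f2 v) (Sum.elim (fun v => al * f1 v) (fun v => be * f2 v)) (fun _ => rfl)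
        (fun _ => rfl)
      rintro (u | u)
      · rw [h.1]
        have e : ∑ v, L1 u v * (al * f1 v) = al * ∑ v, L1 u v * f1 v := by
          rw [Finset.mul_sum]; exact Finset.sum_congr rfl (fun _ _ => by ring)
        rw [e]
        simp only [Sum.elim_inl, Sum.inl.injEq]
        have h3 := hf1 u
        have h4 : al * f1 u + y * (al * ∑ v, L1 u v * f1 v + ii r1 u * (al * f1 r1 - be * f2 r2))
            = al * (f1 u + y * ∑ v, L1 u v * f1 v) + ii r1 u * (y * (al * f1 r1 - be * f2 r2)) := by ring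
        rw [h4, h3]
        simp only [ii]
        split_ifs
        · rw [hal, hbe]; field_simp; rw [hs]; ring
        · ring
      · rw [h.2]
        have e : ∑ v, L2 u v * (be * f2 v) = be * ∑ v, L2 u v * f2 v := by
          rw [Finset.mul_sum]; exact Finset.sum_congr rfl (fun _ _ => by ring)
        rw [e]
        simp only [Sum.elim_inr, reduceCtorEq, if_false]
        have h3 := hf2 u
        have h4 : be * f2 u + y * (be * ∑ v, L2 u v * f2 v - ii r2 u * (al * f1 r1 - be * f2 r2))
            = be * (f2 u + y * ∑ v, L2 u v * f2 v) - ii r2 u * (y * (al * f1 r1 - be * f2 r2)) := by ring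
        rw [h4, h3]
        simp only [ii]
        split_ifs
        · rw [hal, hbe]; field_simp; rw [hs]; ring
        · ring
    · have h := gL_apply (L1 := L1) (L2 := L2) (r1 := r1) (r2 := r2) (fun v => h1 v - f1 v - ga * f1 v)
        (fun v => h2 v - f2 v + ga * f2 v) (Sum.elim (fun v => h1 v - f1 v - ga * f1 v)
          (fun v => h2 v - f2 v + ga * f2 v)) (fun _ => rfl)
        (fun _ => rfl)
      rintro (u | u)
      · rw [h.1]
        have e : ∑ v, L1 u v * (h1 v - f1 v - ga * f1 v)
            = ∑ v, L1 u v * h1 v - (1 + ga) * ∑ v, L1 u v * f1 v := by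
          rw [Finset.mul_sum, ← Finset.sum_sub_distrib]; exact Finset.sum_congr rfl (fun _ _ => by ring)
        rw [e]
        simp only [Sum.elim_inl, gτ]
        have h3 := hf1 u
        have h5 := hh1 u
        set S1 := ∑ v, L1 u v * f1 v
        set T1 := ∑ v, L1 u v * h1 v
        simp only [ii]
        split_ifs at h3 ⊢ with hu
        · have : ga * s = y * ((h1 r1 - f1 r1) - (h2 r2 - f2 r2)) := by rw [hga]; field_simp
          rw [hs] at this
          linear_combination h5 - (1 + ga) * h3 - this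
        · linear_combination h5 - (1 + ga) * h3
      · rw [h.2]
        have e : ∑ v, L2 u v * (h2 v - f2 v + ga * f2 v)
            = ∑ v, L2 u v * h2 v - (1 - ga) * ∑ v, L2 u v * f2 v := by
          rw [Finset.mul_sum, ← Finset.sum_sub_distrib]; exact Finset.sum_congr rfl (fun _ _ => by ring)
        rw [e]
        simp only [Sum.elim_inr, gτ]
        have h3 := hf2 u
        have h5 := hh2 u
        set S1 := ∑ v, L2 u v * f2 v
        set T1 := ∑ v, L2 u v * h2 v
        simp only [ii]
        split_ifs at h3 ⊢ with hu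
        · have : ga * s = y * ((h1 r1 - f1 r1) - (h2 r2 - f2 r2)) := by rw [hga]; field_simp
          rw [hs] at this
          linear_combination h5 - (1 - ga) * h3 + this
        · linear_combination h5 - (1 - ga) * h3
    · rw [det_graft y f1 f2 hf1 hf2, hd1, hd2, gb]
    · rw [gb]
      simp only [Sum.elim_inl]
      rw [hal, x1]
      simp only [dat, gr, Dat.u, eval_add, eval_mul, eval_X]
      rw [x2]
      field_simp
    · rw [gb]
      simp only [Sum.elim_inl]
      rw [hga, t1, t2, x1, x2]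
      simp only [dat, gr, Dat.u, eval_add, eval_mul, eval_X]
      have hs' : s = 1 + y * ((dat p).a.eval y / (dat p).b.eval y + (dat c).a.eval y / (dat c).b.eval y) := by
        rw [hs, x1, x2]
      rw [hs'] at hsp ⊢
      field_simp
      ring
    · rw [Fintype.sum_sum_type]
      simp only [Sum.elim_inl, Sum.elim_inr, gτ, sub_mul]
      have e1 : ∑ v, (τ1 v * (al * f1 v) - ii r1 v * (al * f1 v)) = al * (h1 r1 - f1 r1) := by
        rw [Finset.sum_sub_distrib, sum_ii r1 (fun v => al * f1 v), mul_sub, ← htf1, Finset.mul_sum]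
        congr 1
        exact Finset.sum_congr rfl (fun _ _ => by ring)
      have e2 : ∑ v, (τ2 v * (be * f2 v) - ii r2 v * (be * f2 v)) = be * (h2 r2 - f2 r2) := by
        rw [Finset.sum_sub_distrib, sum_ii r2 (fun v => be * f2 v), mul_sub, ← htf2, Finset.mul_sum]
        congr 1
        exact Finset.sum_congr rfl (fun _ _ => by ring)
      rw [e1, e2, hal, hbe, hga]
      field_simp
      rw [hs]; ring
    · rw [Fintype.sum_sum_type]
      simp only [Sum.elim_inl, Sum.elim_inr, gτ]
      have e1 : ∑ v, (τ1 v - ii r1 v) * (h1 v - f1 v - ga * f1 v)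
          = ∑ v, τ1 v * h1 v - (1 + ga) * h1 r1 - h1 r1 + (1 + ga) * f1 r1 := by
        have : ∀ v, (τ1 v - ii r1 v) * (h1 v - f1 v - ga * f1 v)
            = τ1 v * h1 v - (1 + ga) * (τ1 v * f1 v) - ii r1 v * (h1 v) + (1 + ga) * (ii r1 v * f1 v) := by
          intro v; ring
        simp only [this, Finset.sum_add_distrib, Finset.sum_sub_distrib, ← Finset.mul_sum, sum_ii, htf1]
      have e2 : ∑ v, (τ2 v - ii r2 v) * (h2 v - f2 v + ga * f2 v)
          = ∑ v, τ2 v * h2 v - (1 - ga) * h2 r2 - h2 r2 + (1 - ga) * f2 r2 := by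
        have : ∀ v, (τ2 v - ii r2 v) * (h2 v - f2 v + ga * f2 v)
            = τ2 v * h2 v - (1 - ga) * (τ2 v * f2 v) - ii r2 v * (h2 v) + (1 - ga) * (ii r2 v * f2 v) := by
          intro v; ring
        simp only [this, Finset.sum_add_distrib, Finset.sum_sub_distrib, ← Finset.mul_sum, sum_ii, htf2]
      rw [e1, e2, w1, w2, gb, hga, t1, t2]
      have hs' : s = 1 + y * ((dat p).a.eval y / (dat p).b.eval y + (dat c).a.eval y / (dat c).b.eval y) := by
        rw [hs, x1, x2]
      rw [x1, x2, hs'] 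
      rw [hs'] at hsp
      simp only [PP, dat, gr, Dat.u, Dat.zt, RT.e, eval_add, eval_mul, eval_X, eval_sub, eval_pow,
        eval_ofNat]
      rw [z1, z2]
      push_cast
      field_simp
      ring
    · simp only [dat, gr, Dat.u, eval_add, eval_mul, eval_X]; positivity
    · rw [gb]; positivity

end graft

end Pool.Agent.H445R3.PK
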