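import Pool.Agent.H445R3.PK2

set_option autoImplicit false
set_option linter.unusedSimpArgs false

open Polynomial

namespace Pool.Agent.H445R3.PK

def VV : RT → Type
  | .leaf => Unit
  | .graft p c => VV p ⊕ VV c

instance instFin : (t : RT) → Fintype (VV t)
  | .leaf => inferInstanceAs (Fintype Unit)
  | .graft p c => @instFintypeSum (VV p) (VV c) (instFin p) (instFin c)

instance instDec : (t : RT) → DecidableEq (VV t)
  | .leaf => inferInstanceAs (DecidableEq Unit)
  | .graft p c => @instDecidableEqSum (VV p) (VV c) (instDec p) (instDec c)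

def rt : (t : RT) → VV t
  | .leaf => ()
  | .graft p _ => Sum.inl (rt p)

def dst : (t : RT) → VV t → VV t → ℕ
  | .leaf, _, _ => 0
  | .graft p _, .inl u, .inl v => dst p u v
  | .graft p c, .inl u, .inr v => dst p u (rt p) + 1 + dst c (rt c) v
  | .graft p c, .inr u, .inl v => dst c u (rt c) + 1 + dst p (rt p) v
  | .graft _ c, .inr u, .inr v => dst c u v

theorem exTD (t : RT) : ∃ L τ, TD (fun u v => (dst t u v : ℝ)) (rt t) L τ t := by
  induction t with
  | leaf =>
    refine ⟨fun _ _ => 0, fun _ => 2, ?_⟩
    have hD : (fun u v : VV .leaf => (dst .leaf u v : ℝ)) = fun _ _ => 0 := by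
      funext u v
      show ((0 : ℕ) : ℝ) = 0
      norm_num
    rw [hD]
    exact TD_leaf
  | graft p c ihp ihc =>
    obtain ⟨L1, τ1, A⟩ := ihp
    obtain ⟨L2, τ2, B⟩ := ihc
    refine ⟨gL L1 L2 (rt p) (rt c), gτ τ1 τ2 (rt p) (rt c), ?_⟩
    have h := TD_graft A B
    have hD : (fun u v : VV (.graft p c) => (dst (.graft p c) u v : ℝ))
        = gD (fun u v => (dst p u v : ℝ)) (fun u v => (dst c u v : ℝ)) (rt p) (rt c) := by
      funext u v
      rcases u with u | u <;> rcases v with v | v <;> simp [dst, gD]
    rw [hD]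
    exact h

theorem card_VV (t : RT) : Fintype.card (VV t) = t.e + 1 := by
  obtain ⟨L, τ, h⟩ := exTD t
  exact h.card

theorem dst_self (t : RT) (u : VV t) : dst t u u = 0 := by
  obtain ⟨L, τ, h⟩ := exTD t
  have := h.dzero u
  exact_mod_cast this

def addLeaf : (t : RT) → VV t → RT
  | .leaf, _ => .graft .leaf .leaf
  | .graft p c, .inl v => .graft (addLeaf p v) c
  | .graft p c, .inr v => .graft p (addLeaf c v)

def emb : (t : RT) → (v : VV t) → VV t → VV (addLeaf t v)
  | .leaf, _, _ => Sum.inl ()
  | .graft p _, .inl v, .inl x => Sum.inl (emb p v x)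
  | .graft _ _, .inl _, .inr x => Sum.inr x
  | .graft _ _, .inr _, .inl x => Sum.inl x
  | .graft _ c, .inr v, .inr x => Sum.inr (emb c v x)

def nw : (t : RT) → (v : VV t) → VV (addLeaf t v)
  | .leaf, _ => Sum.inr ()
  | .graft p _, .inl v => Sum.inl (nw p v)
  | .graft _ c, .inr v => Sum.inr (nw c v)

theorem addLeaf_e : (t : RT) → (v : VV t) → (addLeaf t v).e = t.e + 1
  | .leaf, _ => rfl
  | .graft p c, .inl v => by
    have := addLeaf_e p v
    simp only [addLeaf, RT.e, this]; ring
  | .graft p c, .inr v => by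
    have := addLeaf_e c v
    simp only [addLeaf, RT.e, this]; ring

theorem emb_root : (t : RT) → (v : VV t) → emb t v (rt t) = rt (addLeaf t v)
  | .leaf, _ => rfl
  | .graft p c, .inl v => by
    have := emb_root p v
    show Sum.inl (emb p v (rt p)) = Sum.inl (rt (addLeaf p v))
    rw [this]
  | .graft p c, .inr v => rfl

theorem emb_inj : (t : RT) → (v : VV t) → Function.Injective (emb t v)
  | .leaf, _ => fun _ _ _ => rfl
  | .graft p c, .inl v => by
    have ih := emb_inj p v
    rintro (x | x) (y | y) h
    · have h' : (Sum.inl (emb p v x) : VV (addLeaf p v) ⊕ VV c) = Sum.inl (emb p v y) := h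
      rw [ih (Sum.inl.inj h')]
    · have h' : (Sum.inl (emb p v x) : VV (addLeaf p v) ⊕ VV c) = Sum.inr y := h
      cases h'
    · have h' : (Sum.inr x : VV (addLeaf p v) ⊕ VV c) = Sum.inl (emb p v y) := h
      cases h'
    · have h' : (Sum.inr x : VV (addLeaf p v) ⊕ VV c) = Sum.inr y := h
      rw [Sum.inr.inj h']
  | .graft p c, .inr v => by
    have ih := emb_inj c v
    rintro (x | x) (y | y) h
    · have h' : (Sum.inl x : VV p ⊕ VV (addLeaf c v)) = Sum.inl y := h
      rw [Sum.inl.inj h']
    · have h' : (Sum.inl x : VV p ⊕ VV (addLeaf c v)) = Sum.inr (emb c v y) := h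
      cases h'
    · have h' : (Sum.inr (emb c v x) : VV p ⊕ VV (addLeaf c v)) = Sum.inl y := h
      cases h'
    · have h' : (Sum.inr (emb c v x) : VV p ⊕ VV (addLeaf c v)) = Sum.inr (emb c v y) := h
      rw [ih (Sum.inr.inj h')]

theorem emb_ne_nw : (t : RT) → (v x : VV t) → emb t v x ≠ nw t v
  | .leaf, _, _ => by
    intro h
    have h' : (Sum.inl () : Unit ⊕ Unit) = Sum.inr () := h
    cases h'
  | .graft p c, .inl v, .inl x => by
    intro h
    have h' : (Sum.inl (emb p v x) : VV (addLeaf p v) ⊕ VV c) = Sum.inl (nw p v) := h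
    exact emb_ne_nw p v x (Sum.inl.inj h')
  | .graft p c, .inl v, .inr x => by
    intro h
    have h' : (Sum.inr x : VV (addLeaf p v) ⊕ VV c) = Sum.inl (nw p v) := h
    cases h'
  | .graft p c, .inr v, .inl x => by
    intro h
    have h' : (Sum.inl x : VV p ⊕ VV (addLeaf c v)) = Sum.inr (nw c v) := h
    cases h'
  | .graft p c, .inr v, .inr x => by
    intro h
    have h' : (Sum.inr (emb c v x) : VV p ⊕ VV (addLeaf c v)) = Sum.inr (nw c v) := h
    exact emb_ne_nw c v x (Sum.inr.inj h')

theorem dst_emb : (t : RT) → (v x y : VV t) → dst (addLeaf t v) (emb t v x) (emb t v y) = dst t x y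
  | .leaf, _, _, _ => rfl
  | .graft p c, .inl v, .inl x, .inl y => dst_emb p v x y
  | .graft p c, .inl v, .inl x, .inr y => by
    show dst (addLeaf p v) (emb p v x) (rt (addLeaf p v)) + 1 + dst c (rt c) y
      = dst p x (rt p) + 1 + dst c (rt c) y
    rw [← emb_root, dst_emb p v]
  | .graft p c, .inl v, .inr x, .inl y => by
    show dst c x (rt c) + 1 + dst (addLeaf p v) (rt (addLeaf p v)) (emb p v y)
      = dst c x (rt c) + 1 + dst p (rt p) y
    rw [← emb_root, dst_emb p v]
  | .graft p c, .inl v, .inr x, .inr y => rfl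
  | .graft p c, .inr v, .inl x, .inl y => rfl
  | .graft p c, .inr v, .inl x, .inr y => by
    show dst p x (rt p) + 1 + dst (addLeaf c v) (rt (addLeaf c v)) (emb c v y)
      = dst p x (rt p) + 1 + dst c (rt c) y
    rw [← emb_root, dst_emb c v]
  | .graft p c, .inr v, .inr x, .inl y => by
    show dst (addLeaf c v) (emb c v x) (rt (addLeaf c v)) + 1 + dst p (rt p) y
      = dst c x (rt c) + 1 + dst p (rt p) y
    rw [← emb_root, dst_emb c v]
  | .graft p c, .inr v, .inr x, .inr y => dst_emb c v x y

theorem dst_nw : (t : RT) → (v y : VV t) → dst (addLeaf t v) (nw t v) (emb t v y) = dst t v y + 1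
  | .leaf, _, _ => rfl
  | .graft p c, .inl v, .inl y => dst_nw p v y
  | .graft p c, .inl v, .inr y => by
    show dst (addLeaf p v) (nw p v) (rt (addLeaf p v)) + 1 + dst c (rt c) y
      = dst p v (rt p) + 1 + dst c (rt c) y + 1
    rw [← emb_root, dst_nw p v]; ring
  | .graft p c, .inr v, .inl y => by
    show dst (addLeaf c v) (nw c v) (rt (addLeaf c v)) + 1 + dst p (rt p) y
      = dst c v (rt c) + 1 + dst p (rt p) y + 1
    rw [← emb_root, dst_nw c v]; ring
  | .graft p c, .inr v, .inr y => dst_nw c v y

theorem dst_symm (t : RT) (u v : VV t) : dst t u v = dst t v u := by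
  obtain ⟨L, τ, h⟩ := exTD t
  have := h.dsymm u v
  exact_mod_cast this

/-! ### graph trees -/

theorem dist_leaf {V : Type} (G : SimpleGraph V) (hG : G.Connected) (q p : V)
    (hq : ∀ z, G.Adj q z → z = p) (hqp : G.Adj q p) (y : V) (hy : y ≠ q) :
    G.dist q y = G.dist p y + 1 := by
  apply le_antisymm
  · have := hG.dist_triangle (u := q) (v := p) (w := y)
    have h1 : G.dist q p = 1 := SimpleGraph.dist_eq_one_iff_adj.mpr hqp
    omega
  · obtain ⟨w, hw⟩ := hG.exists_walk_length_eq_dist q y
    cases w with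
    | nil => exact absurd rfl hy
    | cons h w' =>
      have := hq _ h
      subst this
      rw [SimpleGraph.Walk.length_cons] at hw
      have := SimpleGraph.dist_le w'
      omega

theorem dist_induce {V : Type} (G : SimpleGraph V) (hG : G.Connected) (q p : V)
    (hq : ∀ z, G.Adj q z → z = p) (hqp : G.Adj q p) (hG' : (G.induce {q}ᶜ).Connected)
    (x y : V) (hx : x ∈ ({q}ᶜ : Set V)) (hy : y ∈ ({q}ᶜ : Set V)) :
    G.dist x y = (G.induce {q}ᶜ).dist ⟨x, hx⟩ ⟨y, hy⟩ := by
  apply le_antisymm
  · obtain ⟨w, hw⟩ := hG'.exists_walk_length_eq_dist ⟨x, hx⟩ ⟨y, hy⟩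
    have h1 := SimpleGraph.dist_le (w.map (SimpleGraph.Embedding.induce (G := G) {q}ᶜ).toHom)
    rw [SimpleGraph.Walk.length_map, hw] at h1
    exact h1
  · have key : ∀ n : ℕ, ∀ x : V, ∀ hx : x ∈ ({q}ᶜ : Set V), G.dist x y = n →
        (G.induce {q}ᶜ).dist ⟨x, hx⟩ ⟨y, hy⟩ ≤ n := by
      intro n
      induction n with
      | zero =>
        intro x hx h
        have : x = y := by
          rcases SimpleGraph.dist_eq_zero_iff_eq_or_not_reachable.mp h with h | h
          · exact h
          · exact absurd (hG.preconnected x y) h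
        subst this
        simp
      | succ n ih =>
        intro x hx h
        obtain ⟨w, hw⟩ := hG.exists_walk_length_eq_dist x y
        rw [h] at hw
        cases w with
        | nil => simp at hw
        | @cons _ z _ hxz w' =>
          rw [SimpleGraph.Walk.length_cons] at hw
          have h1 := SimpleGraph.dist_le w'
          have h2 := hG.dist_triangle (u := x) (v := z) (w := y)
          have h3 : G.dist x z = 1 := SimpleGraph.dist_eq_one_iff_adj.mpr hxz
          have h4 : G.dist z y = n := by omega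
          by_cases hz : z = q
          · exfalso
            subst hz
            have h5 := hq x hxz.symm
            have h6 := dist_leaf G hG z p hq hqp y (by simpa using hy)
            rw [← h5] at h6
            omega
          · have h5 := ih z (by simpa using hz) h4
            have h6 : (G.induce {q}ᶜ).Adj ⟨x, hx⟩ ⟨z, by simpa using hz⟩ := by
              simpa [SimpleGraph.comap_adj] using hxz
            have h7 := hG'.dist_triangle (u := ⟨x, hx⟩) (v := ⟨z, by simpa using hz⟩) (w := ⟨y, hy⟩)
            have h8 : (G.induce {q}ᶜ).dist ⟨x, hx⟩ ⟨z, by simpa using hz⟩ = 1 :=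
              SimpleGraph.dist_eq_one_iff_adj.mpr h6
            omega
    exact key _ x hx rfl

theorem exists_rep (n : ℕ) : ∀ (V : Type) [Fintype V] [DecidableEq V] (G : SimpleGraph V),
    G.IsTree → Fintype.card V = n + 1 → ∃ t : RT, ∃ e : V ≃ VV t,
      ∀ u v, G.dist u v = dst t (e u) (e v) := by
  induction n with
  | zero =>
    intro V _ _ G hG hc
    have hc' : Fintype.card V = 1 := by simpa using hc
    have hc2 : Fintype.card (VV .leaf) = 1 := rfl
    refine ⟨.leaf, Fintype.equivOfCardEq (by rw [hc', hc2]), ?_⟩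
    intro u v
    have : Subsingleton V := Fintype.card_le_one_iff_subsingleton.mp hc'.le
    rw [Subsingleton.elim u v]
    simp [dst]
  | succ n ih =>
    intro V _ _ G hG hc
    classical
    have hnt : Nontrivial V := Fintype.one_lt_card_iff_nontrivial.mp (by omega)
    obtain ⟨q, hdeg⟩ := hG.exists_vert_degree_one_of_nontrivial
    obtain ⟨p, hqp, hq⟩ := SimpleGraph.degree_eq_one_iff_existsUnique_adj.mp hdeg
    have hG' : (G.induce {q}ᶜ).Connected :=
      hG.connected.induce_compl_singleton_of_degree_eq_one hdeg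
    have hT' : (G.induce {q}ᶜ).IsTree := ⟨hG', hG.isAcyclic.induce _⟩
    have hcard : Fintype.card ({q}ᶜ : Set V) = n + 1 := by
      rw [Fintype.card_compl_set]; simp; omega
    obtain ⟨t, e, he⟩ := ih ({q}ᶜ : Set V) (G.induce {q}ᶜ) hT' hcard
    have hpq : p ≠ q := hqp.ne'
    set P : ({q}ᶜ : Set V) := ⟨p, by simpa using hpq⟩ with hP
    have hce : t.e = n := by
      have h1 := Fintype.card_congr e
      rw [hcard, card_VV] at h1
      omega
    let f : V → VV (addLeaf t (e P)) := fun x =>
      if h : x = q then nw t (e P) else emb t (e P) (e ⟨x, by simpa using h⟩)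
    have hfq : f q = nw t (e P) := by simp [f]
    have hfn : ∀ x (h : x ≠ q), f x = emb t (e P) (e ⟨x, by simpa using h⟩) := by
      intro x h; simp [f, h]
    have hinj : Function.Injective f := by
      intro x y hxy
      by_cases hx : x = q
      · by_cases hy : y = q
        · rw [hx, hy]
        · rw [hx, hfq, hfn y hy] at hxy
          exact absurd hxy.symm (emb_ne_nw _ _ _)
      · by_cases hy : y = q
        · rw [hy, hfq, hfn x hx] at hxy
          exact absurd hxy (emb_ne_nw _ _ _)
        · rw [hfn x hx, hfn y hy] at hxy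
          have := e.injective (emb_inj _ _ hxy)
          simpa using this
    have hbij : Function.Bijective f := by
      rw [Fintype.bijective_iff_injective_and_card]
      refine ⟨hinj, ?_⟩
      rw [hc, card_VV, addLeaf_e, hce]
    refine ⟨addLeaf t (e P), Equiv.ofBijective f hbij, ?_⟩
    intro u v
    rw [Equiv.ofBijective_apply, Equiv.ofBijective_apply]
    have hleaf : ∀ y, y ≠ q → G.dist q y = dst (addLeaf t (e P)) (f q) (f y) := by
      intro y hy
      rw [hfq, hfn y hy, dst_nw, ← he,
        dist_leaf G hG.connected q p hq hqp y hy,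
        dist_induce G hG.connected q p hq hqp hG' p y (by simpa using hpq) (by simpa using hy)]
    by_cases hu : u = q
    · by_cases hv : v = q
      · rw [hu, hv, dst_self]; simp
      · rw [hu]; exact hleaf v hv
    · by_cases hv : v = q
      · rw [hv, SimpleGraph.dist_comm, dst_symm]; exact hleaf u hu
      · rw [hfn u hu, hfn v hv, dst_emb, ← he]
        exact dist_induce G hG.connected q p hq hqp hG' u v _ _

end Pool.Agent.H445R3.PK
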