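import Pool.Agent.H445R3.PK3

set_option autoImplicit false
set_option linter.unusedSimpArgs false

open Polynomial

namespace Pool.Agent.H445R3.PK

/-! ### log-concavity -/

structure LC (f : ℝ[X]) : Prop where
  nn : ∀ k, 0 ≤ f.coeff k
  zz : ∀ k, f.coeff k = 0 → f.coeff (k + 1) = 0
  lc : ∀ k l, k ≤ l → f.coeff k * f.coeff (l + 2) ≤ f.coeff (k + 1) * f.coeff (l + 1)

theorem LC_one : LC (1 : ℝ[X]) := by
  refine ⟨?_, ?_, ?_⟩
  · intro k; rw [coeff_one]; split_ifs <;> norm_num
  · intro k _; rw [coeff_one]; simp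
  · intro k l _; simp [coeff_one]

theorem LC_mul (f : ℝ[X]) (hf : LC f) (m : ℝ) (hm : 0 ≤ m) : LC ((1 + C m * X) * f) := by
  have c0 : ((1 + C m * X) * f).coeff 0 = f.coeff 0 := by
    simp [add_mul, mul_assoc]
  have cs : ∀ k, ((1 + C m * X) * f).coeff (k + 1) = f.coeff (k + 1) + m * f.coeff k := by
    intro k; simp [add_mul, mul_assoc, coeff_X_mul]
  refine ⟨?_, ?_, ?_⟩
  · intro k
    cases k with
    | zero => rw [c0]; exact hf.nn 0
    | succ k => rw [cs]; have := hf.nn k; have := hf.nn (k + 1); positivity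
  · intro k h
    cases k with
    | zero =>
      rw [c0] at h
      rw [cs, h, hf.zz 0 h]; ring
    | succ k =>
      rw [cs] at h
      have h1 := hf.nn k
      have h2 := hf.nn (k + 1)
      have h3 : f.coeff (k + 1) = 0 := by nlinarith [mul_nonneg hm h1]
      rw [cs, hf.zz _ h3, h3]; ring
  · intro k l hkl
    cases k with
    | zero =>
      rw [c0, cs, cs, cs]
      have a1 := hf.lc 0 l hkl
      have n0 := hf.nn 0
      have n1 := hf.nn 1
      have nl := hf.nn l
      have nl1 := hf.nn (l + 1)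
      have := mul_nonneg hm (mul_nonneg n1 nl)
      have := mul_nonneg (mul_nonneg hm hm) (mul_nonneg n0 nl)
      simp only [zero_add] at *
      nlinarith
    | succ k =>
      obtain ⟨l, rfl⟩ : ∃ l', l = l' + 1 := ⟨l - 1, by omega⟩
      rw [cs, cs, cs, cs]
      have a1 := hf.lc (k + 1) (l + 1) hkl
      have a3 := hf.lc k l (by omega)
      have a2 : f.coeff k * f.coeff (l + 3) ≤ f.coeff (k + 2) * f.coeff (l + 1) := by
        have b1 := hf.lc k (l + 1) (by omega)
        by_cases h : k = l
        · subst h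
          calc _ ≤ _ := b1
            _ = _ := by ring_nf
        · have b2 := hf.lc (k + 1) l (by omega)
          calc _ ≤ _ := b1
            _ ≤ _ := b2
      have m1 := mul_le_mul_of_nonneg_left a2 hm
      have m2 := mul_le_mul_of_nonneg_left a3 (mul_nonneg hm hm)
      simp only [show l + 1 + 2 = l + 3 from rfl, show k + 1 + 1 = k + 2 from rfl,
        show l + 1 + 1 = l + 2 from rfl] at *
      nlinarith

theorem LC_prod {ι : Type} (s : Finset ι) (μ : ι → ℝ) (h : ∀ i, 0 ≤ μ i) :
    LC (∏ i ∈ s, (1 + C (μ i) * X)) := by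
  classical
  induction s using Finset.induction_on with
  | empty => simpa using LC_one
  | insert a s ha ih => rw [Finset.prod_insert ha]; exact LC_mul _ ih _ (h a)

theorem LC_ratio {f : ℝ[X]} (h : LC f) (k : ℕ) : (X * f).coeff k * f.coeff (k + 1) ≤ f.coeff k ^ 2 := by
  cases k with
  | zero => simp; positivity
  | succ k => rw [coeff_X_mul]; have := h.lc k k le_rfl; nlinarith

/-- Darroch: if the mean is at most k then the (k+1)-st coefficient is at most the k-th. -/
theorem darroch {ι : Type} [Fintype ι] (μ : ι → ℝ) (h : ∀ i, 0 ≤ μ i) (k : ℕ)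
    (hk : ∑ i, μ i / (1 + μ i) ≤ k) :
    (∏ i, (1 + C (μ i) * X)).coeff (k + 1) ≤ (∏ i, (1 + C (μ i) * X)).coeff k := by
  classical
  set F : ℝ[X] := ∏ i, (1 + C (μ i) * X) with hF
  set G : ι → ℝ[X] := fun i => ∏ j ∈ Finset.univ.erase i, (1 + C (μ j) * X) with hG
  have hFG : ∀ i, F = (1 + C (μ i) * X) * G i := by
    intro i; rw [hF, hG]; exact (Finset.mul_prod_erase _ _ (Finset.mem_univ i)).symm
  have hLC : ∀ i, LC (G i) := fun i => LC_prod _ μ h
  have hLF : LC F := LC_prod _ μ h
  by_contra hcon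
  push Not at hcon
  have hcoef : ∀ i m, F.coeff m = (G i).coeff m + μ i * (X * G i).coeff m := by
    intro i m
    conv_lhs => rw [hFG i]
    rw [add_mul, one_mul, coeff_add, mul_assoc, coeff_C_mul]
  -- derivative identity
  have hder : ∑ i, μ i * (X * G i).coeff k = k * F.coeff k := by
    have h1 : derivative F = ∑ i, G i * C (μ i) := by
      rw [hF, derivative_prod_finset]
      refine Finset.sum_congr rfl (fun i _ => ?_)
      simp [hG]
    cases k with
    | zero => simp
    | succ k =>
      have h2 := congrArg (fun p => p.coeff k) h1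
      simp only [coeff_derivative, finsetSum_coeff, coeff_mul_C] at h2
      have h3 : ∀ i, μ i * (X * G i).coeff (k + 1) = (G i).coeff k * μ i := by
        intro i; rw [coeff_X_mul]; ring
      rw [Finset.sum_congr rfl (fun i _ => h3 i), ← h2]
      push_cast; ring
  have hid : ∑ i, μ i / (1 + μ i) * ((G i).coeff k - (X * G i).coeff k)
      = (∑ i, μ i / (1 + μ i) - k) * F.coeff k := by
    rw [sub_mul, ← hder, Finset.sum_mul, ← Finset.sum_sub_distrib]
    refine Finset.sum_congr rfl (fun i _ => ?_)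
    have hi := h i
    have h1 : (1 + μ i) ≠ 0 := by positivity
    rw [hcoef i k]
    field_simp
    ring
  have hpos : ∀ i, 0 < (G i).coeff k - (X * G i).coeff k := by
    intro i
    by_contra hneg
    push Not at hneg
    have h1 : (G i).coeff (k + 1) ≤ (G i).coeff k := by
      have h2 := LC_ratio (hLC i) k
      have n0 := (hLC i).nn k
      have n1 := (hLC i).nn (k + 1)
      by_cases hz : (G i).coeff k = 0
      · rw [hz, (hLC i).zz k hz]
      · have hp : 0 < (G i).coeff k := lt_of_le_of_ne n0 (Ne.symm hz)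
        by_contra hlt
        push Not at hlt
        nlinarith
    have h3 := hcoef i k
    have h4 := hcoef i (k + 1)
    rw [coeff_X_mul] at h4
    have := h i
    nlinarith
  have hex : ∃ i, 0 < μ i := by
    by_contra hno
    push Not at hno
    have : ∀ i, μ i = 0 := fun i => le_antisymm (hno i) (h i)
    have hF1 : F = 1 := by rw [hF]; simp [this]
    rw [hF1, coeff_one, coeff_one] at hcon
    simp at hcon
    split_ifs at hcon <;> linarith
  obtain ⟨i0, hi0⟩ := hex
  have hs : 0 < ∑ i, μ i / (1 + μ i) * ((G i).coeff k - (X * G i).coeff k) := by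
    apply Finset.sum_pos'
    · intro i _
      have := h i
      have := hpos i
      positivity
    · exact ⟨i0, Finset.mem_univ _, by have := hpos i0; positivity⟩
  rw [hid] at hs
  have h5 := hLF.nn k
  nlinarith

/-- ratio comparison -/
theorem ratio {ι : Type} [Fintype ι] [DecidableEq ι] (μ s : ι → ℝ) (h : ∀ i, 0 ≤ μ i) (F P : ℝ[X]) (c : ℝ)
    (hF : F = ∏ i, (1 + C (μ i) * X))
    (hP : P = C c * F - X * ∑ i, C (s i ^ 2) * ∏ j ∈ Finset.univ.erase i, (1 + C (μ j) * X))
    (k : ℕ) : P.coeff (k + 1) * F.coeff k ≤ P.coeff k * F.coeff (k + 1) := by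
  set G : ι → ℝ[X] := fun i => ∏ j ∈ Finset.univ.erase i, (1 + C (μ j) * X) with hG
  have hFG : ∀ i, F = (1 + C (μ i) * X) * G i := by
    intro i; rw [hF, hG]; exact (Finset.mul_prod_erase _ _ (Finset.mem_univ i)).symm
  have hLC : ∀ i, LC (G i) := fun i => LC_prod _ μ h
  have hcoef : ∀ i m, F.coeff m = (G i).coeff m + μ i * (X * G i).coeff m := by
    intro i m
    conv_lhs => rw [hFG i]
    rw [add_mul, one_mul, coeff_add, mul_assoc, coeff_C_mul]
  have p1 : ∀ m, P.coeff m = c * F.coeff m - ∑ i, s i ^ 2 * (X * G i).coeff m := by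
    intro m
    rw [hP, Finset.mul_sum, coeff_sub, coeff_C_mul, finsetSum_coeff]
    congr 1
    refine Finset.sum_congr rfl (fun i _ => ?_)
    rw [← mul_assoc, mul_comm X (C (s i ^ 2)), mul_assoc, coeff_C_mul]
  have key : ∑ i, s i ^ 2 * (X * G i).coeff k * F.coeff (k + 1)
      ≤ ∑ i, s i ^ 2 * (X * G i).coeff (k + 1) * F.coeff k := by
    refine Finset.sum_le_sum (fun i _ => ?_)
    have h1 := LC_ratio (hLC i) k
    have h2 := hcoef i k
    have h3 := hcoef i (k + 1)
    rw [coeff_X_mul] at h3 ⊢
    rw [h2, h3, mul_assoc, mul_assoc]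
    refine mul_le_mul_of_nonneg_left ?_ (sq_nonneg _)
    nlinarith
  rw [p1, p1, sub_mul, sub_mul, Finset.sum_mul, Finset.sum_mul]
  nlinarith

/-! ### spectral decomposition of the Laplacian -/

theorem spectral {V : Type} [Fintype V] [DecidableEq V] {D : V → V → ℝ} {r : V} {L : V → V → ℝ}
    {τ : V → ℝ} {t : RT} (T : TD D r L τ t) :
    ∃ μ s : V → ℝ, (∀ i, 0 ≤ μ i) ∧ (dat t).b = ∏ i, (1 + C (μ i) * X) ∧
      PP t = C (t.e : ℝ) * (dat t).b
        - X * ∑ i, C (s i ^ 2) * ∏ j ∈ Finset.univ.erase i, (1 + C (μ j) * X) := by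
  set A : Matrix V V ℝ := Matrix.of L with hA
  have hH : A.IsHermitian := by
    ext i j; simp [hA, T.lsymm i j]
  have hpsd : A.PosSemidef := by
    refine Matrix.PosSemidef.of_dotProduct_mulVec_nonneg hH (fun x => ?_)
    have := T.psd x
    simp only [dotProduct, Matrix.mulVec, hA, Matrix.of_apply, Finset.mul_sum, star_trivial]
    simpa [mul_assoc] using this
  set μ := hH.eigenvalues with hμ
  have hμ0 : ∀ i, 0 ≤ μ i := fun i => hpsd.eigenvalues_nonneg i
  obtain ⟨U, hU1, hU2, hUA⟩ : ∃ U : Matrix V V ℝ, U * U.transpose = 1 ∧ U.transpose * U = 1 ∧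
      A = U * Matrix.diagonal μ * U.transpose := by
    refine ⟨(hH.eigenvectorUnitary : Matrix V V ℝ), ?_, ?_, ?_⟩
    · exact Unitary.coe_mul_star_self hH.eigenvectorUnitary
    · exact Unitary.coe_star_mul_self hH.eigenvectorUnitary
    · have := hH.spectral_theorem
      rw [Unitary.conjStarAlgAut_apply] at this
      exact this
  set s := U.transpose.mulVec τ with hs
  have hdiag : ∀ y : ℝ, 1 + y • A = U * Matrix.diagonal (fun i => 1 + y * μ i) * U.transpose := by
    intro y
    have : Matrix.diagonal (fun i => 1 + y * μ i) = 1 + y • Matrix.diagonal μ := by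
      ext i j; by_cases hij : i = j <;> simp [Matrix.diagonal_apply, Matrix.one_apply, hij]
    rw [this, mul_add, add_mul, mul_one, hU1]
    conv_lhs => rw [hUA]
    simp
  have hdet : ∀ y : ℝ, (1 + y • A).det = ∏ i, (1 + y * μ i) := by
    intro y
    rw [hdiag, Matrix.det_mul, Matrix.det_mul, Matrix.det_diagonal, mul_right_comm, ← Matrix.det_mul,
      hU1, Matrix.det_one, one_mul]
  have hinf : (Set.Ioi (0 : ℝ)).Infinite := Set.Ioi_infinite 0
  have hev : ∀ y : ℝ, (∏ i, (1 + C (μ i) * X : ℝ[X])).eval y = ∏ i, (1 + y * μ i) := by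
    intro y
    rw [eval_prod]
    refine Finset.prod_congr rfl (fun i _ => ?_)
    simp; ring
  refine ⟨μ, s, hμ0, ?_, ?_⟩
  · apply Polynomial.eq_of_infinite_eval_eq
    refine hinf.mono ?_
    intro y hy
    obtain ⟨f, h, hf, hh, hd, -⟩ := T.sol y hy
    show (dat t).b.eval y = _
    rw [hev, ← hdet, ← hd]
  · apply Polynomial.eq_of_infinite_eval_eq
    refine hinf.mono ?_
    intro y hy
    have hy' : (0 : ℝ) < y := hy
    obtain ⟨f, h, hf, hh, hd, -, -, -, hw, -, hb⟩ := T.sol y hy
    show (PP t).eval y = _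
    have hk : ∀ i, (1 + y * μ i) * (U.transpose.mulVec h) i = s i := by
      intro i
      have e1 : (1 + y • A).mulVec h = τ := by
        funext u
        have := hh u
        rw [← this]
        simp [Matrix.mulVec, dotProduct, hA, add_mul, Finset.sum_add_distrib, Matrix.one_apply,
          Finset.mul_sum, mul_assoc]
      have e2 : (Matrix.diagonal (fun i => 1 + y * μ i)).mulVec (U.transpose.mulVec h) = s := by
        rw [hs, ← e1, hdiag, Matrix.mulVec_mulVec, Matrix.mulVec_mulVec, ← Matrix.mul_assoc,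
          ← Matrix.mul_assoc, hU2, Matrix.one_mul]
      have e3 := congrFun e2 i
      rw [Matrix.mulVec_diagonal] at e3
      exact e3
    have hdot : ∑ v, τ v * h v = ∑ i, s i * (U.transpose.mulVec h) i := by
      have : s ⬝ᵥ (U.transpose.mulVec h) = τ ⬝ᵥ h := by
        rw [hs, Matrix.dotProduct_mulVec, Matrix.vecMul_transpose, Matrix.mulVec_mulVec, hU1,
          Matrix.one_mulVec]
      simpa [dotProduct] using this.symm
    have hpos : ∀ i, 0 < 1 + y * μ i := fun i => by have := hμ0 i; positivity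
    have hbprod : (dat t).b.eval y = ∏ i, (1 + y * μ i) := by rw [← hdet, ← hd]
    simp only [eval_sub, eval_mul, eval_C, eval_X, eval_finsetSum]
    have e4 : ∀ i, (∏ j ∈ Finset.univ.erase i, (1 + C (μ j) * X : ℝ[X])).eval y
        = (dat t).b.eval y / (1 + y * μ i) := by
      intro i
      rw [eq_div_iff (hpos i).ne', hbprod, eval_prod, ← Finset.prod_erase_mul _ _ (Finset.mem_univ i)]
      congr 1
      refine Finset.prod_congr rfl (fun j _ => ?_)
      simp; ring
    have e5 : ∑ v, τ v * h v = ∑ i, s i ^ 2 / (1 + y * μ i) := by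
      rw [hdot]
      refine Finset.sum_congr rfl (fun i _ => ?_)
      rw [eq_div_iff (hpos i).ne']
      have := hk i
      calc _ = s i * ((1 + y * μ i) * (U.transpose.mulVec h) i) := by ring
        _ = _ := by rw [this]; ring
    have e6 : ∑ i, s i ^ 2 * (∏ j ∈ Finset.univ.erase i, (1 + C (μ j) * X : ℝ[X])).eval y
        = (dat t).b.eval y * ∑ v, τ v * h v := by
      rw [e5, Finset.mul_sum]
      refine Finset.sum_congr rfl (fun i _ => ?_)
      rw [e4]; ring
    rw [e6]
    linarith

end Pool.Agent.H445R3.PK
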