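import Pool.Agent.H445R3.PK4

set_option autoImplicit false
set_option linter.unusedSimpArgs false

open Polynomial

namespace Pool.Agent.H445R3.PK

noncomputable def c0 : ℝ := (3 * Real.sqrt 5 + 5) / 50
noncomputable def ep : ℝ := 167 / 1000

theorem s5a : (2.236 : ℝ) ≤ Real.sqrt 5 := by
  apply Real.le_sqrt_of_sq_le; norm_num
theorem s5b : Real.sqrt 5 ≤ (2.2361 : ℝ) := by
  rw [Real.sqrt_le_left (by norm_num)]; norm_num
theorem s5sq : Real.sqrt 5 * Real.sqrt 5 = 5 := Real.mul_self_sqrt (by norm_num)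

theorem inv5 : 1 / Real.sqrt 5 = Real.sqrt 5 / 5 := by
  have := s5a
  have h := s5sq
  field_simp
  nlinarith

theorem c0a : (0.23416 : ℝ) ≤ c0 := by unfold c0; have := s5a; linarith
theorem c0b : c0 ≤ (0.234166 : ℝ) := by unfold c0; have := s5b; linarith

/-- tangent line bound for 1/x -/
theorem tang (x r : ℝ) (hx : 0 < x) (hr : 0 < r) : 1 / r - (x - r) / r ^ 2 ≤ 1 / x := by
  rw [div_sub_div _ _ hr.ne' (by positivity), div_le_div_iff₀ (by positivity) hx]
  nlinarith [mul_nonneg hr.le (sq_nonneg (x - r))]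

theorem num (m : ℕ) (hm : 1 ≤ m) (ρ : ℝ) (h0 : 0 ≤ ρ) (h1 : ρ ≤ 1 / 2) :
    1 / Real.sqrt 5 ≤ 1 / ((m : ℝ) + 1 - m * ρ) + m * (c0 / ((m : ℝ) + 1 - (m - 1) * ρ)) - c0 * (m * ρ)
      + ep * ((m : ℝ) - 2) := by
  have sa := s5a
  have sb := s5b
  have ca := c0a
  have cb := c0b
  rw [inv5]
  rcases Nat.lt_or_ge m 3 with h3 | h3
  · interval_cases m
    · -- m = 1
      have t1 := tang (2 - ρ) 2 (by linarith) (by norm_num)
      have e : ((1 : ℕ) : ℝ) + 1 - ((1 : ℕ) : ℝ) * ρ = 2 - ρ := by push_cast; ring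
      have e2 : ((1 : ℕ) : ℝ) + 1 - (((1 : ℕ) : ℝ) - 1) * ρ = 2 := by push_cast; ring
      rw [e, e2]
      unfold ep
      push_cast
      nlinarith
    · -- m = 2
      have hs := s5sq
      have t1 := tang (3 - 2 * ρ) (Real.sqrt 5) (by linarith) (by linarith)
      have t2 := tang (3 - ρ) ((3 + Real.sqrt 5) / 2) (by linarith) (by linarith)
      have e : ((2 : ℕ) : ℝ) + 1 - ((2 : ℕ) : ℝ) * ρ = 3 - 2 * ρ := by push_cast; ring
      have e2 : ((2 : ℕ) : ℝ) + 1 - (((2 : ℕ) : ℝ) - 1) * ρ = 3 - ρ := by push_cast; ring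
      rw [e, e2]
      have e3 : 1 / Real.sqrt 5 - (3 - 2 * ρ - Real.sqrt 5) / Real.sqrt 5 ^ 2
          = Real.sqrt 5 / 5 + (2 * ρ - 3 + Real.sqrt 5) / 5 := by
        rw [inv5, pow_two, hs]; ring
      have e4 : 1 / ((3 + Real.sqrt 5) / 2) - (3 - ρ - (3 + Real.sqrt 5) / 2) / ((3 + Real.sqrt 5) / 2) ^ 2
          = (3 - Real.sqrt 5) / 2 + (ρ - (3 - Real.sqrt 5) / 2) * ((7 - 3 * Real.sqrt 5) / 2) := by
        have i1 : 1 / ((3 + Real.sqrt 5) / 2) = (3 - Real.sqrt 5) / 2 := by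
          rw [div_eq_iff (by positivity)]; nlinarith
        have i2 : 1 / ((3 + Real.sqrt 5) / 2) ^ 2 = (7 - 3 * Real.sqrt 5) / 2 := by
          rw [← one_div_pow, i1]; nlinarith
        rw [i1, div_eq_mul_one_div _ (((3 + Real.sqrt 5) / 2) ^ 2), i2]; ring
      rw [e3] at t1
      rw [e4] at t2
      have hc : c0 * (3 * Real.sqrt 5 - 5) = 2 / 5 := by
        unfold c0; nlinarith
      have t3 := mul_le_mul_of_nonneg_left t2 (show (0 : ℝ) ≤ 2 * c0 by linarith)
      push_cast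
      have e5 : 2 * (c0 / (3 - ρ)) = 2 * c0 * (1 / (3 - ρ)) := by ring
      rw [e5]
      have e6 : 2 * c0 * ((3 - Real.sqrt 5) / 2 + (ρ - (3 - Real.sqrt 5) / 2) * ((7 - 3 * Real.sqrt 5) / 2))
          - c0 * (2 * ρ) = - (ρ - (3 - Real.sqrt 5) / 2) * (c0 * (3 * Real.sqrt 5 - 5)) := by ring
      rw [hc] at e6
      linarith
  · have hm3 : (3 : ℝ) ≤ m := by exact_mod_cast h3
    set M : ℝ := (m : ℝ) with hM
    have t1 := tang (M + 1 - M * ρ) (M / 2 + 1) (by nlinarith) (by linarith)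
    have t2 := tang (M + 1 - (M - 1) * ρ) ((M + 3) / 2) (by nlinarith) (by linarith)
    have x0 : 0 < M / 2 + 1 := by linarith
    have z0 : 0 < (M + 3) / 2 := by linarith
    have b1 : 1 / (M / 2 + 1) ^ 2 ≤ 4 / 25 := by
      rw [div_le_div_iff₀ (by positivity) (by norm_num)]; nlinarith
    have b2 : (M - 1) / ((M + 3) / 2) ^ 2 ≤ 1 / 4 := by
      rw [div_le_div_iff₀ (by positivity) (by norm_num)]; nlinarith [sq_nonneg (M - 5)]
    have e1 : (M + 1 - M * ρ - (M / 2 + 1)) / (M / 2 + 1) ^ 2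
        = M * (1 / 2 - ρ) * (1 / (M / 2 + 1) ^ 2) := by ring
    have e2 : (M + 1 - (M - 1) * ρ - (M + 3) / 2) / ((M + 3) / 2) ^ 2
        = (1 / 2 - ρ) * ((M - 1) / ((M + 3) / 2) ^ 2) := by ring
    rw [e1] at t1
    rw [e2] at t2
    have hd : 0 ≤ 1 / 2 - ρ := by linarith
    have f1 : M * (1 / 2 - ρ) * (1 / (M / 2 + 1) ^ 2) ≤ M * (1 / 2 - ρ) * (4 / 25) :=
      mul_le_mul_of_nonneg_left b1 (by positivity)
    have f2 : (1 / 2 - ρ) * ((M - 1) / ((M + 3) / 2) ^ 2) ≤ (1 / 2 - ρ) * (1 / 4) :=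
      mul_le_mul_of_nonneg_left b2 hd
    have t3 : 1 / ((M + 3) / 2) - (1 / 2 - ρ) * (1 / 4) ≤ 1 / (M + 1 - (M - 1) * ρ) := by linarith
    have t4 := mul_le_mul_of_nonneg_left t3 (show (0 : ℝ) ≤ M * c0 by positivity)
    have e5 : M * (c0 / (M + 1 - (M - 1) * ρ)) = M * c0 * (1 / (M + 1 - (M - 1) * ρ)) := by ring
    rw [e5]
    have g1 : 0 ≤ M * (1 / 2 - ρ) * (c0 * (3 / 4) - 4 / 25) := by
      apply mul_nonneg (by positivity); linarith
    -- value at 1/2
    have v : Real.sqrt 5 / 5 ≤ 1 / (M / 2 + 1) + M * c0 * (1 / ((M + 3) / 2)) - c0 * (M * (1 / 2))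
        + ep * (M - 2) := by
      have e7 : 1 / (M / 2 + 1) + M * c0 * (1 / ((M + 3) / 2)) - c0 * (M * (1 / 2))
          = 2 / (M + 2) - c0 * (M * (M - 1) / (2 * (M + 3))) := by
        field_simp; ring
      rw [e7]
      have p0 : 0 ≤ M * (M - 1) / (2 * (M + 3)) := by
        apply div_nonneg
        · nlinarith
        · linarith
      have p1 := mul_le_mul_of_nonneg_right cb p0
      have p2 : (0.44722 : ℝ) ≤ 2 / (M + 2) - 0.234166 * (M * (M - 1) / (2 * (M + 3))) + ep * (M - 2) := by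
        unfold ep
        rw [← sub_nonneg]
        have : 2 / (M + 2) - 0.234166 * (M * (M - 1) / (2 * (M + 3))) + 167 / 1000 * (M - 2) - 0.44722
            = (2 * (M + 3) - 0.117083 * (M * (M - 1) * (M + 2))
              + (167 / 1000 * (M - 2) - 0.44722) * ((M + 2) * (M + 3))) / ((M + 2) * (M + 3)) := by
          field_simp; ring
        rw [this]
        apply div_nonneg
        · have hs : 0 ≤ M - 3 := by linarith
          have hpoly : 2 * (M + 3) - 0.117083 * (M * (M - 1) * (M + 2))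
              + (167 / 1000 * (M - 2) - 0.44722) * ((M + 2) * (M + 3))
              = (8091/100000 : ℝ) + (298007/1000000) * (M - 3) + (7719/20000) * (M - 3) ^ 2 + (49917/1000000) * (M - 3) ^ 3 := by ring
          rw [hpoly]
          positivity
        · positivity
      linarith
    linarith

/-! ### numbers attached to rooted trees -/

noncomputable def a1 (t : RT) : ℝ := (dat t).a.eval 1
noncomputable def b1 (t : RT) : ℝ := (dat t).b.eval 1
noncomputable def da (t : RT) : ℝ := (derivative (dat t).a).eval 1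
noncomputable def db (t : RT) : ℝ := (derivative (dat t).b).eval 1

theorem a1_leaf : a1 .leaf = 1 := by simp [a1, dat]
theorem b1_leaf : b1 .leaf = 1 := by simp [b1, dat]
theorem da_leaf : da .leaf = 0 := by simp [da, dat]
theorem db_leaf : db .leaf = 0 := by simp [db, dat]
theorem a1_graft (p c : RT) : a1 (.graft p c) = a1 p * (b1 c + a1 c) := by
  simp [a1, b1, dat, gr, Dat.u]
theorem b1_graft (p c : RT) : b1 (.graft p c) = b1 p * (b1 c + a1 c) + a1 p * b1 c := by
  simp [a1, b1, dat, gr, Dat.u]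
theorem da_graft (p c : RT) : da (.graft p c) = da p * (b1 c + a1 c) + a1 p * (db c + a1 c + da c) := by
  simp only [a1, b1, da, db, dat, gr, Dat.u, derivative_mul, derivative_add, derivative_X, eval_add,
    eval_mul, eval_X, one_mul]
  ring
theorem db_graft (p c : RT) : db (.graft p c) = db p * (b1 c + a1 c) + b1 p * (db c + a1 c + da c)
    + a1 p * b1 c + da p * b1 c + a1 p * db c := by
  simp only [a1, b1, da, db, dat, gr, Dat.u, derivative_mul, derivative_add, derivative_X, eval_add,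
    eval_mul, eval_X, one_mul]
  ring

theorem ab_pos (t : RT) : 0 < a1 t ∧ a1 t ≤ b1 t := by
  induction t with
  | leaf => rw [a1_leaf, b1_leaf]; norm_num
  | graft p c ihp ihc =>
    rw [a1_graft, b1_graft]
    obtain ⟨h1, h2⟩ := ihp
    obtain ⟨h3, h4⟩ := ihc
    constructor
    · apply mul_pos h1; linarith
    · nlinarith

noncomputable def qq (t : RT) : ℝ := a1 t / (a1 t + b1 t)

def kk : RT → ℕ
  | .leaf => 0
  | .graft p _ => kk p + 1

noncomputable def KK : RT → ℝ → ℝ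
  | .leaf, _ => 0
  | .graft p c, A => KK p A + c0 * (1 / (A + qq c) - qq c) + ep

theorem qq_pos (t : RT) : 0 < qq t ∧ qq t ≤ 1 / 2 := by
  obtain ⟨h1, h2⟩ := ab_pos t
  have hb : 0 < b1 t := by linarith
  unfold qq
  constructor
  · positivity
  · rw [div_le_div_iff₀ (by linarith) (by norm_num)]; linarith

theorem ba_graft (p c : RT) : b1 (.graft p c) / a1 (.graft p c) = b1 p / a1 p + 1 - qq c := by
  obtain ⟨h1, h2⟩ := ab_pos p
  obtain ⟨h3, h4⟩ := ab_pos c
  rw [a1_graft, b1_graft]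
  unfold qq
  have : 0 < b1 p := by linarith
  have : 0 < b1 c := by linarith
  field_simp
  ring

theorem KK_lower (t : RT) (A ρ : ℝ) (hA : 0 < A) (hρ : 0 ≤ ρ) :
    kk t * (c0 / (A + ρ) + c0 * ρ / (A + ρ) ^ 2 + ep)
      - c0 * (1 + 1 / (A + ρ) ^ 2) * (kk t + 1 - b1 t / a1 t) ≤ KK t A := by
  induction t with
  | leaf => simp [kk, KK, a1_leaf, b1_leaf]
  | graft p c ihp ihc =>
    rw [ba_graft]
    simp only [kk, KK]
    have hq := qq_pos c
    have t1 := tang (A + qq c) (A + ρ) (by linarith) (by linarith)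
    have hc := c0a
    have t2 := mul_le_mul_of_nonneg_left t1 (show (0 : ℝ) ≤ c0 by linarith)
    have e : c0 * (1 / (A + ρ) - (A + qq c - (A + ρ)) / (A + ρ) ^ 2)
        = c0 / (A + ρ) + c0 * ρ / (A + ρ) ^ 2 - c0 * (1 / (A + ρ) ^ 2) * qq c := by ring
    rw [e] at t2
    push_cast
    nlinarith

theorem q_sum (t : RT) : 0 ≤ (kk t : ℝ) + 1 - b1 t / a1 t ∧ (kk t : ℝ) + 1 - b1 t / a1 t ≤ kk t / 2 := by
  induction t with
  | leaf => simp [kk, a1_leaf, b1_leaf]
  | graft p c ihp ihc =>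
    rw [ba_graft]
    simp only [kk]
    have hq := qq_pos c
    push_cast
    constructor <;> linarith [ihp.1, ihp.2]

/-- local inequality at a non-root vertex -/
theorem loc (t : RT) (κ : ℝ) (h1 : 1 / 2 ≤ κ) (h2 : κ < 1) :
    1 / Real.sqrt 5 ≤ 1 / (b1 t / a1 t + κ) + KK t (b1 t / a1 t + κ) + c0 * (qq t - (1 - κ)) - ep := by
  obtain ⟨ha, hab⟩ := ab_pos t
  obtain ⟨s1, s2⟩ := q_sum t
  have hba : 1 ≤ b1 t / a1 t := by rw [le_div_iff₀ ha]; linarith
  set A := b1 t / a1 t + κ with hA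
  set m := kk t + 1 with hm
  have hA0 : 0 < A := by linarith
  set ρ : ℝ := ((m : ℝ) + 1 - A) / m with hρ
  have hm0 : (0 : ℝ) < m := by positivity
  have hmk : (m : ℝ) = kk t + 1 := by rw [hm]; push_cast; ring
  have hρm : m * ρ = (m : ℝ) + 1 - A := by rw [hρ]; field_simp
  have hρ0 : 0 ≤ ρ := by
    apply div_nonneg _ hm0.le
    rw [hmk, hA]; linarith
  have hρ1 : ρ ≤ 1 / 2 := by
    rw [hρ, div_le_iff₀ hm0, hmk, hA]; linarith
  have n := num m (by omega) ρ hρ0 hρ1
  have e1 : (m : ℝ) + 1 - m * ρ = A := by rw [hρm]; ring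
  have e2 : (m : ℝ) + 1 - (m - 1) * ρ = A + ρ := by
    have : (m : ℝ) + 1 - (m - 1) * ρ = (m : ℝ) + 1 - m * ρ + ρ := by ring
    rw [this, e1]
  rw [e1, e2] at n
  have kl := KK_lower t A ρ hA0 hρ0
  have hq : qq t = 1 / (A + (1 - κ)) := by
    have hb : 0 < b1 t := by linarith
    have h3 : A + (1 - κ) = (a1 t + b1 t) / a1 t := by
      rw [hA]; field_simp; ring
    rw [h3]; unfold qq
    field_simp
  have t1 := tang (A + (1 - κ)) (A + ρ) (by linarith) (by linarith)
  have hc := c0a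
  have t2 := mul_le_mul_of_nonneg_left t1 (show (0 : ℝ) ≤ c0 by linarith)
  have e : c0 * (1 / (A + ρ) - (A + (1 - κ) - (A + ρ)) / (A + ρ) ^ 2)
      = c0 / (A + ρ) + c0 * ρ / (A + ρ) ^ 2 - c0 * (1 / (A + ρ) ^ 2) * (1 - κ) := by ring
  rw [e, ← hq] at t2
  have hba' : b1 t / a1 t = A - κ := by rw [hA]; ring
  rw [hba'] at kl
  have hk : (kk t : ℝ) = m - 1 := by rw [hmk]; ring
  rw [hk] at kl
  -- sum
  have key : ((m : ℝ) - 1) * (c0 / (A + ρ) + c0 * ρ / (A + ρ) ^ 2 + ep)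
      - c0 * (1 + 1 / (A + ρ) ^ 2) * ((m : ℝ) - 1 + 1 - (A - κ))
      + (c0 / (A + ρ) + c0 * ρ / (A + ρ) ^ 2 - c0 * (1 / (A + ρ) ^ 2) * (1 - κ)) - c0 * (1 - κ)
      = m * (c0 / (A + ρ)) - c0 * (m * ρ) + ep * ((m : ℝ) - 1) := by
    have hA' : A = (m : ℝ) + 1 - m * ρ := e1.symm
    have h3 : (m : ℝ) - 1 + 1 - (A - κ) = m * ρ - (1 - κ) := by rw [hA']; ring
    rw [h3]
    ring
  linarith

/-- local inequality at the root -/
theorem loc0 (t : RT) : 1 / Real.sqrt 5 ≤ 1 / (b1 t / a1 t) + KK t (b1 t / a1 t) := by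
  obtain ⟨ha, hab⟩ := ab_pos t
  obtain ⟨s1, s2⟩ := q_sum t
  have hba : 1 ≤ b1 t / a1 t := by rw [le_div_iff₀ ha]; linarith
  by_cases hk : kk t = 0
  · cases t with
    | leaf =>
      rw [a1_leaf, b1_leaf, inv5]
      have := s5b
      simp [KK]; linarith
    | graft p c => simp [kk] at hk
  set A := b1 t / a1 t with hA
  set m := kk t with hm
  have hA0 : 0 < A := by linarith
  set ρ : ℝ := ((m : ℝ) + 1 - A) / m with hρ
  have hm0 : (0 : ℝ) < m := by exact_mod_cast Nat.pos_of_ne_zero hk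
  have hρm : m * ρ = (m : ℝ) + 1 - A := by rw [hρ]; field_simp
  have hρ0 : 0 ≤ ρ := div_nonneg s1 hm0.le
  have hρ1 : ρ ≤ 1 / 2 := by
    rw [hρ, div_le_iff₀ hm0]; linarith
  have n := num m (by omega) ρ hρ0 hρ1
  have e1 : (m : ℝ) + 1 - m * ρ = A := by rw [hρm]; ring
  have e2 : (m : ℝ) + 1 - (m - 1) * ρ = A + ρ := by
    have : (m : ℝ) + 1 - (m - 1) * ρ = (m : ℝ) + 1 - m * ρ + ρ := by ring
    rw [this, e1]
  rw [e1, e2] at n
  have kl := KK_lower t A ρ hA0 hρ0
  rw [← hA, ← hm] at kl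
  have key : (m : ℝ) * (c0 / (A + ρ) + c0 * ρ / (A + ρ) ^ 2 + ep)
      - c0 * (1 + 1 / (A + ρ) ^ 2) * ((m : ℝ) + 1 - A)
      = m * (c0 / (A + ρ)) - c0 * (m * ρ) + ep * m := by
    rw [← hρm]; ring
  rw [key] at kl
  have : 0 < ep := by unfold ep; norm_num
  linarith

/-- the main mean estimate -/
theorem star_ineq (t : RT) : ∀ κ : ℝ, 0 ≤ κ →
    db t + κ * da t + (1 + κ) * a1 t ≤ (b1 t + κ * a1 t) *
      ((1 - 1 / Real.sqrt 5) * t.e + 1 - KK t (b1 t / a1 t + κ)) := by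
  induction t with
  | leaf =>
    intro κ hκ
    simp [a1_leaf, b1_leaf, da_leaf, db_leaf, KK, RT.e]
  | graft p c ihp ihc =>
    intro κ hκ
    obtain ⟨hpa, hpab⟩ := ab_pos p
    obtain ⟨hca, hcab⟩ := ab_pos c
    have hpb : 0 < b1 p := by linarith
    have hcb : 0 < b1 c := by linarith
    set R := b1 p + (1 + κ) * a1 p with hR
    have hRp : 0 < R := by positivity
    set κc := (b1 p + κ * a1 p) / R with hκc
    have hκcR : κc * R = b1 p + κ * a1 p := by rw [hκc]; field_simp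
    have hκ1 : 1 / 2 ≤ κc := by
      rw [hκc, div_le_div_iff₀ (by norm_num) hRp, hR]; nlinarith
    have hκ2 : κc < 1 := by
      rw [hκc, div_lt_one hRp, hR]; nlinarith
    set κp := κ + b1 c / (b1 c + a1 c) with hκp
    have hκp0 : 0 ≤ κp := by positivity
    have hu : 0 < b1 c + a1 c := by positivity
    have hκpu : κp * (b1 c + a1 c) = κ * (b1 c + a1 c) + b1 c := by rw [hκp]; field_simp
    have I1 := ihp κp hκp0
    have I2 := ihc κc (by linarith)
    have Lc := loc c κc hκ1 hκ2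
    have hAA : b1 (.graft p c) / a1 (.graft p c) + κ = b1 p / a1 p + κp := by
      rw [ba_graft, hκp]
      unfold qq
      field_simp
      ring
    have hK : KK (.graft p c) (b1 (.graft p c) / a1 (.graft p c) + κ)
        = KK p (b1 p / a1 p + κp) + c0 * ((1 - κc) - qq c) + ep := by
      rw [hAA]
      simp only [KK]
      have : 1 / (b1 p / a1 p + κp + qq c) = 1 - κc := by
        rw [hκp, hκc]
        unfold qq
        rw [hR]
        have h1 : b1 p / a1 p + (κ + b1 c / (b1 c + a1 c)) + a1 c / (a1 c + b1 c)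
            = (b1 p + (1 + κ) * a1 p) / a1 p := by
          field_simp; ring
        rw [h1]
        field_simp
        ring
      rw [this]
    rw [hK, a1_graft, b1_graft, da_graft, db_graft]
    simp only [RT.e]
    push_cast
    set T := b1 p * (b1 c + a1 c) + a1 p * b1 c + κ * (a1 p * (b1 c + a1 c)) with hT
    have hTp : 0 < T := by positivity
    have hT1 : T = (b1 c + a1 c) * (b1 p + κp * a1 p) := by
      have : (b1 c + a1 c) * (b1 p + κp * a1 p) = (b1 c + a1 c) * b1 p + a1 p * (κp * (b1 c + a1 c)) := by ring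
      rw [this, hκpu, hT]; ring
    have hT2 : T = R * (b1 c + κc * a1 c) := by
      have : R * (b1 c + κc * a1 c) = R * b1 c + a1 c * (κc * R) := by ring
      rw [this, hκcR, hT, hR]; ring
    have J1 := mul_le_mul_of_nonneg_left I1 hu.le
    have J2 := mul_le_mul_of_nonneg_left I2 hRp.le
    rw [← mul_assoc, ← hT1] at J1
    rw [← mul_assoc, ← hT2] at J2
    have hRac : R * a1 c = T * (1 / (b1 c / a1 c + κc)) := by
      rw [hT2]
      have : 0 < b1 c + κc * a1 c := by positivity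
      have h2 : b1 c / a1 c + κc = (b1 c + κc * a1 c) / a1 c := by field_simp
      rw [h2]; field_simp
    have Lc' := mul_le_mul_of_nonneg_left Lc hTp.le
    -- combine
    have expand : db p * (b1 c + a1 c) + b1 p * (db c + a1 c + da c) + a1 p * b1 c + da p * b1 c
        + a1 p * db c + κ * (da p * (b1 c + a1 c) + a1 p * (db c + a1 c + da c))
        + (1 + κ) * (a1 p * (b1 c + a1 c))
        = (b1 c + a1 c) * (db p + κp * da p + (1 + κp) * a1 p)
          + R * (db c + κc * da c + (1 + κc) * a1 c) - R * a1 c := by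
      have x1 : (b1 c + a1 c) * (db p + κp * da p + (1 + κp) * a1 p)
          = (b1 c + a1 c) * db p + da p * (κp * (b1 c + a1 c)) + a1 p * (b1 c + a1 c)
            + a1 p * (κp * (b1 c + a1 c)) := by ring
      have x2 : R * (db c + κc * da c + (1 + κc) * a1 c) - R * a1 c
          = R * db c + da c * (κc * R) + a1 c * (κc * R) := by ring
      rw [add_sub_assoc, x2, x1, hκpu, hκcR, hR]
      ring
    rw [expand, hRac]
    set S5 := 1 / Real.sqrt 5 with hS5
    set A' := 1 / (b1 c / a1 c + κc) with hA'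
    set K1 := KK p (b1 p / a1 p + κp) with hK1
    set K2 := KK c (b1 c / a1 c + κc) with hK2
    linarith

theorem mean_bound (t : RT) : db t ≤ (1 - 1 / Real.sqrt 5) * (t.e + 1) * b1 t := by
  have h := star_ineq t 0 le_rfl
  have l := loc0 t
  obtain ⟨ha, hab⟩ := ab_pos t
  have hb : 0 < b1 t := by linarith
  simp only [zero_mul, add_zero, one_mul] at h
  have l2 := mul_le_mul_of_nonneg_left l hb.le
  have e : b1 t * (1 / (b1 t / a1 t) + KK t (b1 t / a1 t)) = a1 t + b1 t * KK t (b1 t / a1 t) := by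
    field_simp
  rw [e] at l2
  nlinarith

end Pool.Agent.H445R3.PK
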