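import Pool.Agent.H445R3.PK5

set_option autoImplicit false
set_option linter.unusedSimpArgs false

open Polynomial

namespace Pool.Agent.H445R3.PK

/-! ### coefficients of the cone -/

theorem Cn_coeff_nonneg {T : ℤ} {f : ℝ[X]} (hf : f ∈ Cn T) (k : ℕ) : 0 ≤ f.coeff k := by
  unfold Cn at hf
  induction hf using AddSubmonoid.closure_induction with
  | mem x hx =>
    obtain ⟨i, j, hij, rfl⟩ := hx
    rw [coeff_X_pow_mul']
    split_ifs
    · rw [coeff_one_add_X_pow]; positivity
    · exact le_rfl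
  | zero => simp
  | add x y _ _ h1 h2 => rw [coeff_add]; linarith

theorem choose_mono_half (j r : ℕ) (h : 2 * (r + 1) ≤ j + 1) : j.choose r ≤ j.choose (r + 1) := by
  have h1 := Nat.choose_succ_right_eq j r
  have h2 : (r + 1) ≤ j - r := by omega
  have h3 : j.choose r * (r + 1) ≤ j.choose (r + 1) * (r + 1) := by
    rw [h1]; exact Nat.mul_le_mul_left _ h2
  exact Nat.le_of_mul_le_mul_right h3 (Nat.succ_pos r)

theorem Cn_coeff_mono {T : ℤ} {f : ℝ[X]} (hf : f ∈ Cn T) (m : ℕ) (hm : 2 * ((m : ℤ) + 1) ≤ T + 1) :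
    f.coeff m ≤ f.coeff (m + 1) := by
  unfold Cn at hf
  induction hf using AddSubmonoid.closure_induction with
  | mem x hx =>
    obtain ⟨i, j, hij, rfl⟩ := hx
    rw [coeff_X_pow_mul', coeff_X_pow_mul']
    by_cases h1 : i ≤ m
    · rw [if_pos h1, if_pos (by omega), coeff_one_add_X_pow, coeff_one_add_X_pow]
      have h2 : m + 1 - i = (m - i) + 1 := by omega
      rw [h2]
      have := choose_mono_half j (m - i) (by omega)
      exact_mod_cast this
    · rw [if_neg h1]
      split_ifs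
      · rw [coeff_one_add_X_pow]; positivity
      · exact le_rfl
  | zero => simp
  | add x y _ _ h1 h2 => rw [coeff_add, coeff_add]; linarith

/-! ### the star -/

theorem star_coeff (n k : ℕ) : (Pstar n).coeff (k + 2)
    = ((n : ℝ) + 1) * n.choose (k + 2) + 4 * n * n.choose (k + 1) - 4 * n.choose k := by
  have : Pstar n = C ((n : ℝ) + 1) * (1 + X) ^ n + C (4 * (n : ℝ)) * (X * (1 + X) ^ n)
      - C (4 : ℝ) * (X ^ 2 * (1 + X) ^ n) := by
    unfold Pstar
    simp only [map_add, map_mul, map_natCast, map_one, map_ofNat]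
    ring
  rw [this, coeff_sub, coeff_add, coeff_C_mul, coeff_C_mul, coeff_C_mul, coeff_one_add_X_pow,
    coeff_X_mul, coeff_one_add_X_pow, coeff_X_pow_mul', if_pos (by omega)]
  have : k + 2 - 2 = k := by omega
  rw [this, coeff_one_add_X_pow]

theorem star_coeff1 (n : ℕ) : (Pstar n).coeff 1 = ((n : ℝ) + 1) * n + 4 * n := by
  have : Pstar n = C ((n : ℝ) + 1) * (1 + X) ^ n + C (4 * (n : ℝ)) * (X * (1 + X) ^ n)
      - C (4 : ℝ) * (X ^ 2 * (1 + X) ^ n) := by
    unfold Pstar
    simp only [map_add, map_mul, map_natCast, map_one, map_ofNat]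
    ring
  rw [this, coeff_sub, coeff_add, coeff_C_mul, coeff_C_mul, coeff_C_mul, coeff_one_add_X_pow,
    coeff_X_mul, coeff_one_add_X_pow, coeff_X_pow_mul', if_neg (by omega)]
  simp

theorem star_coeff0 (n : ℕ) : (Pstar n).coeff 0 = (n : ℝ) + 1 := by
  have : Pstar n = C ((n : ℝ) + 1) * (1 + X) ^ n + C (4 * (n : ℝ)) * (X * (1 + X) ^ n)
      - C (4 : ℝ) * (X ^ 2 * (1 + X) ^ n) := by
    unfold Pstar
    simp only [map_add, map_mul, map_natCast, map_one, map_ofNat]
    ring
  rw [this, coeff_sub, coeff_add, coeff_C_mul, coeff_C_mul, coeff_C_mul, coeff_one_add_X_pow,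
    coeff_X_pow_mul', if_neg (by omega)]
  simp

theorem star_nonneg (n k : ℕ) (hk : k ≤ n) : 0 ≤ (Pstar n).coeff k := by
  match k with
  | 0 => rw [star_coeff0]; positivity
  | 1 => rw [star_coeff1]; positivity
  | k + 2 =>
    rw [star_coeff]
    have h1 := Nat.choose_succ_right_eq n k
    have h2 : n.choose k ≤ n.choose (k + 1) * n := by
      calc n.choose k ≤ n.choose k * (n - k) := Nat.le_mul_of_pos_right _ (by omega)
        _ = n.choose (k + 1) * (k + 1) := h1.symm
        _ ≤ _ := Nat.mul_le_mul_left _ (by omega)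
    have h3 : (n.choose k : ℝ) ≤ n.choose (k + 1) * n := by exact_mod_cast h2
    have h4 : (0 : ℝ) ≤ ((n : ℝ) + 1) * n.choose (k + 2) := by positivity
    linarith

theorem star_mono (n m : ℕ) (hn : 1 ≤ n) (hm : 2 * (m + 1) ≤ n + 2) :
    (Pstar n).coeff m ≤ (Pstar n).coeff (m + 1) := by
  match m with
  | 0 =>
    rw [star_coeff0, star_coeff1]
    have : (1 : ℝ) ≤ n := by exact_mod_cast hn
    nlinarith
  | m + 1 =>
    rw [show m + 1 + 1 = m + 2 from rfl, star_coeff]
    have hup : (Pstar n).coeff (m + 1) ≤ ((n : ℝ) + 1) * n.choose (m + 1) + 4 * n * n.choose m := by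
      cases m with
      | zero => rw [star_coeff1]; simp
      | succ m =>
        rw [show m + 1 + 1 = m + 2 from rfl, star_coeff]
        have : (0 : ℝ) ≤ n.choose m := by positivity
        linarith
    have h1 := Nat.choose_succ_right_eq n m
    have h2 := Nat.choose_succ_right_eq n (m + 1)
    obtain ⟨d, hd⟩ : ∃ d : ℕ, n = 2 * m + 2 + d := ⟨n - (2 * m + 2), by omega⟩
    have e1 : n - m = m + 2 + d := by omega
    have e2 : n - (m + 1) = m + 1 + d := by omega
    rw [e1] at h1
    rw [e2] at h2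
    have h1' : (n.choose (m + 1) : ℝ) * (m + 1) = n.choose m * (m + 2 + d) := by exact_mod_cast h1
    have h2' : (n.choose (m + 2) : ℝ) * (m + 2) = n.choose (m + 1) * (m + 1 + d) := by exact_mod_cast h2
    have hw : (0 : ℝ) ≤ n.choose m := by positivity
    set w : ℝ := (n.choose m : ℝ)
    set u : ℝ := (n.choose (m + 1) : ℝ)
    set v : ℝ := (n.choose (m + 2) : ℝ)
    have hnr : (n : ℝ) = 2 * m + 2 + d := by exact_mod_cast hd
    have hm0 : (0 : ℝ) ≤ m := by positivity
    have hd0 : (0 : ℝ) ≤ d := by positivity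
    have hu : u = w * (m + 2 + d) / (m + 1) := by field_simp; linarith
    have hv : v = u * (m + 1 + d) / (m + 2) := by field_simp; linarith
    refine hup.trans ?_
    rw [← sub_nonneg, hv, hu, hnr]
    have e : ((2 * (m : ℝ) + 2 + d) + 1) * (w * (m + 2 + d) / (m + 1) * (m + 1 + d) / (m + 2))
        + 4 * (2 * (m : ℝ) + 2 + d) * (w * (m + 2 + d) / (m + 1)) - 4 * w
        - (((2 * (m : ℝ) + 2 + d) + 1) * (w * (m + 2 + d) / (m + 1)) + 4 * (2 * (m : ℝ) + 2 + d) * w)
        = w * (((2 * (m : ℝ) + 3 + d) * (m + 2 + d) * (d - 1)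
          + 4 * (2 * (m : ℝ) + 2 + d) * (m + 2) * (d + 1) - 4 * (m + 2) * (m + 1)))
            / ((m + 1) * (m + 2)) := by
      field_simp
      ring
    rw [e]
    apply div_nonneg _ (by positivity)
    apply mul_nonneg hw
    have : (2 * (m : ℝ) + 3 + d) * (m + 2 + d) * (d - 1)
          + 4 * (2 * (m : ℝ) + 2 + d) * (m + 2) * (d + 1) - 4 * (m + 2) * (m + 1)
        = d ^ 3 + (7 * m + 12) * d ^ 2 + (10 * (m : ℝ) ^ 2 + 32 * m + 25) * d
          + (2 * (m : ℝ) ^ 2 + 5 * m + 2) := by ring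
    rw [this]
    positivity

/-! ### monotonicity of the tree polynomial -/

theorem PP_coeff_nonneg (n : ℕ) (t : RT) (ht : t.e = n + 1) (k : ℕ) (hk : k ≤ n) :
    0 ≤ (PP t).coeff k := by
  have h1 := Cn_coeff_nonneg (PP_sub_star n t ht) k
  rw [coeff_sub] at h1
  have := star_nonneg n k hk
  linarith

theorem PP_lower (n : ℕ) (hn : 1 ≤ n) (t : RT) (ht : t.e = n + 1) (m : ℕ) (hm : 2 * (m + 1) ≤ n + 2) :
    (PP t).coeff m ≤ (PP t).coeff (m + 1) := by
  have h1 := Cn_coeff_mono (PP_sub_star n t ht) m (by omega)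
  rw [coeff_sub, coeff_sub] at h1
  have := star_mono n m hn hm
  linarith

theorem b_coeff_pos (t : RT) (k : ℕ) (hk : k ≤ t.e) : 0 < (dat t).b.coeff k := by
  obtain ⟨_, hw, _, hd⟩ := basic t
  have h1 := Cn_coeff_nonneg hd k
  have h2 := Cn_coeff_nonneg (X_mul hw le_rfl) k
  rw [coeff_sub, coeff_one_add_X_pow] at h1
  rw [b_eq, coeff_add]
  have h3 : 0 < t.e.choose k := Nat.choose_pos hk
  have h4 : (0 : ℝ) < t.e.choose k := by exact_mod_cast h3
  linarith

theorem PP_upper (n : ℕ) (t : RT) (ht : t.e = n + 1) (k : ℕ) (hk : k + 1 ≤ n)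
    (hK : (1 - 1 / Real.sqrt 5) * ((n : ℝ) + 2) ≤ k) :
    (PP t).coeff (k + 1) ≤ (PP t).coeff k := by
  obtain ⟨L, τ, T⟩ := exTD t
  obtain ⟨μ, s, hμ, hb, hP⟩ := spectral T
  have hmean : ∑ i, μ i / (1 + μ i) = db t / b1 t := by
    obtain ⟨ha, hab⟩ := ab_pos t
    have hb0 : 0 < b1 t := by linarith
    rw [eq_div_iff hb0.ne', Finset.sum_mul]
    have h1 : db t = ∑ i, (∏ j ∈ Finset.univ.erase i, (1 + C (μ j) * X : ℝ[X])).eval 1 * μ i := by
      unfold db
      rw [hb, derivative_prod_finset, eval_finsetSum]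
      refine Finset.sum_congr rfl (fun i _ => ?_)
      simp
    rw [h1]
    refine Finset.sum_congr rfl (fun i _ => ?_)
    have h2 : b1 t = (∏ j ∈ Finset.univ.erase i, (1 + C (μ j) * X : ℝ[X])).eval 1 * (1 + μ i) := by
      unfold b1
      rw [hb, ← Finset.prod_erase_mul _ _ (Finset.mem_univ i), eval_mul]
      simp
    have h3 := hμ i
    rw [h2]
    field_simp
  have hm := mean_bound t
  obtain ⟨ha, hab⟩ := ab_pos t
  have hb0 : 0 < b1 t := by linarith
  have hmean2 : ∑ i, μ i / (1 + μ i) ≤ k := by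
    rw [hmean, div_le_iff₀ hb0]
    have e : ((t.e : ℝ) + 1) = (n : ℝ) + 2 := by rw [ht]; push_cast; ring
    rw [e] at hm
    exact hm.trans (mul_le_mul_of_nonneg_right hK hb0.le)
  have hD := darroch μ hμ k hmean2
  rw [← hb] at hD
  have hR := ratio μ s hμ (dat t).b (PP t) t.e hb hP k
  have hbk := b_coeff_pos t k (by omega)
  have hPk := PP_coeff_nonneg n t ht k (by omega)
  have h5 := mul_le_mul_of_nonneg_left hD hPk
  exact le_of_mul_le_mul_right (hR.trans h5) hbk

/-! ### link with the characteristic polynomial -/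

theorem charpoly_eval {V : Type} [Fintype V] [DecidableEq V] {D : V → V → ℝ} {r : V} {L : V → V → ℝ}
    {τ : V → ℝ} {t : RT} (T : TD D r L τ t) (he : 1 ≤ t.e) (y : ℝ) (hy : 0 < y) :
    (Matrix.of D).charpoly.eval (2 * y)
      = ((-1) ^ Fintype.card V * (Matrix.of D).det / t.e) * (PP t).eval y := by
  obtain ⟨f, h, hf, hh, hd, -, -, -, hw, -, hb⟩ := T.sol y hy
  have he' : (0 : ℝ) < t.e := by exact_mod_cast he
  set K0 : Matrix V V ℝ := Matrix.of fun u v => - L u v / 2 + τ u * τ v / (2 * t.e) with hK0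
  have hKD : K0 * Matrix.of D = 1 := by
    ext u v
    rw [Matrix.mul_apply]
    simp only [hK0, Matrix.of_apply]
    have e1 : ∑ w, (- L u w / 2 + τ u * τ w / (2 * t.e)) * D w v
        = - (∑ w, L u w * D w v) / 2 + τ u / (2 * t.e) * ∑ w, D v w * τ w := by
      rw [Finset.mul_sum, ← Finset.sum_neg_distrib, Finset.sum_div, ← Finset.sum_add_distrib]
      refine Finset.sum_congr rfl (fun w _ => ?_)
      rw [T.dsymm v w]; ring
    rw [e1, T.ld, T.dtau, Matrix.one_apply]
    split_ifs <;> field_simp <;> ring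
  have h1 : Matrix.scalar V (2 * y) - Matrix.of D = ((2 * y) • K0 - 1) * Matrix.of D := by
    rw [sub_mul, one_mul, Matrix.smul_mul, hKD]
    congr 1
    ext i j
    simp [Matrix.scalar_apply, Matrix.diagonal_apply, Matrix.one_apply]
  have h2 : (2 * y) • K0 - 1 = - ((1 + y • Matrix.of L)
      * (1 + Matrix.replicateCol Unit h * Matrix.replicateRow Unit ((- y / t.e) • τ))) := by
    have e1 : (1 + y • Matrix.of L) * Matrix.replicateCol Unit h = Matrix.replicateCol Unit τ := by
      ext u i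
      rw [Matrix.mul_apply]
      simp only [Matrix.replicateCol_apply]
      rw [← hh u]
      simp [Matrix.one_apply, add_mul, Finset.sum_add_distrib, Finset.mul_sum, mul_assoc]
    rw [mul_add, mul_one, ← Matrix.mul_assoc, e1]
    ext u v
    simp [hK0, Matrix.mul_apply]
    ring
  rw [Matrix.eval_charpoly, h1, Matrix.det_mul, h2, Matrix.det_neg, Matrix.det_mul,
    Matrix.det_one_add_replicateCol_mul_replicateRow, hd]
  have h3 : ((- y / (t.e : ℝ)) • τ) ⬝ᵥ h = - y / t.e * ∑ v, τ v * h v := by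
    simp [dotProduct, Finset.mul_sum, mul_assoc]
  rw [h3]
  have h4 : (dat t).b.eval y * (1 + - y / t.e * ∑ v, τ v * h v) = (PP t).eval y / t.e := by
    field_simp
    linarith
  rw [h4]
  ring

theorem charpoly_coeff (t : RT) (he : 1 ≤ t.e) : ∃ κ : ℝ, κ ≠ 0 ∧ ∀ k,
    (Matrix.of fun u v : VV t => (dst t u v : ℝ)).charpoly.coeff k * 2 ^ k = κ * (PP t).coeff k := by
  obtain ⟨L, τ, T⟩ := exTD t
  set A := (Matrix.of fun u v : VV t => (dst t u v : ℝ)) with hA
  set κ : ℝ := (-1) ^ Fintype.card (VV t) * A.det / t.e with hκ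
  have hpoly : A.charpoly.comp (C 2 * X) = C κ * PP t := by
    apply Polynomial.eq_of_infinite_eval_eq
    refine (Set.Ioi_infinite (0 : ℝ)).mono ?_
    intro y hy
    have := charpoly_eval T he y hy
    show (A.charpoly.comp (C 2 * X)).eval y = (C κ * PP t).eval y
    rw [eval_comp, eval_mul, eval_mul, eval_C, eval_C, eval_X]
    exact this
  have hcoef : ∀ k, A.charpoly.coeff k * 2 ^ k = κ * (PP t).coeff k := by
    intro k
    have := congrArg (fun p => p.coeff k) hpoly
    simp only [coeff_C_mul] at this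
    rw [comp_C_mul_X_coeff] at this
    exact this
  refine ⟨κ, ?_, hcoef⟩
  intro h0
  have h1 := hcoef (Fintype.card (VV t))
  rw [h0, zero_mul] at h1
  have h2 : A.charpoly.coeff (Fintype.card (VV t)) = 1 := by
    have := A.charpoly_monic
    rw [Polynomial.Monic, Polynomial.leadingCoeff, Matrix.charpoly_natDegree_eq_dim] at this
    exact this
  rw [h2] at h1
  have : (2 : ℝ) ^ Fintype.card (VV t) ≠ 0 := by positivity
  simp at h1

end Pool.Agent.H445R3.PK
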