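import Pool.Agent.H118R4.EP.Base

/-!
# Powers of `π` with exponents built from `π` and `log π`

Baker's theorem and the strong six exponentials theorem (starting library, `H297R2`, `H301R2`)
applied to `log π`.
-/

set_option autoImplicit false

namespace Pool.Agent.H445R3.PP

open Pool.Agent.H462R2.PiE Pool.Agent.H301R2.SSE Pool.Agent.H340R2 Pool.Agent.H118R4.EP

/-- `log π` as a complex number -/
noncomputable abbrev G : ℂ := ((Real.log Real.pi : ℝ) : ℂ)

theorem logpi_pos : 0 < Real.log Real.pi := Real.log_pos (by linarith [Real.pi_gt_three])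

theorem G_ne : G ≠ 0 := Complex.ofReal_ne_zero.mpr logpi_pos.ne'

theorem P_ne : P ≠ 0 := Complex.ofReal_ne_zero.mpr Real.pi_ne_zero

/-- powers of `π` are transcendental -/
theorem P_pow_tr {k : ℕ} (hk : 0 < k) : Transcendental ℚ (P ^ k) := by
  intro h
  exact LW.transcendental_pi (alg_ofReal_iff.mp (IsAlgebraic.of_pow hk h))

/-- Baker for `1, ω, ρ ω` with transcendental `ρ` -/
theorem two_logs {ω ρ : ℂ} (hω : ω ≠ 0) (hρ : Transcendental ℚ ρ)
    (h1 : IsAlgebraic ℚ (Complex.exp ω)) (h2 : IsAlgebraic ℚ (Complex.exp (ρ * ω)))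
    (c₀ c₁ c₂ : ℂ) (k0 : IsAlgebraic ℚ c₀) (k1 : IsAlgebraic ℚ c₁) (k2 : IsAlgebraic ℚ c₂)
    (hs : c₀ + c₁ * ω + c₂ * (ρ * ω) = 0) : c₀ = 0 ∧ c₁ = 0 ∧ c₂ = 0 := by
  have hli : LinearIndependent ℚ (![ω, ρ * ω] : Fin 2 → ℂ) := by
    rw [LinearIndependent.pair_iff]
    intro s t hst
    simp only [Rat.smul_def] at hst
    have h3 : ((s : ℂ) + t * ρ) * ω = 0 := by linear_combination hst
    have h4 : (s : ℂ) + t * ρ = 0 := (mul_eq_zero.mp h3).resolve_right hω
    by_cases ht : t = 0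
    · subst ht
      refine ⟨?_, rfl⟩
      have h5 : (s : ℂ) = 0 := by simpa using h4
      exact_mod_cast h5
    · exfalso
      apply hρ
      have ht' : (t : ℂ) ≠ 0 := by exact_mod_cast ht
      have h5 : ρ = ((-s / t : ℚ) : ℂ) := by
        push_cast
        field_simp
        linear_combination h4
      rw [h5]
      exact isAlgebraic_algebraMap (-s / t : ℚ)
  have := Pool.Agent.H297R2.baker_inhom (![ω, ρ * ω] : Fin 2 → ℂ) (by
      intro i
      fin_cases i
      · exact h1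
      · exact h2) hli c₀ k0 ![c₁, c₂] (by
      intro i
      fin_cases i
      · exact k1
      · exact k2) (by
      rw [Fin.sum_univ_two]
      simp only [Matrix.cons_val_zero, Matrix.cons_val_one]
      linear_combination hs)
  exact ⟨this.1, this.2 0, this.2 1⟩

/-- two pairs of consecutive exponents -/
theorem four {k m : ℕ} (hkm : k < m) {γ₁ γ₂ γ₃ γ₄ : ℂ}
    (a1 : IsAlgebraic ℚ γ₁) (a2 : IsAlgebraic ℚ γ₂) (a3 : IsAlgebraic ℚ γ₃)
    (a4 : IsAlgebraic ℚ γ₄) (n1 : γ₁ ≠ 0) (n2 : γ₂ ≠ 0) (n3 : γ₃ ≠ 0) (n4 : γ₄ ≠ 0)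
    (h1 : IsAlgebraic ℚ (Complex.exp (γ₁ * (P ^ k * G))))
    (h2 : IsAlgebraic ℚ (Complex.exp (γ₂ * (P ^ (k + 1) * G))))
    (h3 : IsAlgebraic ℚ (Complex.exp (γ₃ * (P ^ m * G))))
    (h4 : IsAlgebraic ℚ (Complex.exp (γ₄ * (P ^ (m + 1) * G)))) : False := by
  have e1 := mem_of_exp a1 n1 h1
  have e2 := mem_of_exp a2 n2 h2
  have e3 := mem_of_exp a3 n3 h3
  have e4 := mem_of_exp a4 n4 h4
  have hpow : P ^ m = P ^ k * P ^ (m - k) := by
    rw [← pow_add]
    congr 1
    omega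
  refine six (y₁ := P ^ k * G) (y₂ := P ^ m * G) e1 e3 (by
    have : P * (P ^ k * G) = P ^ (k + 1) * G := by ring
    rwa [this]) (by
    have : P * (P ^ m * G) = P ^ (m + 1) * G := by ring
    rwa [this]) ?_
  intro c₀ c₁ c₂ h0 hc1 hc2 hs
  have hρ : Transcendental ℚ (γ₃ / γ₁ * P ^ (m - k)) := by
    intro h
    apply P_pow_tr (k := m - k) (by omega)
    have e : P ^ (m - k) = (γ₃ / γ₁)⁻¹ * (γ₃ / γ₁ * P ^ (m - k)) := by
      field_simp
    rw [e]
    exact (a3.mul a1.inv).inv.mul h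
  obtain ⟨q0, q1, q2⟩ := two_logs (ω := γ₁ * (P ^ k * G)) (ρ := γ₃ / γ₁ * P ^ (m - k))
    (mul_ne_zero n1 (mul_ne_zero (pow_ne_zero _ P_ne) G_ne)) hρ h1 (by
      have e : γ₃ / γ₁ * P ^ (m - k) * (γ₁ * (P ^ k * G)) = γ₃ * (P ^ m * G) := by
        rw [hpow]
        field_simp
      rw [e]
      exact h3) c₀ (c₁ / γ₁) (c₂ / γ₃) h0 (hc1.mul a1.inv) (hc2.mul a3.inv) (by
      rw [← hs, hpow]
      field_simp)
  exact ⟨q0, (div_eq_zero_iff.mp q1).resolve_right n1, (div_eq_zero_iff.mp q2).resolve_right n3⟩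

section Gam

variable {γ : ℝ} (aγ : IsAlgebraic ℚ γ) (nγ : γ ≠ 0)
  (h1 : IsAlgebraic ℚ (Complex.exp (γ * (P * G))))

include aγ nγ h1

/-- `1, π, π log π` are independent over the algebraic numbers if `π ^ (γ π)` is algebraic -/
theorem ind_PG (c₀ c₁ c₂ : ℂ) (h0 : IsAlgebraic ℚ c₀) (hc1 : IsAlgebraic ℚ c₁)
    (hc2 : IsAlgebraic ℚ c₂) (hs : c₀ + c₁ * P + c₂ * (P * G) = 0) :
    c₀ = 0 ∧ c₁ = 0 ∧ c₂ = 0 := by
  have nγ' : (γ : ℂ) ≠ 0 := by exact_mod_cast nγ
  have e : ((γ * (Real.pi * Real.log Real.pi) : ℝ) : ℂ) = γ * (P * G) := by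
    push_cast
    rfl
  obtain ⟨q0, q1, q2⟩ := Pool.Agent.H364R2.PiE.pair_indep
    (lam := γ * (Real.pi * Real.log Real.pi))
    (mul_ne_zero nγ (mul_ne_zero Real.pi_ne_zero logpi_pos.ne')) (by rw [e]; exact h1)
    (a := c₀) (b := c₁) (c := c₂ / γ) h0 hc1 (hc2.mul (alg_ofReal aγ).inv) (by
      rw [e, ← hs]
      field_simp)
  exact ⟨q0, q1, (div_eq_zero_iff.mp q2).resolve_right nγ'⟩

theorem PG_mem : P * G ∈ Lt := mem_of_exp (alg_ofReal aγ) (by exact_mod_cast nγ) h1

/-- `log π` is transcendental if `π ^ (γ π)` is algebraic -/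
theorem G_tr : Transcendental ℚ (Real.log Real.pi) := by
  intro hG
  have hGC : IsAlgebraic ℚ G := alg_ofReal hG
  have h := ind_PG aγ nγ h1 0 G (-1) isAlgebraic_zero hGC isAlgebraic_one.neg (by ring)
  exact one_ne_zero (neg_eq_zero.mp h.2.2)

theorem caseA {δ ε : ℂ} (aδ : IsAlgebraic ℚ δ) (aε : IsAlgebraic ℚ ε) (nδ : δ ≠ 0) (nε : ε ≠ 0)
    (h2 : IsAlgebraic ℚ (Complex.exp (δ * P ^ 2)))
    (h3 : IsAlgebraic ℚ (Complex.exp (ε * (P ^ 2 * G)))) : False := by
  have e1 := PG_mem aγ nγ h1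
  have e2 := mem_of_exp aδ nδ h2
  have e3 := mem_of_exp aε nε h3
  exact six (y₁ := P) (y₂ := P * G) pi_mem e1 (by rwa [← sq]) (by
    have : P * (P * G) = P ^ 2 * G := by ring
    rwa [this]) (ind_PG aγ nγ h1)

theorem caseB {δ ε : ℂ} (aδ : IsAlgebraic ℚ δ) (aε : IsAlgebraic ℚ ε) (nδ : δ ≠ 0) (nε : ε ≠ 0)
    (h2 : IsAlgebraic ℚ (Complex.exp (δ * (P ^ 2 * G ^ 2))))
    (h3 : IsAlgebraic ℚ (Complex.exp (ε * (P ^ 2 * G)))) : False := by
  have e1 := PG_mem aγ nγ h1
  have e2 := mem_of_exp aδ nδ h2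
  have e3 := mem_of_exp aε nε h3
  refine strong_six ![1, P * G] ![1, P, P * G] ?_ ?_ ?_
  · intro a c ha hc hac
    simp only [Matrix.cons_val_zero, Matrix.cons_val_one] at hac
    obtain ⟨q0, -, q2⟩ := ind_PG aγ nγ h1 a 0 c ha isAlgebraic_zero hc (by
      linear_combination hac)
    exact ⟨q0, q2⟩
  · intro c hc hsum
    rw [Fin.sum_univ_three] at hsum
    simp only [Matrix.cons_val_zero, Matrix.cons_val_one, Matrix.cons_val] at hsum
    obtain ⟨q0, q1, q2⟩ := ind_PG aγ nγ h1 (c 0) (c 1) (c 2) (hc 0) (hc 1) (hc 2)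
      (by linear_combination hsum)
    intro j
    fin_cases j
    · exact q0
    · exact q1
    · exact q2
  · intro i j
    fin_cases i <;> fin_cases j
    · simpa using Lt_one
    · simpa using pi_mem
    · simpa using e1
    · simpa using e1
    · show P * G * P ∈ Lt
      have : P * G * P = P ^ 2 * G := by ring
      rwa [this]
    · show P * G * (P * G) ∈ Lt
      have : P * G * (P * G) = P ^ 2 * G ^ 2 := by ring
      rwa [this]

omit aγ nγ h1 in
/-- a quadratic relation over the algebraic numbers for a transcendental number is trivial -/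
theorem quad {b : ℝ} (hb : Transcendental ℚ b) (c₀ c₁ c₂ : ℂ) (h0 : IsAlgebraic ℚ c₀)
    (h1 : IsAlgebraic ℚ c₁) (h2 : IsAlgebraic ℚ c₂)
    (hs : c₀ + c₁ * (b : ℂ) + c₂ * (b : ℂ) ^ 2 = 0) : c₀ = 0 ∧ c₁ = 0 ∧ c₂ = 0 := by
  have hc2 : c₂ = 0 := by
    by_contra hc
    apply hb
    rw [← alg_ofReal_iff]
    have two : IsAlgebraic ℚ (2 : ℂ) := isAlgebraic_natCast (R := ℚ) (A := ℂ) 2
    have four : IsAlgebraic ℚ (4 : ℂ) := isAlgebraic_natCast (R := ℚ) (A := ℂ) 4
    have e1 : (2 * c₂ * (b : ℂ) + c₁) ^ 2 = c₁ ^ 2 - 4 * c₀ * c₂ := by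
      linear_combination 4 * c₂ * hs
    have e2 : IsAlgebraic ℚ ((2 * c₂ * (b : ℂ) + c₁) ^ 2) := by
      rw [e1]
      exact (h1.pow 2).sub ((four.mul h0).mul h2)
    have e3 : IsAlgebraic ℚ (2 * c₂ * (b : ℂ) + c₁) := IsAlgebraic.of_pow (by norm_num) e2
    have e4 : (b : ℂ) = (2 * c₂)⁻¹ * ((2 * c₂ * (b : ℂ) + c₁) - c₁) := by
      field_simp
      ring
    rw [e4]
    exact (two.mul h2).inv.mul (e3.sub h1)
  subst hc2
  obtain ⟨e0, e1⟩ := one_indep b hb c₀ c₁ h0 h1 (by linear_combination hs)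
  exact ⟨e0, e1, rfl⟩

theorem caseC {δ ε : ℂ} (aδ : IsAlgebraic ℚ δ) (aε : IsAlgebraic ℚ ε) (nδ : δ ≠ 0) (nε : ε ≠ 0)
    (h2 : IsAlgebraic ℚ (Complex.exp (δ * (P * G ^ 2))))
    (h3 : IsAlgebraic ℚ (Complex.exp (ε * (P * G ^ 3)))) : False := by
  have e1 := PG_mem aγ nγ h1
  have e2 := mem_of_exp aδ nδ h2
  have e3 := mem_of_exp aε nε h3
  have hG := G_tr aγ nγ h1
  refine strong_six ![1, G] ![P, P * G, P * G ^ 2] ?_ ?_ ?_
  · intro a c ha hc hac
    exact one_indep (Real.log Real.pi) hG a c ha hc hac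
  · intro c hc hsum
    rw [Fin.sum_univ_three] at hsum
    simp only [Matrix.cons_val_zero, Matrix.cons_val_one, Matrix.cons_val] at hsum
    have h4 : P * (c 0 + c 1 * G + c 2 * G ^ 2) = 0 := by linear_combination hsum
    obtain ⟨q0, q1, q2⟩ := quad hG (c 0) (c 1) (c 2) (hc 0) (hc 1) (hc 2)
      ((mul_eq_zero.mp h4).resolve_left P_ne)
    intro j
    fin_cases j
    · exact q0
    · exact q1
    · exact q2
  · intro i j
    fin_cases i <;> fin_cases j
    · simpa using pi_mem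
    · simpa using e1
    · simpa using e2
    · show G * P ∈ Lt
      rwa [mul_comm]
    · show G * (P * G) ∈ Lt
      have : G * (P * G) = P * G ^ 2 := by ring
      rwa [this]
    · show G * (P * G ^ 2) ∈ Lt
      have : G * (P * G ^ 2) = P * G ^ 3 := by ring
      rwa [this]

/-- `n ^ log π` -/
theorem caseD (n : Fin 2 → ℕ) (hn : ∀ i, 2 ≤ n i) (hi : Indep n)
    (h2 : ∀ i, G * L (n i) ∈ Lt) : False := by
  have e1 := PG_mem aγ nγ h1
  have hG := G_tr aγ nγ h1
  refine strong_six ![1, G] ![P, L (n 0), L (n 1)] ?_ ?_ ?_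
  · intro a c ha hc hac
    exact one_indep (Real.log Real.pi) hG a c ha hc hac
  · intro c hc hsum
    rw [Fin.sum_univ_three] at hsum
    simp only [Matrix.cons_val_zero, Matrix.cons_val_one, Matrix.cons_val] at hsum
    have hl := linInd n hn hi
    have el : (fun i => ((Real.log (n i) : ℝ) : ℂ)) =
        ![((Real.log (n 0) : ℝ) : ℂ), ((Real.log (n 1) : ℝ) : ℂ)] := by
      funext i
      fin_cases i <;> rfl
    rw [el] at hl
    have hli := lin3 (Real.log (n 0)) (Real.log (n 1)) hl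
    have hexp : ∀ i, IsAlgebraic ℚ (Complex.exp ((Real.log (n i) : ℝ) : ℂ)) := by
      intro i
      have hpos : (0 : ℝ) < n i := by
        have := hn i
        positivity
      rw [← Complex.ofReal_exp, Real.exp_log hpos]
      exact_mod_cast isAlgebraic_nat (n i)
    have hb := Pool.Agent.H297R2.baker_inhom
      ![(Real.pi : ℂ) * Complex.I, ((Real.log (n 0) : ℝ) : ℂ), ((Real.log (n 1) : ℝ) : ℂ)] (by
        intro i
        fin_cases i
        · show IsAlgebraic ℚ (Complex.exp (Real.pi * Complex.I))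
          rw [Complex.exp_pi_mul_I]
          exact isAlgebraic_one.neg
        · exact hexp 0
        · exact hexp 1) hli 0 isAlgebraic_zero ![-(Complex.I * c 0), c 1, c 2] (by
        intro i
        fin_cases i
        · exact (LW.isAlgebraic_I.mul (hc 0)).neg
        · exact hc 1
        · exact hc 2) (by
        rw [Fin.sum_univ_three]
        simp only [Matrix.cons_val_zero, Matrix.cons_val_one, Matrix.cons_val]
        have hI := Complex.I_mul_I
        linear_combination hsum - c 0 * (Real.pi : ℂ) * hI)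
    intro j
    fin_cases j
    · have h5 := hb.2 0
      simp only [Matrix.cons_val_zero, neg_eq_zero] at h5
      exact (mul_eq_zero.mp h5).resolve_left Complex.I_ne_zero
    · exact hb.2 1
    · exact hb.2 2
  · intro i j
    fin_cases i <;> fin_cases j
    · simpa using pi_mem
    · simpa using log_mem (n 0) (hn 0)
    · simpa using log_mem (n 1) (hn 1)
    · show G * P ∈ Lt
      rwa [mul_comm]
    · exact h2 0
    · exact h2 1

theorem one_class' : ∃ r : ℕ, 2 ≤ r ∧ ∀ n : ℕ, 2 ≤ n →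
    IsAlgebraic ℚ ((n : ℝ) ^ Real.log Real.pi) → ∃ k : ℕ, n = r ^ k := by
  obtain ⟨r, hr, h⟩ := powers {n : ℕ | 2 ≤ n ∧ G * L n ∈ Lt} (fun n hn => hn.1) (by
      intro m hm n hn hi
      refine caseD aγ nγ h1 ![m, n] ?_ hi ?_
      · intro i
        fin_cases i
        · exact hm.1
        · exact hn.1
      · intro i
        fin_cases i
        · exact hm.2
        · exact hn.2) (by
      intro m hm k hk hmk
      refine ⟨hk, ?_⟩
      have h1 : L (m * k) = L m + L k := by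
        have hm0 : (m : ℝ) ≠ 0 := by
          have := hm.1
          positivity
        have hk0 : (k : ℝ) ≠ 0 := by positivity
        show (((Real.log ((m * k : ℕ) : ℝ)) : ℝ) : ℂ) = _
        rw [Nat.cast_mul, Real.log_mul hm0 hk0]
        push_cast
        rfl
      have h2 : G * L k = G * L (m * k) - G * L m := by rw [h1]; ring
      rw [h2]
      exact Lt.sub_mem hmk.2 hm.2)
  exact ⟨r, hr, fun n hn ha => h n ⟨hn, pow_mem n hn _ ha⟩⟩

/-- `n ^ π` -/
theorem caseE {ε : ℂ} (aε : IsAlgebraic ℚ ε) (nε : ε ≠ 0)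
    (h3 : IsAlgebraic ℚ (Complex.exp (ε * (P ^ 2 * G)))) (n : ℕ) (hn : 2 ≤ n)
    (h4 : IsAlgebraic ℚ ((n : ℝ) ^ Real.pi)) :
    ∃ q : ℚ, Real.log n = q * (γ * (Real.pi * Real.log Real.pi)) := by
  by_contra hcon
  push Not at hcon
  have e1 := PG_mem aγ nγ h1
  have e3 := mem_of_exp aε nε h3
  have e4 : P * L n ∈ Lt := pow_mem n hn _ h4
  have nγ' : (γ : ℂ) ≠ 0 := by exact_mod_cast nγ
  have hpos : (0 : ℝ) < n := by positivity
  have hw : γ * (Real.pi * Real.log Real.pi) ≠ 0 :=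
    mul_ne_zero nγ (mul_ne_zero Real.pi_ne_zero logpi_pos.ne')
  have e : ((γ * (Real.pi * Real.log Real.pi) : ℝ) : ℂ) = γ * (P * G) := by
    push_cast
    rfl
  refine six (y₁ := P * G) (y₂ := L n) e1 (log_mem n hn) (by
    have : P * (P * G) = P ^ 2 * G := by ring
    rwa [this]) e4 ?_
  intro c₀ c₁ c₂ k0 k1 k2 hs
  have hli : LinearIndependent ℚ
      (![((γ * (Real.pi * Real.log Real.pi) : ℝ) : ℂ), L n] : Fin 2 → ℂ) := by
    rw [LinearIndependent.pair_iff]
    intro s t hst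
    simp only [Rat.smul_def] at hst
    have hre : (s : ℝ) * (γ * (Real.pi * Real.log Real.pi)) + t * Real.log n = 0 := by
      have h5 : (((s : ℝ) * (γ * (Real.pi * Real.log Real.pi)) + t * Real.log n : ℝ) : ℂ)
          = 0 := by
        rw [← hst]
        simp only [Complex.ofReal_add, Complex.ofReal_mul, Complex.ofReal_ratCast]
      exact Complex.ofReal_eq_zero.mp h5
    by_cases ht : t = 0
    · subst ht
      refine ⟨?_, rfl⟩
      have h5 : (s : ℝ) * (γ * (Real.pi * Real.log Real.pi)) = 0 := by simpa using hre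
      have := (mul_eq_zero.mp h5).resolve_right hw
      exact_mod_cast this
    · exfalso
      have ht' : (t : ℝ) ≠ 0 := by exact_mod_cast ht
      apply hcon (-s / t)
      push_cast
      field_simp
      linear_combination hre
  have hb := Pool.Agent.H297R2.baker_inhom
    (![((γ * (Real.pi * Real.log Real.pi) : ℝ) : ℂ), L n] : Fin 2 → ℂ) (by
      intro i
      fin_cases i
      · show IsAlgebraic ℚ (Complex.exp ((γ * (Real.pi * Real.log Real.pi) : ℝ) : ℂ))
        rw [e]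
        exact h1
      · show IsAlgebraic ℚ (Complex.exp (L n))
        rw [← Complex.ofReal_exp, Real.exp_log hpos]
        exact_mod_cast isAlgebraic_nat n) hli c₀ k0 ![c₁ / γ, c₂] (by
      intro i
      fin_cases i
      · exact k1.mul (alg_ofReal aγ).inv
      · exact k2) (by
      rw [Fin.sum_univ_two]
      simp only [Matrix.cons_val_zero, Matrix.cons_val_one]
      rw [e, ← hs]
      field_simp
      ring)
  refine ⟨hb.1, ?_, hb.2 1⟩
  have := hb.2 0
  simp only [Matrix.cons_val_zero] at this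
  exact (div_eq_zero_iff.mp this).resolve_right nγ'

end Gam

end Pool.Agent.H445R3.PP
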