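import Pool.Agent.H445R3.PP1

/-!
# Powers of `π`: dimension and counting
-/

set_option autoImplicit false

namespace Pool.Agent.H445R3.PP

open Pool.Agent.H462R2.PiE Pool.Agent.H301R2.SSE Pool.Agent.H340R2 Pool.Agent.H118R4.EP

/-- the field of algebraic numbers -/
noncomputable abbrev AA : IntermediateField ℚ ℂ := algebraicClosure ℚ ℂ

theorem mem_AA {z : ℂ} (h : IsAlgebraic ℚ z) : z ∈ AA := mem_algebraicClosure_iff.mpr h

theorem of_AA {z : ℂ} (h : z ∈ AA) : IsAlgebraic ℚ z := mem_algebraicClosure_iff.mp h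

/-- powers of `π` are linearly independent over the algebraic numbers -/
theorem poly_zero (s : Finset ℕ) (c : ℕ → ℂ) (hc : ∀ k ∈ s, IsAlgebraic ℚ (c k))
    (h : ∑ k ∈ s, c k * P ^ k = 0) : ∀ k ∈ s, c k = 0 := by
  classical
  let a : ℕ → AA := fun k => if hk : k ∈ s then ⟨c k, mem_AA (hc k hk)⟩ else 0
  have ha : ∀ k ∈ s, ((a k : AA) : ℂ) = c k := by
    intro k hk
    simp only [a, dif_pos hk]
  let p : Polynomial AA := ∑ k ∈ s, Polynomial.monomial k (a k)
  have hp : Polynomial.aeval P p = 0 := by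
    rw [map_sum, ← h]
    refine Finset.sum_congr rfl fun k hk => ?_
    rw [Polynomial.aeval_monomial, ← ha k hk]
    rfl
  have hp0 : p = 0 := by
    by_contra hne
    have h1 : IsAlgebraic AA P := ⟨p, hne, hp⟩
    haveI : Algebra.IsAlgebraic ℚ AA := algebraicClosure.isAlgebraic ℚ ℂ
    have h2 : IsAlgebraic ℚ P := h1.restrictScalars ℚ
    exact LW.transcendental_pi (alg_ofReal_iff.mp h2)
  intro k hk
  have h3 : p.coeff k = a k := by
    rw [Polynomial.finsetSum_coeff]
    simp only [Polynomial.coeff_monomial]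
    rw [Finset.sum_ite_eq' s k a, if_pos hk]
  rw [hp0, Polynomial.coeff_zero] at h3
  rw [← ha k hk, ← h3]
  rfl

/-- the vector space of polynomials `p` of degree `< N` with algebraic coefficients for which
`π ^ p(π)` is algebraic has dimension at most `N` over `ℚ` -/
theorem dim_le (N : ℕ) (c : Fin (N + 1) → Fin N → ℂ) (hc : ∀ i j, IsAlgebraic ℚ (c i j))
    (h : ∀ i, IsAlgebraic ℚ (Complex.exp ((∑ j : Fin N, c i j * P ^ (j : ℕ)) * G))) :
    ∃ q : Fin (N + 1) → ℚ, q ≠ 0 ∧ ∀ j, ∑ i, (q i : ℂ) * c i j = 0 := by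
  classical
  set ω : Fin (N + 1) → ℂ := fun i => (∑ j : Fin N, c i j * P ^ (j : ℕ)) * G with hω
  have hdep : ¬ LinearIndependent ℚ ω := by
    intro hli
    let v : Fin (N + 1) → Fin N → AA := fun i j => ⟨c i j, mem_AA (hc i j)⟩
    have hv : LinearIndependent AA v := by
      rw [Fintype.linearIndependent_iff]
      intro g hg
      have hg' : ∀ j, ∑ i, (g i : ℂ) * c i j = 0 := by
        intro j
        have h1 := congrFun hg j
        simp only [Finset.sum_apply, Pi.smul_apply, smul_eq_mul, Pi.zero_apply] at h1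
        have h2 := congrArg (algebraMap AA ℂ) h1
        rw [map_sum, map_zero] at h2
        rw [← h2]
        refine Finset.sum_congr rfl fun i _ => ?_
        rw [map_mul]
        rfl
      have hb := Pool.Agent.H297R2.baker_inhom ω h hli 0 isAlgebraic_zero (fun i => (g i : ℂ))
        (fun i => of_AA (g i).2) (by
          rw [zero_add]
          have h3 : ∑ i, (g i : ℂ) * ω i
              = (∑ j : Fin N, (∑ i, (g i : ℂ) * c i j) * P ^ (j : ℕ)) * G := by
            simp only [hω, Finset.sum_mul, Finset.mul_sum]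
            rw [Finset.sum_comm]
            refine Finset.sum_congr rfl fun j _ => Finset.sum_congr rfl fun i _ => ?_
            ring
          rw [h3]
          simp only [hg', zero_mul, Finset.sum_const_zero])
      intro i
      exact Subtype.ext (hb.2 i)
    have h4 := hv.fintype_card_le_finrank
    rw [Module.finrank_fin_fun, Fintype.card_fin] at h4
    omega
  rw [Fintype.not_linearIndependent_iff] at hdep
  obtain ⟨q, hq, i₀, hi₀⟩ := hdep
  refine ⟨q, fun h0 => hi₀ (by rw [h0]; rfl), ?_⟩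
  have h5 : (∑ j : Fin N, (∑ i, (q i : ℂ) * c i j) * P ^ (j : ℕ)) * G = 0 := by
    rw [← hq]
    simp only [hω, Finset.sum_mul, Finset.mul_sum, Rat.smul_def]
    rw [Finset.sum_comm]
    refine Finset.sum_congr rfl fun j _ => Finset.sum_congr rfl fun i _ => ?_
    ring
  have h6 := (mul_eq_zero.mp h5).resolve_right G_ne
  intro j
  have h7 := poly_zero (Finset.range N)
    (fun k => if hk : k < N then ∑ i, (q i : ℂ) * c i ⟨k, hk⟩ else 0) (by
      intro k hk
      have hk' := Finset.mem_range.mp hk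
      simp only [dif_pos hk']
      exact of_AA (sum_mem fun i _ =>
        mem_AA ((isAlgebraic_algebraMap (q i)).mul (hc i _)))) (by
      rw [Finset.sum_range, ← h6]
      refine Finset.sum_congr rfl fun j _ => ?_
      simp only [dif_pos j.2, Fin.eta]) j (Finset.mem_range.mpr j.2)
  simpa only [dif_pos j.2, Fin.eta] using h7

/-- the exponents `k` for which some power of `exp (π ^ k log π)` with a nonzero algebraic
exponent is algebraic -/
def S : Set ℕ := {k | ∃ γ : ℂ, IsAlgebraic ℚ γ ∧ γ ≠ 0 ∧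
  IsAlgebraic ℚ (Complex.exp (γ * (P ^ k * G)))}

theorem S_mem {k : ℕ} (h : k ∈ S) : P ^ k * G ∈ Lt := by
  obtain ⟨γ, h1, h2, h3⟩ := h
  exact mem_of_exp h1 h2 h3

theorem at_most_two {d : ℕ} (hd : 0 < d) {k₁ k₂ k₃ : ℕ} (n12 : k₁ ≠ k₂) (n13 : k₁ ≠ k₃)
    (n23 : k₂ ≠ k₃) (h1 : k₁ ∈ S) (h2 : k₂ ∈ S) (h3 : k₃ ∈ S) (g1 : k₁ + d ∈ S)
    (g2 : k₂ + d ∈ S) (g3 : k₃ + d ∈ S) : False := by
  have key : ∀ k : ℕ, P ^ d * (P ^ k * G) = P ^ (k + d) * G := by
    intro k
    ring
  refine strong_six ![1, P ^ d] ![P ^ k₁ * G, P ^ k₂ * G, P ^ k₃ * G] ?_ ?_ ?_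
  · intro a c ha hc hac
    simp only [Matrix.cons_val_zero, Matrix.cons_val_one] at hac
    refine one_indep (Real.pi ^ d) ?_ a c ha hc (by
      push_cast
      linear_combination hac)
    intro h
    exact P_pow_tr hd (by
      have := alg_ofReal h
      push_cast at this
      exact this)
  · intro c hc hsum
    rw [Fin.sum_univ_three] at hsum
    simp only [Matrix.cons_val_zero, Matrix.cons_val_one, Matrix.cons_val] at hsum
    have h4 : (c 0 * P ^ k₁ + c 1 * P ^ k₂ + c 2 * P ^ k₃) * G = 0 := by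
      linear_combination hsum
    have h5 := (mul_eq_zero.mp h4).resolve_right G_ne
    have h6 := poly_zero {k₁, k₂, k₃}
      (fun k => if k = k₁ then c 0 else if k = k₂ then c 1 else c 2) (by
        intro k _
        split_ifs
        · exact hc 0
        · exact hc 1
        · exact hc 2) (by
        rw [Finset.sum_insert (by simp [n12, n13]), Finset.sum_insert (by simp [n23]),
          Finset.sum_singleton]
        simp only [if_true, if_neg n12.symm, if_neg n13.symm, if_neg n23.symm]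
        linear_combination h5)
    intro j
    fin_cases j
    · simpa using h6 k₁ (by simp)
    · simpa [n12.symm] using h6 k₂ (by simp)
    · simpa [n13.symm, n23.symm] using h6 k₃ (by simp)
  · intro i j
    fin_cases i <;> fin_cases j
    · simpa using S_mem h1
    · simpa using S_mem h2
    · simpa using S_mem h3
    · show P ^ d * (P ^ k₁ * G) ∈ Lt
      rw [key]
      exact S_mem g1
    · show P ^ d * (P ^ k₂ * G) ∈ Lt
      rw [key]
      exact S_mem g2
    · show P ^ d * (P ^ k₃ * G) ∈ Lt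
      rw [key]
      exact S_mem g3

theorem at_most_one {k m : ℕ} (hkm : k ≠ m) (h1 : k ∈ S) (h2 : k + 1 ∈ S) (h3 : m ∈ S)
    (h4 : m + 1 ∈ S) : False := by
  obtain ⟨γ₁, a1, n1, e1⟩ := h1
  obtain ⟨γ₂, a2, n2, e2⟩ := h2
  obtain ⟨γ₃, a3, n3, e3⟩ := h3
  obtain ⟨γ₄, a4, n4, e4⟩ := h4
  rcases Nat.lt_or_gt_of_ne hkm with h | h
  · exact four h a1 a2 a3 a4 n1 n2 n3 n4 e1 e2 e3 e4
  · exact four h a3 a4 a1 a2 n3 n4 n1 n2 e3 e4 e1 e2

open Classical in
/-- counting -/
theorem count (N : ℕ) (hN : 1 ≤ N) :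
    ((Finset.Icc 1 N).filter (· ∈ S)).card * (((Finset.Icc 1 N).filter (· ∈ S)).card - 1)
      ≤ 4 * (N - 1) := by
  set T := (Finset.Icc 1 N).filter (· ∈ S) with hT
  have hTm : ∀ k ∈ T, 1 ≤ k ∧ k ≤ N ∧ k ∈ S := by
    intro k hk
    rw [hT, Finset.mem_filter, Finset.mem_Icc] at hk
    exact ⟨hk.1.1, hk.1.2, hk.2⟩
  let f : ℕ × ℕ → ℤ := fun p => (p.2 : ℤ) - p.1
  have h1 : T.offDiag.card ≤ 2 * (T.offDiag.image f).card := by
    refine Finset.card_le_mul_card_image T.offDiag 2 ?_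
    intro D hD
    by_contra hcon
    push Not at hcon
    obtain ⟨a, ha, b, hb, c, hc, hab, hac, hbc⟩ := Finset.two_lt_card.mp hcon
    rw [Finset.mem_filter, Finset.mem_offDiag] at ha hb hc
    obtain ⟨⟨ha1, ha2, ha3⟩, ha4⟩ := ha
    obtain ⟨⟨hb1, hb2, hb3⟩, hb4⟩ := hb
    obtain ⟨⟨hc1, hc2, hc3⟩, hc4⟩ := hc
    obtain ⟨a1, a2⟩ := a
    obtain ⟨b1, b2⟩ := b
    obtain ⟨c1, c2⟩ := c
    simp only [f, Prod.mk.injEq, ne_eq, not_and] at *
    rcases lt_trichotomy D 0 with hD0 | hD0 | hD0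
    · -- `D < 0`
      have e1 : a1 = a2 + (-D).toNat := by omega
      have e2 : b1 = b2 + (-D).toNat := by omega
      have e3 : c1 = c2 + (-D).toNat := by omega
      exact at_most_two (d := (-D).toNat) (by omega) (k₁ := a2) (k₂ := b2) (k₃ := c2)
        (by omega) (by omega) (by omega) (hTm _ ha2).2.2 (hTm _ hb2).2.2 (hTm _ hc2).2.2
        (e1 ▸ (hTm _ ha1).2.2) (e2 ▸ (hTm _ hb1).2.2) (e3 ▸ (hTm _ hc1).2.2)
    · omega
    · have e1 : a2 = a1 + D.toNat := by omega
      have e2 : b2 = b1 + D.toNat := by omega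
      have e3 : c2 = c1 + D.toNat := by omega
      exact at_most_two (d := D.toNat) (by omega) (k₁ := a1) (k₂ := b1) (k₃ := c1)
        (by omega) (by omega) (by omega) (hTm _ ha1).2.2 (hTm _ hb1).2.2 (hTm _ hc1).2.2
        (e1 ▸ (hTm _ ha2).2.2) (e2 ▸ (hTm _ hb2).2.2) (e3 ▸ (hTm _ hc2).2.2)
  have h2 : (T.offDiag.image f) ⊆ (Finset.Icc (-((N : ℤ) - 1)) ((N : ℤ) - 1)).erase 0 := by
    intro D hD
    rw [Finset.mem_image] at hD
    obtain ⟨p, hp, rfl⟩ := hD
    rw [Finset.mem_offDiag] at hp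
    have q1 := hTm _ hp.1
    have q2 := hTm _ hp.2.1
    have q3 := hp.2.2
    rw [Finset.mem_erase, Finset.mem_Icc]
    simp only [f]
    refine ⟨?_, ?_, ?_⟩ <;> omega
  have h3 := Finset.card_le_card h2
  rw [Finset.card_erase_of_mem (by rw [Finset.mem_Icc]; omega), Int.card_Icc] at h3
  rw [Finset.offDiag_card] at h1
  have h4 : T.card * (T.card - 1) = T.card * T.card - T.card := by
    rw [Nat.mul_sub, mul_one]
  rw [h4]
  omega

end Pool.Agent.H445R3.PP
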