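import Pool.Agent.H445R3.PP2

/-!
# Consequences of the algebraicity of `π ^ (γ π)`
-/

set_option autoImplicit false

namespace Pool.Agent.H445R3.PP

open Pool.Agent.H462R2.PiE Pool.Agent.H301R2.SSE Pool.Agent.H340R2 Pool.Agent.H118R4.EP

theorem pi_cpow (z : ℂ) : ((Real.pi : ℝ) : ℂ) ^ z = Complex.exp (z * G) := by
  rw [Complex.cpow_def_of_ne_zero P_ne, ← Complex.ofReal_log Real.pi_pos.le, mul_comm]

theorem nat_cpow {n : ℕ} (hn : 2 ≤ n) (z : ℂ) : ((n : ℝ) : ℂ) ^ z = Complex.exp (z * L n) := by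
  have h0 : (((n : ℝ)) : ℂ) ≠ 0 := by
    have : (n : ℝ) ≠ 0 := by positivity
    exact Complex.ofReal_ne_zero.mpr this
  rw [Complex.cpow_def_of_ne_zero h0, ← Complex.ofReal_log (Nat.cast_nonneg n), mul_comm]

/-- six exponentials with `x = (1, t)`, `y = (1, y₁, y₂)` -/
theorem sixT {t y₁ y₂ : ℂ} (ht : Transcendental ℚ t) (hm : t ∈ Lt) (h1 : y₁ ∈ Lt)
    (h2 : y₂ ∈ Lt) (h3 : t * y₁ ∈ Lt) (h4 : t * y₂ ∈ Lt)
    (hind : ∀ c₀ c₁ c₂ : ℂ, IsAlgebraic ℚ c₀ → IsAlgebraic ℚ c₁ → IsAlgebraic ℚ c₂ →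
      c₀ + c₁ * y₁ + c₂ * y₂ = 0 → c₀ = 0 ∧ c₁ = 0 ∧ c₂ = 0) : False := by
  refine strong_six ![1, t] ![1, y₁, y₂] ?_ ?_ ?_
  · intro a c ha hc hac
    simp only [Matrix.cons_val_zero, Matrix.cons_val_one] at hac
    have hc0 : c = 0 := by
      by_contra hne
      apply ht
      have : t = -a * c⁻¹ := by
        field_simp
        linear_combination hac
      rw [this]
      exact ha.neg.mul hc.inv
    subst hc0
    exact ⟨by linear_combination hac, rfl⟩
  · intro c hc hsum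
    rw [Fin.sum_univ_three] at hsum
    simp only [Matrix.cons_val_zero, Matrix.cons_val_one, Matrix.cons_val] at hsum
    obtain ⟨e0, e1, e2⟩ := hind (c 0) (c 1) (c 2) (hc 0) (hc 1) (hc 2)
      (by linear_combination hsum)
    intro j
    fin_cases j
    · exact e0
    · exact e1
    · exact e2
  · intro i j
    fin_cases i <;> fin_cases j
    · simpa using Lt_one
    · simpa using h1
    · simpa using h2
    · simpa using hm
    · exact h3
    · exact h4

theorem P_tr : Transcendental ℚ P := fun h => LW.transcendental_pi (alg_ofReal_iff.mp h)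

/-- `1, π, log n` -/
theorem ind_n {n : ℕ} (hn : 2 ≤ n) (c₀ c₁ c₂ : ℂ) (h0 : IsAlgebraic ℚ c₀)
    (hc1 : IsAlgebraic ℚ c₁) (hc2 : IsAlgebraic ℚ c₂) (hs : c₀ + c₁ * P + c₂ * L n = 0) :
    c₀ = 0 ∧ c₁ = 0 ∧ c₂ = 0 := by
  have hpos : (0 : ℝ) < n := by positivity
  have h1n : (1 : ℝ) < n := by exact_mod_cast (by omega : 1 < n)
  refine Pool.Agent.H364R2.PiE.pair_indep (lam := Real.log n) (Real.log_pos h1n).ne' ?_
    h0 hc1 hc2 hs
  rw [← Complex.ofReal_exp, Real.exp_log hpos]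
  exact_mod_cast isAlgebraic_natCast (R := ℚ) (A := ℂ) n

section Gam

variable {γ : ℝ} (aγ : IsAlgebraic ℚ γ) (nγ : γ ≠ 0)
  (h1 : IsAlgebraic ℚ (Complex.exp (γ * (P * G))))

include aγ nγ h1

theorem G_trC : Transcendental ℚ G := fun h => G_tr aγ nγ h1 (alg_ofReal_iff.mp h)

theorem PG_tr : Transcendental ℚ (P * G) := by
  intro h
  have h2 := ind_PG aγ nγ h1 (P * G) 0 (-1) h isAlgebraic_zero isAlgebraic_one.neg (by ring)
  exact one_ne_zero (neg_eq_zero.mp h2.2.2)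

/-- `n ^ (δ π log π)` is transcendental if `π ^ (ε π ^ 2)` is algebraic -/
theorem caseH {δ ε : ℂ} (aδ : IsAlgebraic ℚ δ) (aε : IsAlgebraic ℚ ε) (nδ : δ ≠ 0) (nε : ε ≠ 0)
    (h3 : IsAlgebraic ℚ (Complex.exp (ε * (P ^ 2 * G)))) {n : ℕ} (hn : 2 ≤ n)
    (h2 : IsAlgebraic ℚ (Complex.exp (δ * (P * G * L n)))) : False := by
  have e1 := PG_mem aγ nγ h1
  have e2 := mem_of_exp aδ nδ h2
  have e3 := mem_of_exp aε nε h3
  refine sixT (PG_tr aγ nγ h1) e1 pi_mem (log_mem n hn) ?_ e2 (ind_n hn)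
  have : P * G * P = P ^ 2 * G := by ring
  rwa [this]

/-- `γ π log π` and `log n` -/
theorem reals_indep {n : ℕ}
    (hcon : ∀ q : ℚ, Real.log n ≠ q * (γ * (Real.pi * Real.log Real.pi))) :
    LinearIndependent ℚ
      (![((γ * (Real.pi * Real.log Real.pi) : ℝ) : ℂ), L n] : Fin 2 → ℂ) := by
  have hw : γ * (Real.pi * Real.log Real.pi) ≠ 0 :=
    mul_ne_zero nγ (mul_ne_zero Real.pi_ne_zero logpi_pos.ne')
  rw [LinearIndependent.pair_iff]
  intro s t hst
  simp only [Rat.smul_def] at hst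
  have hre : (s : ℝ) * (γ * (Real.pi * Real.log Real.pi)) + t * Real.log n = 0 := by
    have h5 : (((s : ℝ) * (γ * (Real.pi * Real.log Real.pi)) + t * Real.log n : ℝ) : ℂ)
        = 0 := by
      rw [← hst]
      simp only [Complex.ofReal_add, Complex.ofReal_mul, Complex.ofReal_ratCast]
    exact Complex.ofReal_eq_zero.mp h5
  by_cases ht : t = 0
  · subst ht
    refine ⟨?_, rfl⟩
    have h5 : (s : ℝ) * (γ * (Real.pi * Real.log Real.pi)) = 0 := by simpa using hre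
    have := (mul_eq_zero.mp h5).resolve_right hw
    exact_mod_cast this
  · exfalso
    have ht' : (t : ℝ) ≠ 0 := by exact_mod_cast ht
    apply hcon (-s / t)
    push_cast
    field_simp
    linear_combination hre

/-- `n ^ (δ log π)` if `π ^ (ε π log π)` is algebraic -/
theorem caseF {δ ε : ℂ} (aδ : IsAlgebraic ℚ δ) (aε : IsAlgebraic ℚ ε) (nδ : δ ≠ 0) (nε : ε ≠ 0)
    (h3 : IsAlgebraic ℚ (Complex.exp (ε * (P * G ^ 2)))) {n : ℕ} (hn : 2 ≤ n)
    (h4 : IsAlgebraic ℚ (Complex.exp (δ * (G * L n)))) :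
    ∃ q : ℚ, Real.log n = q * (γ * (Real.pi * Real.log Real.pi)) := by
  by_contra hcon
  push Not at hcon
  have e1 := PG_mem aγ nγ h1
  have e3 := mem_of_exp aε nε h3
  have e4 := mem_of_exp aδ nδ h4
  have hG := G_tr aγ nγ h1
  have nγ' : (γ : ℂ) ≠ 0 := by exact_mod_cast nγ
  have hpos : (0 : ℝ) < n := by positivity
  have e : ((γ * (Real.pi * Real.log Real.pi) : ℝ) : ℂ) = γ * (P * G) := by
    push_cast
    rfl
  have hl := reals_indep aγ nγ h1 hcon
  have hli := lin3 (γ * (Real.pi * Real.log Real.pi)) (Real.log n) hl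
  refine strong_six ![1, G] ![P, P * G, L n] ?_ ?_ ?_
  · intro a c ha hc hac
    exact one_indep (Real.log Real.pi) hG a c ha hc hac
  · intro c hc hsum
    rw [Fin.sum_univ_three] at hsum
    simp only [Matrix.cons_val_zero, Matrix.cons_val_one, Matrix.cons_val] at hsum
    have hb := Pool.Agent.H297R2.baker_inhom
      ![(Real.pi : ℂ) * Complex.I, ((γ * (Real.pi * Real.log Real.pi) : ℝ) : ℂ),
        ((Real.log n : ℝ) : ℂ)] (by
        intro i
        fin_cases i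
        · show IsAlgebraic ℚ (Complex.exp (Real.pi * Complex.I))
          rw [Complex.exp_pi_mul_I]
          exact isAlgebraic_one.neg
        · show IsAlgebraic ℚ (Complex.exp ((γ * (Real.pi * Real.log Real.pi) : ℝ) : ℂ))
          rw [e]
          exact h1
        · show IsAlgebraic ℚ (Complex.exp (L n))
          rw [← Complex.ofReal_exp, Real.exp_log hpos]
          exact_mod_cast isAlgebraic_natCast (R := ℚ) (A := ℂ) n) hli 0 isAlgebraic_zero
        ![-(Complex.I * c 0), c 1 / γ, c 2] (by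
        intro i
        fin_cases i
        · exact (LW.isAlgebraic_I.mul (hc 0)).neg
        · exact (hc 1).mul (alg_ofReal aγ).inv
        · exact hc 2) (by
        rw [Fin.sum_univ_three]
        simp only [Matrix.cons_val_zero, Matrix.cons_val_one, Matrix.cons_val]
        rw [e]
        have hI := Complex.I_mul_I
        have h6 : c 1 / (γ : ℂ) * (γ * (P * G)) = c 1 * (P * G) := by
          field_simp
        rw [h6]
        linear_combination hsum - c 0 * (Real.pi : ℂ) * hI)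
    intro j
    fin_cases j
    · have h5 := hb.2 0
      simp only [Matrix.cons_val_zero, neg_eq_zero] at h5
      exact (mul_eq_zero.mp h5).resolve_left Complex.I_ne_zero
    · have h5 := hb.2 1
      simp only [Matrix.cons_val_one] at h5
      exact (div_eq_zero_iff.mp h5).resolve_right nγ'
    · exact hb.2 2
  · intro i j
    fin_cases i <;> fin_cases j
    · simpa using pi_mem
    · simpa using e1
    · simpa using log_mem n hn
    · show G * P ∈ Lt
      rwa [mul_comm]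
    · show G * (P * G) ∈ Lt
      have : G * (P * G) = P * G ^ 2 := by ring
      rwa [this]
    · exact e4

section Del

variable {δ : ℝ} (aδ : IsAlgebraic ℚ δ) (nδ : δ ≠ 0)
  (hδ : IsAlgebraic ℚ (Complex.exp (δ * G)))

include aδ nδ hδ

omit aγ nγ h1 in
theorem G_mem : G ∈ Lt := mem_of_exp (alg_ofReal aδ) (by exact_mod_cast nδ) hδ

omit aγ nγ h1 in
/-- `1, π, log π` -/
theorem ind_G (c₀ c₁ c₂ : ℂ) (h0 : IsAlgebraic ℚ c₀) (hc1 : IsAlgebraic ℚ c₁)
    (hc2 : IsAlgebraic ℚ c₂) (hs : c₀ + c₁ * P + c₂ * G = 0) :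
    c₀ = 0 ∧ c₁ = 0 ∧ c₂ = 0 := by
  have nδ' : (δ : ℂ) ≠ 0 := by exact_mod_cast nδ
  have e : ((δ * Real.log Real.pi : ℝ) : ℂ) = δ * G := by
    push_cast
    rfl
  obtain ⟨q0, q1, q2⟩ := Pool.Agent.H364R2.PiE.pair_indep (lam := δ * Real.log Real.pi)
    (mul_ne_zero nδ logpi_pos.ne') (by rw [e]; exact hδ)
    (a := c₀) (b := c₁) (c := c₂ / δ) h0 hc1 (hc2.mul (alg_ofReal aδ).inv) (by
      rw [e, ← hs]
      field_simp)
  exact ⟨q0, q1, (div_eq_zero_iff.mp q2).resolve_right nδ'⟩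

/-- `1, log π, π log π` -/
theorem ind_GPG (c₀ c₁ c₂ : ℂ) (h0 : IsAlgebraic ℚ c₀) (hc1 : IsAlgebraic ℚ c₁)
    (hc2 : IsAlgebraic ℚ c₂) (hs : c₀ + c₁ * G + c₂ * (P * G) = 0) :
    c₀ = 0 ∧ c₁ = 0 ∧ c₂ = 0 := by
  have nδ' : (δ : ℂ) ≠ 0 := by exact_mod_cast nδ
  have nγ' : (γ : ℂ) ≠ 0 := by exact_mod_cast nγ
  obtain ⟨q0, q1, q2⟩ := two_logs (ω := δ * G) (ρ := γ / δ * P)
    (mul_ne_zero nδ' G_ne) (by
      intro h
      apply P_tr
      have e : P = (γ / δ : ℂ)⁻¹ * (γ / δ * P) := by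
        field_simp
      rw [e]
      exact ((alg_ofReal aγ).mul (alg_ofReal aδ).inv).inv.mul h) hδ (by
      have e : (γ / δ * P : ℂ) * (δ * G) = γ * (P * G) := by
        field_simp
      rw [e]
      exact h1) c₀ (c₁ / δ) (c₂ / γ) h0 (hc1.mul (alg_ofReal aδ).inv)
      (hc2.mul (alg_ofReal aγ).inv) (by
      rw [← hs]
      field_simp)
  exact ⟨q0, (div_eq_zero_iff.mp q1).resolve_right nδ',
    (div_eq_zero_iff.mp q2).resolve_right nγ'⟩

theorem caseD1 {ε : ℂ} (aε : IsAlgebraic ℚ ε) (nε : ε ≠ 0)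
    (h : IsAlgebraic ℚ (Complex.exp (ε * P ^ 2))) : False := by
  have e1 := PG_mem aγ nγ h1
  have e2 := G_mem aδ nδ hδ
  have e3 := mem_of_exp aε nε h
  exact sixT P_tr pi_mem pi_mem e2 (by rwa [← sq]) e1 (ind_G aδ nδ hδ)

theorem caseD2 {ε : ℂ} (aε : IsAlgebraic ℚ ε) (nε : ε ≠ 0)
    (h : IsAlgebraic ℚ (Complex.exp (ε * (P ^ 2 * G)))) : False := by
  have e1 := PG_mem aγ nγ h1
  have e2 := G_mem aδ nδ hδ
  have e3 := mem_of_exp aε nε h
  refine sixT P_tr pi_mem e2 e1 e1 ?_ (ind_GPG aγ nγ h1 aδ nδ hδ)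
  have : P * (P * G) = P ^ 2 * G := by ring
  rwa [this]

theorem caseD3 {ε : ℂ} (aε : IsAlgebraic ℚ ε) (nε : ε ≠ 0)
    (h : IsAlgebraic ℚ (Complex.exp (ε * G ^ 2))) : False := by
  have e1 := PG_mem aγ nγ h1
  have e2 := G_mem aδ nδ hδ
  have e3 := mem_of_exp aε nε h
  exact sixT (G_trC aγ nγ h1) e2 pi_mem e2 (by rwa [mul_comm]) (by rwa [← sq]) (ind_G aδ nδ hδ)

theorem caseD4 {ε : ℂ} (aε : IsAlgebraic ℚ ε) (nε : ε ≠ 0)
    (h : IsAlgebraic ℚ (Complex.exp (ε * (P * G ^ 2)))) : False := by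
  have e1 := PG_mem aγ nγ h1
  have e2 := G_mem aδ nδ hδ
  have e3 := mem_of_exp aε nε h
  refine sixT (G_trC aγ nγ h1) e2 pi_mem e1 (by rwa [mul_comm]) ?_ (ind_PG aγ nγ h1)
  have : G * (P * G) = P * G ^ 2 := by ring
  rwa [this]

theorem caseD5 {ε : ℂ} (aε : IsAlgebraic ℚ ε) (nε : ε ≠ 0) {n : ℕ} (hn : 2 ≤ n)
    (h : IsAlgebraic ℚ (Complex.exp (ε * (G * L n)))) : False := by
  have e1 := PG_mem aγ nγ h1
  have e2 := G_mem aδ nδ hδ
  have e3 := mem_of_exp aε nε h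
  exact sixT (G_trC aγ nγ h1) e2 pi_mem (log_mem n hn) (by rwa [mul_comm]) e3 (ind_n hn)

theorem caseD6 {ε : ℂ} (aε : IsAlgebraic ℚ ε) (nε : ε ≠ 0) {n : ℕ} (hn : 2 ≤ n)
    (h : IsAlgebraic ℚ (Complex.exp (ε * (P * L n)))) :
    ∃ q : ℚ, Real.log n = q * (δ * Real.log Real.pi) := by
  by_contra hcon
  push Not at hcon
  have e1 := PG_mem aγ nγ h1
  have e2 := G_mem aδ nδ hδ
  have e3 := mem_of_exp aε nε h
  have nδ' : (δ : ℂ) ≠ 0 := by exact_mod_cast nδ
  have hpos : (0 : ℝ) < n := by positivity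
  have hw : δ * Real.log Real.pi ≠ 0 := mul_ne_zero nδ logpi_pos.ne'
  have e : ((δ * Real.log Real.pi : ℝ) : ℂ) = δ * G := by
    push_cast
    rfl
  refine sixT P_tr pi_mem e2 (log_mem n hn) e1 e3 ?_
  intro c₀ c₁ c₂ k0 k1 k2 hs
  have hli : LinearIndependent ℚ
      (![((δ * Real.log Real.pi : ℝ) : ℂ), L n] : Fin 2 → ℂ) := by
    rw [LinearIndependent.pair_iff]
    intro s t hst
    simp only [Rat.smul_def] at hst
    have hre : (s : ℝ) * (δ * Real.log Real.pi) + t * Real.log n = 0 := by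
      have h5 : (((s : ℝ) * (δ * Real.log Real.pi) + t * Real.log n : ℝ) : ℂ) = 0 := by
        rw [← hst]
        simp only [Complex.ofReal_add, Complex.ofReal_mul, Complex.ofReal_ratCast]
      exact Complex.ofReal_eq_zero.mp h5
    by_cases ht : t = 0
    · subst ht
      refine ⟨?_, rfl⟩
      have h5 : (s : ℝ) * (δ * Real.log Real.pi) = 0 := by simpa using hre
      have := (mul_eq_zero.mp h5).resolve_right hw
      exact_mod_cast this
    · exfalso
      have ht' : (t : ℝ) ≠ 0 := by exact_mod_cast ht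
      apply hcon (-s / t)
      push_cast
      field_simp
      linear_combination hre
  have hb := Pool.Agent.H297R2.baker_inhom
    (![((δ * Real.log Real.pi : ℝ) : ℂ), L n] : Fin 2 → ℂ) (by
      intro i
      fin_cases i
      · show IsAlgebraic ℚ (Complex.exp ((δ * Real.log Real.pi : ℝ) : ℂ))
        rw [e]
        exact hδ
      · show IsAlgebraic ℚ (Complex.exp (L n))
        rw [← Complex.ofReal_exp, Real.exp_log hpos]
        exact_mod_cast isAlgebraic_natCast (R := ℚ) (A := ℂ) n) hli c₀ k0 ![c₁ / δ, c₂] (by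
      intro i
      fin_cases i
      · exact k1.mul (alg_ofReal aδ).inv
      · exact k2) (by
      rw [Fin.sum_univ_two]
      simp only [Matrix.cons_val_zero, Matrix.cons_val_one]
      rw [e, ← hs]
      field_simp
      ring)
  refine ⟨hb.1, ?_, hb.2 1⟩
  have := hb.2 0
  simp only [Matrix.cons_val_zero] at this
  exact (div_eq_zero_iff.mp this).resolve_right nδ'

end Del

end Gam

end Pool.Agent.H445R3.PP
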