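import Pool.Agent.H445R3.PP3

/-!
# Final statements
-/

set_option autoImplicit false

namespace Pool.Agent.H445R3.PP

open Pool.Agent.H462R2.PiE Pool.Agent.H301R2.SSE Pool.Agent.H340R2 Pool.Agent.H118R4.EP

theorem tr_of {z : ℂ} (h : IsAlgebraic ℚ z → False) : Transcendental ℚ z := h

theorem rpow_exp (x : ℝ) (h : IsAlgebraic ℚ (Real.pi ^ x)) :
    IsAlgebraic ℚ (Complex.exp ((x : ℂ) * G)) := by
  have h1 := alg_ofReal h
  rw [Real.rpow_def_of_pos Real.pi_pos, Complex.ofReal_exp] at h1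
  have e : ((Real.log Real.pi * x : ℝ) : ℂ) = x * G := by
    push_cast
    ring
  rwa [e] at h1

section Gam

variable {γ : ℝ} (aγ : IsAlgebraic ℚ γ) (nγ : γ ≠ 0)
  (h1 : IsAlgebraic ℚ (Complex.exp (γ * (P * G))))

include aγ nγ h1

/-- `n ^ (δ π)` if `π ^ (ε π ^ 2)` is algebraic -/
theorem caseE' {δ ε : ℂ} (aδ : IsAlgebraic ℚ δ) (aε : IsAlgebraic ℚ ε) (nδ : δ ≠ 0) (nε : ε ≠ 0)
    (h3 : IsAlgebraic ℚ (Complex.exp (ε * (P ^ 2 * G)))) {n : ℕ} (hn : 2 ≤ n)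
    (h4 : IsAlgebraic ℚ (Complex.exp (δ * (P * L n)))) :
    ∃ q : ℚ, Real.log n = q * (γ * (Real.pi * Real.log Real.pi)) := by
  by_contra hcon
  push Not at hcon
  have e1 := PG_mem aγ nγ h1
  have e3 := mem_of_exp aε nε h3
  have e4 := mem_of_exp aδ nδ h4
  have nγ' : (γ : ℂ) ≠ 0 := by exact_mod_cast nγ
  have hpos : (0 : ℝ) < n := by positivity
  have e : ((γ * (Real.pi * Real.log Real.pi) : ℝ) : ℂ) = γ * (P * G) := by
    push_cast
    rfl
  refine six (y₁ := P * G) (y₂ := L n) e1 (log_mem n hn) (by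
    have : P * (P * G) = P ^ 2 * G := by ring
    rwa [this]) e4 ?_
  intro c₀ c₁ c₂ k0 k1 k2 hs
  have hli := reals_indep aγ nγ h1 hcon
  have hb := Pool.Agent.H297R2.baker_inhom
    (![((γ * (Real.pi * Real.log Real.pi) : ℝ) : ℂ), L n] : Fin 2 → ℂ) (by
      intro i
      fin_cases i
      · show IsAlgebraic ℚ (Complex.exp ((γ * (Real.pi * Real.log Real.pi) : ℝ) : ℂ))
        rw [e]
        exact h1
      · show IsAlgebraic ℚ (Complex.exp (L n))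
        rw [← Complex.ofReal_exp, Real.exp_log hpos]
        exact_mod_cast isAlgebraic_natCast (R := ℚ) (A := ℂ) n) hli c₀ k0 ![c₁ / γ, c₂] (by
      intro i
      fin_cases i
      · exact k1.mul (alg_ofReal aγ).inv
      · exact k2) (by
      rw [Fin.sum_univ_two]
      simp only [Matrix.cons_val_zero, Matrix.cons_val_one]
      rw [e, ← hs]
      field_simp
      ring)
  refine ⟨hb.1, ?_, hb.2 1⟩
  have := hb.2 0
  simp only [Matrix.cons_val_zero] at this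
  exact (div_eq_zero_iff.mp this).resolve_right nγ'

theorem one_class : ∃ r : ℕ, 2 ≤ r ∧ ∀ n : ℕ, 2 ≤ n → ∀ δ : ℂ, IsAlgebraic ℚ δ → δ ≠ 0 →
    IsAlgebraic ℚ (Complex.exp (δ * (G * L n))) → ∃ k : ℕ, n = r ^ k := by
  obtain ⟨r, hr, h⟩ := powers {n : ℕ | 2 ≤ n ∧ G * L n ∈ Lt} (fun n hn => hn.1) (by
      intro m hm n hn hi
      refine caseD aγ nγ h1 ![m, n] ?_ hi ?_
      · intro i
        fin_cases i
        · exact hm.1
        · exact hn.1
      · intro i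
        fin_cases i
        · exact hm.2
        · exact hn.2) (by
      intro m hm k hk hmk
      refine ⟨hk, ?_⟩
      have h1 : L (m * k) = L m + L k := by
        have hm0 : (m : ℝ) ≠ 0 := by
          have := hm.1
          positivity
        have hk0 : (k : ℝ) ≠ 0 := by positivity
        show (((Real.log ((m * k : ℕ) : ℝ)) : ℝ) : ℂ) = _
        rw [Nat.cast_mul, Real.log_mul hm0 hk0]
        push_cast
        rfl
      have h2 : G * L k = G * L (m * k) - G * L m := by rw [h1]; ring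
      rw [h2]
      exact Lt.sub_mem hmk.2 hm.2)
  exact ⟨r, hr, fun n hn δ aδ nδ ha => h n ⟨hn, mem_of_exp aδ nδ ha⟩⟩

end Gam

/-- consequences of the algebraicity of `π ^ (γ π)` -/
theorem final (γ : ℝ) (aγ : IsAlgebraic ℚ γ) (nγ : γ ≠ 0)
    (h : IsAlgebraic ℚ (Real.pi ^ (γ * Real.pi))) :
    (∀ a b : ℂ, IsAlgebraic ℚ a → IsAlgebraic ℚ b → G ≠ a + b / P) ∧
    (∃ r : ℕ, 2 ≤ r ∧ ∀ n : ℕ, 2 ≤ n → ∀ δ : ℂ, IsAlgebraic ℚ δ → δ ≠ 0 →
      IsAlgebraic ℚ (((n : ℝ) : ℂ) ^ (δ * G)) → ∃ k : ℕ, n = r ^ k) ∧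
    ((∃ ε : ℂ, IsAlgebraic ℚ ε ∧ ε ≠ 0 ∧ IsAlgebraic ℚ (P ^ (ε * P ^ 2))) →
      ∀ δ : ℂ, IsAlgebraic ℚ δ → δ ≠ 0 →
        Transcendental ℚ (Complex.exp (δ * P ^ 2)) ∧
        Transcendental ℚ (P ^ (δ * (P ^ 2 * G))) ∧
        ∀ n : ℕ, 2 ≤ n → Transcendental ℚ (((n : ℝ) : ℂ) ^ (δ * (P * G))) ∧
          (IsAlgebraic ℚ (((n : ℝ) : ℂ) ^ (δ * P)) →
            ∃ q : ℚ, Real.log n = q * (γ * (Real.pi * Real.log Real.pi)))) ∧
    ((∃ ε : ℂ, IsAlgebraic ℚ ε ∧ ε ≠ 0 ∧ IsAlgebraic ℚ (P ^ (ε * (P * G)))) →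
      ∀ δ : ℂ, IsAlgebraic ℚ δ → δ ≠ 0 →
        Transcendental ℚ (P ^ (δ * (P * G ^ 2))) ∧
        ∀ n : ℕ, 2 ≤ n → IsAlgebraic ℚ (((n : ℝ) : ℂ) ^ (δ * G)) →
          ∃ q : ℚ, Real.log n = q * (γ * (Real.pi * Real.log Real.pi))) ∧
    (∀ ε : ℝ, IsAlgebraic ℚ ε → ε ≠ 0 → IsAlgebraic ℚ (Real.pi ^ ε) →
      ∀ δ : ℂ, IsAlgebraic ℚ δ → δ ≠ 0 →
        Transcendental ℚ (Complex.exp (δ * P ^ 2)) ∧
        Transcendental ℚ (P ^ (δ * P ^ 2)) ∧
        Transcendental ℚ (P ^ (δ * G)) ∧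
        Transcendental ℚ (P ^ (δ * (P * G))) ∧
        ∀ n : ℕ, 2 ≤ n → Transcendental ℚ (((n : ℝ) : ℂ) ^ (δ * G)) ∧
          (IsAlgebraic ℚ (((n : ℝ) : ℂ) ^ (δ * P)) →
            ∃ q : ℚ, Real.log n = q * (ε * Real.log Real.pi))) := by
  have h1 : IsAlgebraic ℚ (Complex.exp (γ * (P * G))) := by
    have h2 := rpow_exp _ h
    have e : (((γ * Real.pi : ℝ)) : ℂ) * G = γ * (P * G) := by
      push_cast
      ring
    rwa [e] at h2
  refine ⟨?_, ?_, ?_, ?_, ?_⟩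
  · intro a b ha hb he
    have hP := P_ne
    have h2 := ind_PG aγ nγ h1 b a (-1) hb ha isAlgebraic_one.neg (by
      rw [he]
      field_simp
      ring)
    exact one_ne_zero (neg_eq_zero.mp h2.2.2)
  · obtain ⟨r, hr, h2⟩ := one_class aγ nγ h1
    refine ⟨r, hr, fun n hn δ aδ nδ ha => h2 n hn δ aδ nδ ?_⟩
    rw [nat_cpow hn, mul_assoc] at ha
    exact ha
  · rintro ⟨ε, aε, nε, hε⟩ δ aδ nδ
    rw [pi_cpow, mul_assoc] at hε
    refine ⟨fun h2 => caseA aγ nγ h1 aδ aε nδ nε h2 hε, ?_, ?_⟩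
    · intro h2
      rw [pi_cpow] at h2
      refine caseB aγ nγ h1 aδ aε nδ nε ?_ hε
      have e : δ * (P ^ 2 * G ^ 2) = δ * (P ^ 2 * G) * G := by ring
      rwa [e]
    · intro n hn
      refine ⟨?_, ?_⟩
      · intro h2
        rw [nat_cpow hn] at h2
        refine caseH aγ nγ h1 aδ aε nδ nε hε hn ?_
        have e : δ * (P * G * L n) = δ * (P * G) * L n := by ring
        rwa [e]
      · intro h2
        rw [nat_cpow hn, mul_assoc] at h2
        exact caseE' aγ nγ h1 aδ aε nδ nε hε hn h2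
  · rintro ⟨ε, aε, nε, hε⟩ δ aδ nδ
    rw [pi_cpow] at hε
    have hε' : IsAlgebraic ℚ (Complex.exp (ε * (P * G ^ 2))) := by
      have e : ε * (P * G ^ 2) = ε * (P * G) * G := by ring
      rwa [e]
    refine ⟨?_, ?_⟩
    · intro h2
      rw [pi_cpow] at h2
      refine caseC aγ nγ h1 aε aδ nε nδ hε' ?_
      have e : δ * (P * G ^ 3) = δ * (P * G ^ 2) * G := by ring
      rwa [e]
    · intro n hn h2
      rw [nat_cpow hn, mul_assoc] at h2
      exact caseF aγ nγ h1 aδ aε nδ nε hε' hn h2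
  · intro ε aε nε hε δ aδ nδ
    have h3 := rpow_exp _ hε
    refine ⟨fun h2 => caseD1 aγ nγ h1 aε nε h3 aδ nδ h2, ?_, ?_, ?_, ?_⟩
    · intro h2
      rw [pi_cpow, mul_assoc] at h2
      exact caseD2 aγ nγ h1 aε nε h3 aδ nδ h2
    · intro h2
      rw [pi_cpow] at h2
      refine caseD3 aγ nγ h1 aε nε h3 aδ nδ ?_
      have e : δ * G ^ 2 = δ * G * G := by ring
      rwa [e]
    · intro h2
      rw [pi_cpow] at h2
      refine caseD4 aγ nγ h1 aε nε h3 aδ nδ ?_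
      have e : δ * (P * G ^ 2) = δ * (P * G) * G := by ring
      rwa [e]
    · intro n hn
      refine ⟨?_, ?_⟩
      · intro h2
        rw [nat_cpow hn, mul_assoc] at h2
        exact caseD5 aγ nγ h1 aε nε h3 aδ nδ hn h2
      · intro h2
        rw [nat_cpow hn, mul_assoc] at h2
        exact caseD6 aγ nγ h1 aε nε h3 aδ nδ hn h2

end Pool.Agent.H445R3.PP
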