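import Pool.Agent.H445R3.PP4

/-!
# Consequences of the algebraicity of `π ^ π`, `e ^ e` and `π ^ e`
-/

set_option autoImplicit false

namespace Pool.Agent.H445R3.PP

open Pool.Agent.H462R2.PiE Pool.Agent.H301R2.SSE Pool.Agent.H340R2 Pool.Agent.H118R4.EP

/-- Baker for `1, π` and two real logarithms -/
theorem four_indep {a b : ℝ} (ha : IsAlgebraic ℚ (Complex.exp (a : ℂ)))
    (hb : IsAlgebraic ℚ (Complex.exp (b : ℂ)))
    (hl : LinearIndependent ℚ (![(a : ℂ), (b : ℂ)] : Fin 2 → ℂ))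
    (c₀ c₁ c₂ c₃ : ℂ) (k0 : IsAlgebraic ℚ c₀) (k1 : IsAlgebraic ℚ c₁) (k2 : IsAlgebraic ℚ c₂)
    (k3 : IsAlgebraic ℚ c₃) (hs : c₀ + c₁ * P + c₂ * (a : ℂ) + c₃ * (b : ℂ) = 0) :
    c₀ = 0 ∧ c₁ = 0 ∧ c₂ = 0 ∧ c₃ = 0 := by
  have hli := lin3 a b hl
  have h := Pool.Agent.H297R2.baker_inhom
    ![(Real.pi : ℂ) * Complex.I, (a : ℂ), (b : ℂ)] (by
      intro i
      fin_cases i
      · show IsAlgebraic ℚ (Complex.exp (Real.pi * Complex.I))
        rw [Complex.exp_pi_mul_I]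
        exact isAlgebraic_one.neg
      · exact ha
      · exact hb) hli c₀ k0 ![-(Complex.I * c₁), c₂, c₃] (by
      intro i
      fin_cases i
      · exact (LW.isAlgebraic_I.mul k1).neg
      · exact k2
      · exact k3) (by
      rw [Fin.sum_univ_three]
      simp only [Matrix.cons_val_zero, Matrix.cons_val_one, Matrix.cons_val]
      have hI := Complex.I_mul_I
      linear_combination hs - c₁ * (Real.pi : ℂ) * hI)
  refine ⟨h.1, ?_, h.2 1, h.2 2⟩
  have h5 := h.2 0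
  simp only [Matrix.cons_val_zero, neg_eq_zero] at h5
  exact (mul_eq_zero.mp h5).resolve_left Complex.I_ne_zero

/-- six exponentials with `x = (1, t)` -/
theorem sixY {t y₁ y₂ y₃ : ℂ} (ht : Transcendental ℚ t) (h1 : y₁ ∈ Lt) (h2 : y₂ ∈ Lt)
    (h3 : y₃ ∈ Lt) (g1 : t * y₁ ∈ Lt) (g2 : t * y₂ ∈ Lt) (g3 : t * y₃ ∈ Lt)
    (hind : ∀ c₁ c₂ c₃ : ℂ, IsAlgebraic ℚ c₁ → IsAlgebraic ℚ c₂ → IsAlgebraic ℚ c₃ →
      c₁ * y₁ + c₂ * y₂ + c₃ * y₃ = 0 → c₁ = 0 ∧ c₂ = 0 ∧ c₃ = 0) : False := by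
  refine strong_six ![1, t] ![y₁, y₂, y₃] ?_ ?_ ?_
  · intro a c ha hc hac
    simp only [Matrix.cons_val_zero, Matrix.cons_val_one] at hac
    have hc0 : c = 0 := by
      by_contra hne
      apply ht
      have : t = -a * c⁻¹ := by
        field_simp
        linear_combination hac
      rw [this]
      exact ha.neg.mul hc.inv
    subst hc0
    exact ⟨by linear_combination hac, rfl⟩
  · intro c hc hsum
    rw [Fin.sum_univ_three] at hsum
    simp only [Matrix.cons_val_zero, Matrix.cons_val_one, Matrix.cons_val] at hsum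
    obtain ⟨e0, e1, e2⟩ := hind (c 0) (c 1) (c 2) (hc 0) (hc 1) (hc 2)
      (by linear_combination hsum)
    intro j
    fin_cases j
    · exact e0
    · exact e1
    · exact e2
  · intro i j
    fin_cases i <;> fin_cases j
    · simpa using h1
    · simpa using h2
    · simpa using h3
    · exact g1
    · exact g2
    · exact g3

/-- rational independence of two reals -/
theorem pairQ {a b : ℝ} (ha : a ≠ 0) (hcon : ∀ q : ℚ, b ≠ q * a) :
    LinearIndependent ℚ (![(a : ℂ), (b : ℂ)] : Fin 2 → ℂ) := by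
  rw [LinearIndependent.pair_iff]
  intro s t hst
  simp only [Rat.smul_def] at hst
  have hre : (s : ℝ) * a + t * b = 0 := by
    have h5 : (((s : ℝ) * a + t * b : ℝ) : ℂ) = 0 := by
      rw [← hst]
      simp only [Complex.ofReal_add, Complex.ofReal_mul, Complex.ofReal_ratCast]
    exact Complex.ofReal_eq_zero.mp h5
  by_cases ht : t = 0
  · subst ht
    refine ⟨?_, rfl⟩
    have h5 : (s : ℝ) * a = 0 := by simpa using hre
    have := (mul_eq_zero.mp h5).resolve_right ha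
    exact_mod_cast this
  · exfalso
    have ht' : (t : ℝ) ≠ 0 := by exact_mod_cast ht
    apply hcon (-s / t)
    push_cast
    field_simp
    linear_combination hre

theorem E_ne : E ≠ 0 := Complex.ofReal_ne_zero.mpr (Real.exp_pos 1).ne'

theorem log_alg {n : ℕ} (hn : 2 ≤ n) : IsAlgebraic ℚ (Complex.exp (L n)) := by
  have hpos : (0 : ℝ) < n := by positivity
  rw [← Complex.ofReal_exp, Real.exp_log hpos]
  exact_mod_cast isAlgebraic_natCast (R := ℚ) (A := ℂ) n

section Three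

variable (h1 : IsAlgebraic ℚ (Complex.exp (P * G))) (h2 : IsAlgebraic ℚ (Complex.exp E))
  (h3 : IsAlgebraic ℚ (Complex.exp (E * G)))

include h1 h2 h3

omit h2 h3 in
theorem G_tr1 : Transcendental ℚ G := by
  refine G_trC (γ := 1) isAlgebraic_one one_ne_zero ?_
  simpa using h1

omit h1 h3 in
theorem ind_E (c₀ c₁ c₂ : ℂ) (k0 : IsAlgebraic ℚ c₀) (k1 : IsAlgebraic ℚ c₁)
    (k2 : IsAlgebraic ℚ c₂) (hs : c₀ + c₁ * P + c₂ * E = 0) : c₀ = 0 ∧ c₁ = 0 ∧ c₂ = 0 :=
  Pool.Agent.H364R2.PiE.pair_indep (lam := Real.exp 1) (Real.exp_pos 1).ne' h2 k0 k1 k2 hs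

omit h1 h3 in
theorem EP_tr : Transcendental ℚ (E / P) := by
  intro h
  have hP := P_ne
  have := ind_E h2 0 (E / P) (-1) isAlgebraic_zero h isAlgebraic_one.neg (by
    field_simp
    ring)
  exact one_ne_zero (neg_eq_zero.mp this.2.2)

omit h1 h3 in
theorem PE_tr : Transcendental ℚ (P / E) := by
  intro h
  apply EP_tr h2
  rw [← inv_div]
  exact h.inv

theorem ind_EEG (c₀ c₁ c₂ c₃ : ℂ) (k0 : IsAlgebraic ℚ c₀) (k1 : IsAlgebraic ℚ c₁)
    (k2 : IsAlgebraic ℚ c₂) (k3 : IsAlgebraic ℚ c₃)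
    (hs : c₀ + c₁ * P + c₂ * E + c₃ * (E * G) = 0) :
    c₀ = 0 ∧ c₁ = 0 ∧ c₂ = 0 ∧ c₃ = 0 := by
  have e : ((Real.exp 1 * Real.log Real.pi : ℝ) : ℂ) = E * G := by
    push_cast
    rfl
  refine four_indep (a := Real.exp 1) (b := Real.exp 1 * Real.log Real.pi) h2
    (by rw [e]; exact h3) (pairQ (Real.exp_pos 1).ne' ?_) c₀ c₁ c₂ c₃ k0 k1 k2 k3
    (by rw [e]; exact hs)
  intro q hq
  apply G_tr1 h1
  have h5 : Real.log Real.pi = q := by
    have h6 := (Real.exp_pos 1).ne'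
    have h7 : Real.exp 1 * (Real.log Real.pi - q) = 0 := by linear_combination hq
    linarith [(mul_eq_zero.mp h7).resolve_left h6]
  show IsAlgebraic ℚ ((Real.log Real.pi : ℝ) : ℂ)
  rw [h5]
  exact_mod_cast isAlgebraic_algebraMap (A := ℂ) q

/-- `log π` -/
theorem t1 (h : G ∈ Lt) : False := by
  refine sixY (G_tr1 h1) (y₁ := 1) (y₂ := P) (y₃ := E) Lt_one pi_mem (Lt_log h2) (by simpa using h)
    (by rw [mul_comm]; exact Lt_log h1) (by rw [mul_comm]; exact Lt_log h3) ?_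
  intro c₁ c₂ c₃ k1 k2 k3 hs
  exact ind_E h2 c₁ c₂ c₃ k1 k2 k3 (by linear_combination hs)

/-- `e log ^ 2 π` -/
theorem t2 (h : E * G ^ 2 ∈ Lt) : False := by
  refine sixY (G_tr1 h1) (y₁ := P) (y₂ := E) (y₃ := E * G) pi_mem (Lt_log h2) (Lt_log h3)
    (by rw [mul_comm]; exact Lt_log h1) (by rw [mul_comm]; exact Lt_log h3) (by
      have e : G * (E * G) = E * G ^ 2 := by ring
      rwa [e]) ?_
  intro c₁ c₂ c₃ k1 k2 k3 hs
  exact (ind_EEG h1 h2 h3 0 c₁ c₂ c₃ isAlgebraic_zero k1 k2 k3 (by linear_combination hs)).2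

/-- `e / π` -/
theorem t3 (h : E / P ∈ Lt) : False := by
  have hP := P_ne
  refine sixY (EP_tr h2) (y₁ := 1) (y₂ := P) (y₃ := P * G) Lt_one pi_mem (Lt_log h1)
    (by simpa using h) (by
      have e : E / P * P = E := by field_simp
      rw [e]
      exact Lt_log h2) (by
      have e : E / P * (P * G) = E * G := by field_simp
      rw [e]
      exact Lt_log h3) ?_
  intro c₁ c₂ c₃ k1 k2 k3 hs
  exact ind_PG (γ := 1) isAlgebraic_one one_ne_zero (by simpa using h1) c₁ c₂ c₃ k1 k2 k3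
    (by linear_combination hs)

/-- `π / e` -/
theorem t4 (h : P / E ∈ Lt) : False := by
  have hE := E_ne
  refine sixY (PE_tr h2) (y₁ := 1) (y₂ := E) (y₃ := E * G) Lt_one (Lt_log h2) (Lt_log h3)
    (by simpa using h) (by
      have e : P / E * E = P := by field_simp
      rw [e]
      exact pi_mem) (by
      have e : P / E * (E * G) = P * G := by field_simp
      rw [e]
      exact Lt_log h1) ?_
  intro c₁ c₂ c₃ k1 k2 k3 hs
  obtain ⟨q0, -, q2, q3⟩ := ind_EEG h1 h2 h3 c₁ 0 c₂ c₃ k1 isAlgebraic_zero k2 k3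
    (by linear_combination hs)
  exact ⟨q0, q2, q3⟩

/-- `π ^ 2 / e` -/
theorem t5 (h : P ^ 2 / E ∈ Lt) : False := by
  have hE := E_ne
  refine sixY (PE_tr h2) (y₁ := P) (y₂ := E) (y₃ := E * G) pi_mem (Lt_log h2) (Lt_log h3)
    (by
      have e : P / E * P = P ^ 2 / E := by field_simp
      rwa [e]) (by
      have e : P / E * E = P := by field_simp
      rw [e]
      exact pi_mem) (by
      have e : P / E * (E * G) = P * G := by field_simp
      rw [e]
      exact Lt_log h1) ?_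
  intro c₁ c₂ c₃ k1 k2 k3 hs
  exact (ind_EEG h1 h2 h3 0 c₁ c₂ c₃ isAlgebraic_zero k1 k2 k3 (by linear_combination hs)).2

/-- a further real logarithm `ℓ` with `ℓ log π` -/
theorem t6 {l : ℝ} (hl : IsAlgebraic ℚ (Complex.exp (l : ℂ)))
    (h : G * (l : ℂ) ∈ Lt) : ∃ q : ℚ, l = q * Real.exp 1 := by
  by_contra hcon
  push Not at hcon
  refine sixY (G_tr1 h1) (y₁ := P) (y₂ := E) (y₃ := (l : ℂ)) pi_mem (Lt_log h2) (Lt_log hl)
    (by rw [mul_comm]; exact Lt_log h1) (by rw [mul_comm]; exact Lt_log h3) h ?_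
  intro c₁ c₂ c₃ k1 k2 k3 hs
  exact (four_indep h2 hl (pairQ (Real.exp_pos 1).ne' hcon) 0 c₁ c₂ c₃ isAlgebraic_zero k1 k2 k3
    (by linear_combination hs)).2

/-- a further real logarithm `ℓ` with `ℓ e / π` -/
theorem t7 {l : ℝ} (hl : IsAlgebraic ℚ (Complex.exp (l : ℂ)))
    (h : E / P * (l : ℂ) ∈ Lt) : ∃ q : ℚ, l = q * (Real.pi * Real.log Real.pi) := by
  by_contra hcon
  push Not at hcon
  have hP := P_ne
  have e : ((Real.pi * Real.log Real.pi : ℝ) : ℂ) = P * G := by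
    push_cast
    rfl
  refine sixY (EP_tr h2) (y₁ := P) (y₂ := P * G) (y₃ := (l : ℂ)) pi_mem (Lt_log h1) (Lt_log hl)
    (by
      have e : E / P * P = E := by field_simp
      rw [e]
      exact Lt_log h2) (by
      have e : E / P * (P * G) = E * G := by field_simp
      rw [e]
      exact Lt_log h3) h ?_
  intro c₁ c₂ c₃ k1 k2 k3 hs
  exact (four_indep (a := Real.pi * Real.log Real.pi) (by rw [e]; exact h1) hl
    (pairQ (mul_ne_zero Real.pi_ne_zero logpi_pos.ne') hcon) 0 c₁ c₂ c₃ isAlgebraic_zero k1 k2 k3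
    (by rw [e]; linear_combination hs)).2

/-- `e ^ 2 / π` and `π log ^ 2 π` -/
theorem t8 (h : E ^ 2 / P ∈ Lt ∨ P * G ^ 2 ∈ Lt) :
    ∃ q : ℚ, Real.exp 1 = q * (Real.pi * Real.log Real.pi) := by
  have hP := P_ne
  rcases h with h | h
  · exact t7 h1 h2 h3 h2 (by
      have e : E / P * E = E ^ 2 / P := by field_simp
      rwa [e])
  · have e : ((Real.pi * Real.log Real.pi : ℝ) : ℂ) = P * G := by
      push_cast
      rfl
    obtain ⟨q, hq⟩ := t6 h1 h2 h3 (l := Real.pi * Real.log Real.pi) (by rw [e]; exact h1) (by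
      rw [e]
      have e : G * (P * G) = P * G ^ 2 := by ring
      rwa [e])
    have hw : Real.pi * Real.log Real.pi ≠ 0 := mul_ne_zero Real.pi_ne_zero logpi_pos.ne'
    have hq0 : (q : ℝ) ≠ 0 := by
      intro h0
      rw [h0, zero_mul] at hq
      exact hw hq
    refine ⟨q⁻¹, ?_⟩
    rw [hq]
    push_cast
    field_simp

end Three

end Pool.Agent.H445R3.PP
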