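import Pool.Agent.H445R3.PP5

/-!
# Consequences of the algebraicity of `π ^ π`, `e ^ e` and `π ^ e`: final form
-/

set_option autoImplicit false

namespace Pool.Agent.H445R3.PP

open Pool.Agent.H462R2.PiE Pool.Agent.H301R2.SSE Pool.Agent.H340R2 Pool.Agent.H118R4.EP

theorem real_cpow {α : ℝ} (hα : 0 < α) (z : ℂ) :
    ((α : ℝ) : ℂ) ^ z = Complex.exp (z * ((Real.log α : ℝ) : ℂ)) := by
  rw [Complex.cpow_def_of_ne_zero (Complex.ofReal_ne_zero.mpr hα.ne'),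
    ← Complex.ofReal_log hα.le, mul_comm]

theorem exp_log_alg {α : ℝ} (hα : 0 < α) (h : IsAlgebraic ℚ α) :
    IsAlgebraic ℚ (Complex.exp ((Real.log α : ℝ) : ℂ)) := by
  rw [← Complex.ofReal_exp, Real.exp_log hα]
  exact alg_ofReal h

theorem rpow_alg {a b : ℝ} (ha : 0 < a) (h : IsAlgebraic ℚ (a ^ b)) :
    IsAlgebraic ℚ (Complex.exp ((b : ℂ) * ((Real.log a : ℝ) : ℂ))) := by
  have h1 := alg_ofReal h
  rw [Real.rpow_def_of_pos ha, Complex.ofReal_exp] at h1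
  have e : ((Real.log a * b : ℝ) : ℂ) = b * ((Real.log a : ℝ) : ℂ) := by
    rw [Complex.ofReal_mul, mul_comm]
  rwa [e] at h1

theorem three (h1 : IsAlgebraic ℚ (Real.pi ^ Real.pi))
    (h2 : IsAlgebraic ℚ (Real.exp 1 ^ Real.exp 1)) (h3 : IsAlgebraic ℚ (Real.pi ^ Real.exp 1))
    (δ : ℂ) (hδ : IsAlgebraic ℚ δ) (hδ0 : δ ≠ 0) :
    Transcendental ℚ (P ^ δ) ∧
    Transcendental ℚ (P ^ (δ * (E * G))) ∧
    Transcendental ℚ (Complex.exp (δ * (E / P))) ∧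
    Transcendental ℚ (Complex.exp (δ * (P / E))) ∧
    Transcendental ℚ (Complex.exp (δ * (P ^ 2 / E))) ∧
    (∀ α : ℝ, 0 < α → IsAlgebraic ℚ α → IsAlgebraic ℚ (((α : ℝ) : ℂ) ^ (δ * G)) →
      ∃ q : ℚ, Real.log α = q * Real.exp 1) ∧
    (∀ α : ℝ, 0 < α → IsAlgebraic ℚ α → IsAlgebraic ℚ (((α : ℝ) : ℂ) ^ (δ * (E / P))) →
      ∃ q : ℚ, Real.log α = q * (Real.pi * Real.log Real.pi)) ∧
    (IsAlgebraic ℚ (Complex.exp (δ * (E ^ 2 / P))) ∨ IsAlgebraic ℚ (P ^ (δ * (P * G))) →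
      ∃ q : ℚ, Real.exp 1 = q * (Real.pi * Real.log Real.pi)) := by
  have g1 : IsAlgebraic ℚ (Complex.exp (P * G)) := rpow_alg Real.pi_pos h1
  have g3 : IsAlgebraic ℚ (Complex.exp (E * G)) := rpow_alg Real.pi_pos h3
  have g2 : IsAlgebraic ℚ (Complex.exp E) := by
    have := rpow_alg (Real.exp_pos 1) h2
    rw [Real.log_exp, Complex.ofReal_one, mul_one] at this
    exact this
  refine ⟨?_, ?_, ?_, ?_, ?_, ?_, ?_, ?_⟩
  · intro h
    rw [pi_cpow] at h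
    exact t1 g1 g2 g3 (mem_of_exp hδ hδ0 h)
  · intro h
    rw [pi_cpow] at h
    refine t2 g1 g2 g3 (mem_of_exp hδ hδ0 ?_)
    have e : δ * (E * G ^ 2) = δ * (E * G) * G := by ring
    rwa [e]
  · intro h
    exact t3 g1 g2 g3 (mem_of_exp hδ hδ0 h)
  · intro h
    exact t4 g1 g2 g3 (mem_of_exp hδ hδ0 h)
  · intro h
    exact t5 g1 g2 g3 (mem_of_exp hδ hδ0 h)
  · intro α hα ha h
    rw [real_cpow hα, mul_assoc] at h
    exact t6 g1 g2 g3 (exp_log_alg hα ha) (mem_of_exp hδ hδ0 h)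
  · intro α hα ha h
    rw [real_cpow hα, mul_assoc] at h
    exact t7 g1 g2 g3 (exp_log_alg hα ha) (mem_of_exp hδ hδ0 h)
  · rintro (h | h)
    · exact t8 g1 g2 g3 (Or.inl (mem_of_exp hδ hδ0 h))
    · refine t8 g1 g2 g3 (Or.inr (mem_of_exp hδ hδ0 ?_))
      rw [pi_cpow] at h
      have e : δ * (P * G ^ 2) = δ * (P * G) * G := by ring
      rwa [e]

end Pool.Agent.H445R3.PP
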