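import Pool.Agent.H445R3.PP6

/-!
# Consequences of the algebraicity of `α ^ (γ π)`
-/

set_option autoImplicit false

namespace Pool.Agent.H445R3.PP

open Pool.Agent.H462R2.PiE Pool.Agent.H301R2.SSE Pool.Agent.H340R2 Pool.Agent.H118R4.EP

/-- Baker for `1, a, b` with `b` not a rational multiple of `a ≠ 0` -/
theorem two_indep {a b : ℂ} (ha : IsAlgebraic ℚ (Complex.exp a))
    (hb : IsAlgebraic ℚ (Complex.exp b)) (ha0 : a ≠ 0) (hcon : ∀ q : ℚ, b ≠ q * a)
    (c₀ c₁ c₂ : ℂ) (k0 : IsAlgebraic ℚ c₀) (k1 : IsAlgebraic ℚ c₁) (k2 : IsAlgebraic ℚ c₂)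
    (hs : c₀ + c₁ * a + c₂ * b = 0) : c₀ = 0 ∧ c₁ = 0 ∧ c₂ = 0 := by
  have hli : LinearIndependent ℚ (![a, b] : Fin 2 → ℂ) := by
    rw [LinearIndependent.pair_iff]
    intro s t hst
    simp only [Rat.smul_def] at hst
    by_cases ht : t = 0
    · subst ht
      refine ⟨?_, rfl⟩
      have h5 : (s : ℂ) * a = 0 := by simpa using hst
      have := (mul_eq_zero.mp h5).resolve_right ha0
      exact_mod_cast this
    · exfalso
      have ht' : (t : ℂ) ≠ 0 := by exact_mod_cast ht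
      apply hcon (-s / t)
      push_cast
      field_simp
      linear_combination hst
  have h := Pool.Agent.H297R2.baker_inhom (![a, b] : Fin 2 → ℂ) (by
      intro i
      fin_cases i
      · exact ha
      · exact hb) hli c₀ k0 ![c₁, c₂] (by
      intro i
      fin_cases i
      · exact k1
      · exact k2) (by
      rw [Fin.sum_univ_two]
      simp only [Matrix.cons_val_zero, Matrix.cons_val_one]
      linear_combination hs)
  exact ⟨h.1, h.2 0, h.2 1⟩

/-- a nonzero logarithm of an algebraic number is transcendental -/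
theorem log_tr {a : ℂ} (ha : IsAlgebraic ℚ (Complex.exp a)) (ha0 : a ≠ 0) :
    Transcendental ℚ a := by
  intro h
  have hli : LinearIndependent ℚ (![a] : Fin 1 → ℂ) := by
    rw [Fintype.linearIndependent_iff]
    intro g hg i
    rw [Fin.sum_univ_one] at hg
    fin_cases i
    have h2 : (g 0 : ℂ) * a = 0 := by
      simpa [Rat.smul_def] using hg
    have h3 := (mul_eq_zero.1 h2).resolve_right ha0
    exact_mod_cast h3
  have h1 := Pool.Agent.H297R2.baker_inhom (![a] : Fin 1 → ℂ) (by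
      intro i
      fin_cases i
      exact ha) hli a h ![-1] (by
      intro i
      fin_cases i
      exact isAlgebraic_one.neg) (by
      rw [Fin.sum_univ_one]
      simp)
  exact ha0 h1.1

theorem class_one {α : ℝ} (hα : 0 < α) (hα1 : α ≠ 1) (ha : IsAlgebraic ℚ α)
    {γ : ℂ} (hγ : IsAlgebraic ℚ γ) (hγ0 : γ ≠ 0)
    (h : IsAlgebraic ℚ (((α : ℝ) : ℂ) ^ (γ * P))) :
    (∀ l δ : ℂ, IsAlgebraic ℚ (Complex.exp l) → IsAlgebraic ℚ δ → δ ≠ 0 →
      IsAlgebraic ℚ (Complex.exp (δ * (P * l))) →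
      ∃ q : ℚ, l = q * ((Real.log α : ℝ) : ℂ)) ∧
    (∀ l δ : ℂ, IsAlgebraic ℚ (Complex.exp l) → IsAlgebraic ℚ δ → δ ≠ 0 →
      IsAlgebraic ℚ (((α : ℝ) : ℂ) ^ (δ * l)) → ∃ q : ℚ, l = q * (P * Complex.I)) ∧
    (∀ ε : ℂ, IsAlgebraic ℚ ε → ε ≠ 0 → IsAlgebraic ℚ (((α : ℝ) : ℂ) ^ (ε * E)) →
      ∀ δ : ℝ, IsAlgebraic ℚ δ → δ ≠ 0 → Transcendental ℚ (Real.exp (δ * Real.exp 1))) := by
  have hP := P_ne
  have hlog : ((Real.log α : ℝ) : ℂ) ≠ 0 :=
    Complex.ofReal_ne_zero.mpr (Real.log_ne_zero_of_pos_of_ne_one hα hα1)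
  have hA := exp_log_alg hα ha
  have eA : ((Real.log α : ℝ) : ℂ) ∈ Lt := Lt_log hA
  have ePA : P * ((Real.log α : ℝ) : ℂ) ∈ Lt := by
    rw [real_cpow hα, mul_assoc] at h
    exact mem_of_exp hγ hγ0 h
  have hAtr := log_tr hA hlog
  refine ⟨?_, ?_, ?_⟩
  · intro l δ hl hδ hδ0 h2
    by_contra hcon
    push Not at hcon
    have e2 := mem_of_exp hδ hδ0 h2
    refine sixY P_tr (y₁ := 1) (y₂ := ((Real.log α : ℝ) : ℂ)) (y₃ := l) Lt_one eA (Lt_log hl)
      (by simpa using pi_mem) ePA e2 ?_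
    intro c₁ c₂ c₃ k1 k2 k3 hs
    exact two_indep hA hl hlog hcon c₁ c₂ c₃ k1 k2 k3 (by linear_combination hs)
  · intro l δ hl hδ hδ0 h2
    by_contra hcon
    push Not at hcon
    have e2 : ((Real.log α : ℝ) : ℂ) * l ∈ Lt := by
      rw [real_cpow hα, mul_assoc] at h2
      have := mem_of_exp hδ hδ0 h2
      rwa [mul_comm] at this
    refine sixY hAtr (y₁ := 1) (y₂ := P) (y₃ := l) Lt_one pi_mem (Lt_log hl)
      (by simpa using eA) (by rwa [mul_comm]) e2 ?_
    intro c₁ c₂ c₃ k1 k2 k3 hs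
    have hpi : IsAlgebraic ℚ (Complex.exp (P * Complex.I)) := by
      rw [Complex.exp_pi_mul_I]
      exact isAlgebraic_one.neg
    have hI := Complex.I_mul_I
    obtain ⟨q0, q1, q2⟩ := two_indep hpi hl (mul_ne_zero hP Complex.I_ne_zero) hcon c₁
      (-(Complex.I * c₂)) c₃ k1 (LW.isAlgebraic_I.mul k2).neg k3
      (by linear_combination hs - c₂ * P * hI)
    exact ⟨q0, (mul_eq_zero.mp (neg_eq_zero.mp q1)).resolve_left Complex.I_ne_zero, q2⟩
  · intro ε hε hε0 h2 δ hδ hδ0 h3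
    have e2 : ((Real.log α : ℝ) : ℂ) * E ∈ Lt := by
      rw [real_cpow hα, mul_assoc] at h2
      have := mem_of_exp hε hε0 h2
      rwa [mul_comm] at this
    have h4 : IsAlgebraic ℚ (Complex.exp (((δ * Real.exp 1 : ℝ)) : ℂ)) := by
      rw [← Complex.ofReal_exp]
      exact alg_ofReal h3
    have hδ' : (δ : ℂ) ≠ 0 := Complex.ofReal_ne_zero.mpr hδ0
    have eE : E ∈ Lt := by
      refine mem_of_exp (alg_ofReal hδ) hδ' ?_
      rw [Complex.ofReal_mul] at h4
      exact h4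
    refine sixY hAtr (y₁ := 1) (y₂ := P) (y₃ := E) Lt_one pi_mem eE
      (by simpa using eA) (by rwa [mul_comm]) e2 ?_
    intro c₁ c₂ c₃ k1 k2 k3 hs
    obtain ⟨q0, q1, q2⟩ := Pool.Agent.H364R2.PiE.pair_indep (lam := δ * Real.exp 1)
      (mul_ne_zero hδ0 (Real.exp_pos 1).ne') h4 (a := c₁) (b := c₂) (c := c₃ / δ) k1 k2
      (k3.mul (alg_ofReal hδ).inv) (by
        rw [Complex.ofReal_mul]
        have e : c₃ / (δ : ℂ) * (δ * E) = c₃ * E := by
          field_simp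
        rw [e]
        linear_combination hs)
    exact ⟨q0, q1, (div_eq_zero_iff.mp q2).resolve_right hδ'⟩

end Pool.Agent.H445R3.PP
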